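import Pool.Agent.H336R2.HD.Defs

/-! Tasks A1, A2 (helper913): Gram and Hankel determinants. -/

open Polynomial Pool.Agent.H337R2

namespace Pool.Agent.H336R2.HD

noncomputable section

private lemma A1_expand (m : ℕ) (P : ℚ[X]) (h : P.natDegree < m) :
    P = ∑ k : Fin m, (P.coeff k) • (X ^ (k : ℕ) : ℚ[X]) := by
  conv_lhs => rw [P.as_sum_range' m h]
  rw [Fin.sum_univ_eq_sum_range (fun k => (P.coeff k) • (X ^ k : ℚ[X])) m]
  apply Finset.sum_congr rfl
  intro k _
  rw [← Polynomial.C_mul_X_pow_eq_monomial, Polynomial.smul_eq_C_mul]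

private lemma A1_gram (N : ℚ[X] →ₗ[ℚ] ℚ) (m : ℕ) {α : Type} [Fintype α] (P : α → ℚ[X])
    (h : ∀ a, (P a).natDegree < m) :
    (Matrix.of fun a b : α => N (P a * P b)) =
      (Matrix.of fun (a : α) (k : Fin m) => (P a).coeff (k : ℕ)) *
        (Matrix.of fun i j : Fin m => N (X ^ (i.1 + j.1))) *
        (Matrix.of fun (a : α) (k : Fin m) => (P a).coeff (k : ℕ)).transpose := by
  ext a b
  rw [Matrix.of_apply, Matrix.mul_apply]
  conv_lhs => rw [A1_expand m (P a) (h a), A1_expand m (P b) (h b), Finset.mul_sum, map_sum]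
  apply Finset.sum_congr rfl
  intro l _
  rw [Matrix.mul_apply, Matrix.transpose_apply, Matrix.of_apply, Finset.sum_mul, Finset.sum_mul,
    map_sum]
  apply Finset.sum_congr rfl
  intro k _
  rw [Matrix.of_apply, Matrix.of_apply, smul_mul_smul_comm, ← pow_add, map_smul, smul_eq_mul]
  ring

theorem A1_det_monic (N : ℚ[X] →ₗ[ℚ] ℚ) (m : ℕ) (P : ℕ → ℚ[X])
    (hP : ∀ i < m, (P i).Monic ∧ (P i).natDegree = i) :
    (Matrix.of fun i j : Fin m => N (P i * P j)).det =
      (Matrix.of fun i j : Fin m => N (X ^ (i.1 + j.1))).det := by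
  have h1 := A1_gram N m (fun i : Fin m => P i) (fun i => by rw [(hP i i.2).2]; exact i.2)
  have h2 : (Matrix.of fun (a : Fin m) (k : Fin m) => (P a).coeff (k : ℕ)).det = 1 := by
    rw [Matrix.det_of_lowerTriangular]
    · apply Finset.prod_eq_one
      intro i _
      rw [Matrix.of_apply]
      have h3 := (hP i i.2).1
      rw [Polynomial.Monic, Polynomial.leadingCoeff, (hP i i.2).2] at h3
      exact h3
    · intro i j hij
      rw [Matrix.of_apply]
      apply Polynomial.coeff_eq_zero_of_natDegree_lt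
      rw [(hP i i.2).2]
      exact hij
  rw [h1, Matrix.det_mul, Matrix.det_mul, Matrix.det_transpose, h2, one_mul, mul_one]

theorem A2_gram_ne (N : ℚ[X] →ₗ[ℚ] ℚ) (m : ℕ) {α : Type} [Fintype α] [DecidableEq α] (e : α ≃ Fin m)
    (P : α → ℚ[X]) (hP : ∀ a, (P a).natDegree < m)
    (h : (Matrix.of fun a b : α => N (P a * P b)).det ≠ 0) :
    (Matrix.of fun i j : Fin m => N (X ^ (i.1 + j.1))).det ≠ 0 := by
  intro h0
  apply h
  rw [← Matrix.det_submatrix_equiv_self e.symm]
  have h1 : (Matrix.of fun a b : α => N (P a * P b)).submatrix e.symm e.symm =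
      Matrix.of fun i j : Fin m => N (P (e.symm i) * P (e.symm j)) := rfl
  rw [h1, A1_gram N m (fun i : Fin m => P (e.symm i)) (fun i => hP _), Matrix.det_mul,
    Matrix.det_mul, h0, mul_zero, zero_mul]

end

end Pool.Agent.H336R2.HD
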