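import Mathlib

/-! Task A3 (helper953): p-adic and archimedean bounds for determinants. -/

namespace Pool.Agent.H336R2.HD

private theorem A3_prod_sq {R : Type} [Field R] [LinearOrder R] [IsStrictOrderedRing R] (m : ℕ)
    (N : Fin m → Fin m → R) (V : ℕ → R) (_hN : ∀ i j, 0 ≤ N i j) (hV : ∀ i, 0 ≤ V i)
    (h : ∀ i j : Fin m, N i j ^ 2 ≤ V i * V j) (σ : Equiv.Perm (Fin m)) :
    ∏ i, N (σ i) i ≤ ∏ i ∈ Finset.range m, V i := by
  have hP : 0 ≤ ∏ i ∈ Finset.range m, V i := Finset.prod_nonneg fun i _ => hV i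
  have h1 : (∏ i, N (σ i) i) ^ 2 ≤ (∏ i ∈ Finset.range m, V i) ^ 2 := by
    calc (∏ i, N (σ i) i) ^ 2 = ∏ i, N (σ i) i ^ 2 := by rw [Finset.prod_pow]
      _ ≤ ∏ i, (V (σ i) * V i) := by
          refine Finset.prod_le_prod (fun i _ => sq_nonneg _) fun i _ => h _ _
      _ = (∏ i, V (σ i : Fin m)) * ∏ i : Fin m, V i := Finset.prod_mul_distrib
      _ = (∏ i : Fin m, V i) * ∏ i : Fin m, V i := by
          rw [Equiv.prod_comp σ (fun i : Fin m => V i)]
      _ = (∏ i ∈ Finset.range m, V i) ^ 2 := by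
          rw [Finset.prod_range, sq]
  exact le_of_sq_le_sq h1 hP

theorem A3_padic_det (p : ℕ) [Fact p.Prime] (m : ℕ) (M : Matrix (Fin m) (Fin m) ℚ) (V : ℕ → ℚ)
    (hV : ∀ i, 0 ≤ V i) (h : ∀ i j : Fin m, padicNorm p (M i j) ^ 2 ≤ V i * V j) :
    padicNorm p M.det ≤ ∏ i ∈ Finset.range m, V i := by
  rw [Matrix.det_apply]
  refine padicNorm.sum_le' (fun σ _ => ?_) (Finset.prod_nonneg fun i _ => hV i)
  have hs : padicNorm p (Equiv.Perm.sign σ • ∏ i, M (σ i) i) = ∏ i, padicNorm p (M (σ i) i) := by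
    have h1 : padicNorm p (∏ i, M (σ i) i) = ∏ i, padicNorm p (M (σ i) i) := by
      classical
      refine Finset.induction_on (Finset.univ : Finset (Fin m)) ?_ ?_
      · simp
      · intro a s ha ih
        rw [Finset.prod_insert ha, Finset.prod_insert ha, padicNorm.mul, ih]
    rcases Int.units_eq_one_or (Equiv.Perm.sign σ) with hσ | hσ
    · rw [hσ, one_smul, h1]
    · rw [hσ, Units.neg_smul, one_smul, padicNorm.neg, h1]
  rw [hs]
  exact A3_prod_sq m (fun i j => padicNorm p (M i j)) V (fun i j => padicNorm.nonneg _) hV h σ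

theorem A4_abs_det (m : ℕ) (M : Matrix (Fin m) (Fin m) ℝ) (A : ℕ → ℝ) (hA : ∀ i, 0 ≤ A i)
    (h : ∀ i j : Fin m, |M i j| ^ 2 ≤ A i * A j) :
    |M.det| ≤ (m.factorial : ℝ) * ∏ i ∈ Finset.range m, A i := by
  rw [Matrix.det_apply]
  refine (Finset.abs_sum_le_sum_abs _ _).trans ?_
  have hs : ∀ σ : Equiv.Perm (Fin m), |Equiv.Perm.sign σ • ∏ i, M (σ i) i| ≤
      ∏ i ∈ Finset.range m, A i := by
    intro σ
    have h1 : |Equiv.Perm.sign σ • ∏ i, M (σ i) i| = ∏ i, |M (σ i) i| := by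
      rcases Int.units_eq_one_or (Equiv.Perm.sign σ) with hσ | hσ
      · rw [hσ, one_smul, Finset.abs_prod]
      · rw [hσ, Units.neg_smul, one_smul, abs_neg, Finset.abs_prod]
    rw [h1]
    exact A3_prod_sq m (fun i j => |M i j|) A (fun i j => abs_nonneg _) hA h σ
  refine (Finset.sum_le_sum fun σ _ => hs σ).trans ?_
  rw [Finset.sum_const, Finset.card_univ, Fintype.card_perm, Fintype.card_fin, nsmul_eq_mul]

end Pool.Agent.H336R2.HD
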