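import Pool.Agent.H337R2.Med
import Pool.Agent.H337R2.Cx3

/-!
# Hankel determinants of linear forms in `1, ζ(5), ζ(7)`: definitions

`R(t) = ((6n)!/(2n)!)^6 (2t+12n) (∏_{m=1}^{2n} (t+m)(t+12n-m))^3 / ∏_{k=3n}^{9n} (t+k)^6`,
`x(t) = t (t+12n)`, and the linear form attached to the numerator multiplied by `x^15 Q(x)`.
-/

open Polynomial Pool.Agent.H337R2

namespace Pool.Agent.H336R2.HD

noncomputable section

/-- six bricks `[3n, 9n]` -/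
abbrev ds6 : List ℕ := [3, 3, 3, 3, 3, 3]

/-- index set of helper337's format: `[2n+1, 10n-1]` -/
abbrev sN (n : ℕ) : Finset ℕ := ss 12 2 n

/-- multiplicity of the poles: `6` on `[3n, 9n]`, `0` otherwise -/
abbrev muN (n : ℕ) : ℕ → ℕ := mu 12 n ds6

/-- `((6n)!/(2n)!)^6` -/
abbrev cstN (n : ℕ) : ℚ := cst 3 12 2 n ds6

/-- numerator of `R` -/
abbrev PPn (n : ℕ) : ℚ[X] := PP 3 12 2 n ds6

/-- the exponent `e_p(k)` -/
abbrev eeN (p n k : ℕ) : ℤ := ee p 3 12 2 n ds6 k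

/-- `x(t) = t (t + 12 n)` -/
def xp (n : ℕ) : ℚ[X] := X * (X + C ((12 * n : ℕ) : ℚ))

/-- `x^15 Q(x)` as a polynomial in `t` -/
def EE (n : ℕ) (Q : ℚ[X]) : ℚ[X] := (X ^ 15 * Q).comp (xp n)

/-- the linear form as a function of the numerator (`u 3 = ζ(5)`, `u 5 = ζ(7)`) -/
def xf (n : ℕ) (u : ℕ → ℚ) (P : ℚ[X]) : ℚ :=
  ∑ i ∈ Finset.Icc 1 6, ((Nat.choose (i + 1) 2 : ℕ) : ℚ) *
    ((∑ k ∈ sN n, pa (sN n) (muN n) P k i) * u i -
      ∑ k ∈ sN n, pa (sN n) (muN n) P k i * hs (i + 2) (k - 2 * n - 1))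

lemma pa_add (s : Finset ℕ) (μ : ℕ → ℕ) (P Q : ℚ[X]) (k i : ℕ) :
    pa s μ (P + Q) k i = pa s μ P k i + pa s μ Q k i := by
  unfold pa
  split_ifs
  · unfold pfc; rw [map_add, add_mul, map_add]
  · simp

lemma pa_C_mul (s : Finset ℕ) (μ : ℕ → ℕ) (c : ℚ) (P : ℚ[X]) (k i : ℕ) :
    pa s μ (C c * P) k i = c * pa s μ P k i := by
  unfold pa
  split_ifs
  · unfold pfc; rw [(TS (-(k : ℚ))).map_mul, TS_C, mul_assoc, PowerSeries.coeff_C_mul]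
  · simp

/-- `xf` as a linear map of the numerator -/
def xfL (n : ℕ) (u : ℕ → ℚ) : ℚ[X] →ₗ[ℚ] ℚ where
  toFun := xf n u
  map_add' P Q := by
    unfold xf
    rw [← Finset.sum_add_distrib]
    apply Finset.sum_congr rfl
    intro i _
    simp only [pa_add, add_mul, Finset.sum_add_distrib]
    ring
  map_smul' c P := by
    rw [Polynomial.smul_eq_C_mul]
    unfold xf
    simp only [pa_C_mul, RingHom.id_apply, smul_eq_mul]
    rw [Finset.mul_sum]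
    apply Finset.sum_congr rfl
    intro i _
    rw [← Finset.mul_sum]
    have : ∑ k ∈ sN n, c * pa (sN n) (muN n) P k i * hs (i + 2) (k - 2 * n - 1)
        = c * ∑ k ∈ sN n, pa (sN n) (muN n) P k i * hs (i + 2) (k - 2 * n - 1) := by
      rw [Finset.mul_sum]
      apply Finset.sum_congr rfl
      intro k _
      ring
    rw [this]
    ring

/-- the functional `N(Q)` -/
def NL (n : ℕ) (u : ℕ → ℚ) : ℚ[X] →ₗ[ℚ] ℚ where
  toFun Q := xfL n u (PPn n * EE n Q)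
  map_add' P Q := by
    rw [← map_add]
    congr 1
    unfold EE
    rw [mul_add, Polynomial.add_comp, mul_add]
  map_smul' c P := by
    rw [RingHom.id_apply, ← map_smul]
    congr 1
    unfold EE
    rw [mul_smul_comm, Polynomial.smul_comp, mul_smul_comm]

lemma NL_apply (n : ℕ) (u : ℕ → ℚ) (Q : ℚ[X]) : NL n u Q = xf n u (PPn n * EE n Q) := rfl

/-- Hankel determinant -/
def DET (n : ℕ) (u : ℕ → ℚ) (m : ℕ) : ℚ :=
  (Matrix.of fun i j : Fin m => NL n u (X ^ (i.1 + j.1))).det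

/-- `q` is a common denominator of the `u i` -/
def UInt (q : ℕ) (u : ℕ → ℚ) : Prop := 0 < q ∧ ∀ i, ∃ z : ℤ, (q : ℚ) * u i = z

/-- `T(y) = ⌊(y+1)²/4⌋` for `y > 0`, and `0` otherwise -/
def TT (y : ℤ) : ℤ := if 0 < y then (y + 1) ^ 2 / 4 else 0

/-- representative of the class pair of `k` (for `k ≤ 12 n`) -/
def kap (n p k : ℕ) : ℕ := min (k % p) ((12 * n - k) % p)

/-- the set of class pairs -/
def Kset (n p : ℕ) : Finset ℕ := (Finset.range p).filter fun r => r ≤ (12 * n - r) % p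

/-- the class pairs containing a pole `≥ 2n+1+p` -/
def Kfull (n p : ℕ) : Finset ℕ := (Finset.Icc (2 * n + 1 + p) (9 * n)).image (kap n p)

/-- tents -/
def tn (a j p : ℕ) : ℝ := ((a - j * p : ℕ) : ℝ)

/-- the range of `j` -/
abbrev J : Finset ℕ := Finset.Icc 1 240

/-- exponent for `n/20 < p < 2n` -/
def EA (n p : ℕ) : ℝ :=
  18 * n - 36 * n * ((6 * n / p : ℕ) : ℝ) + 36 * n * ((2 * n / p : ℕ) : ℝ) +
  (9 * (6 * n + 2 * ∑ j ∈ J, tn (6 * n) j p)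
    - 18 * ∑ j ∈ J, (tn (9 * n) j p + tn n j p - tn (7 * n) j p - tn (3 * n) j p)
    + 9 / 4 * (4 * n + 4 * ∑ j ∈ J, tn (2 * n) j p
      + 2 * ∑ j ∈ J, (tn (12 * n) j p - 2 * tn (10 * n) j p + tn (8 * n) j p))) / 2

/-- exponent for `2n < p < 5n` -/
def EB (n p : ℕ) : ℝ :=
  18 * n - 36 * n * ((6 * n / p : ℕ) : ℝ) +
  (9 * (6 * n + 2 * ∑ j ∈ J, tn (6 * n) j p)
    - 18 * ∑ j ∈ J, (tn (9 * n) j p + tn n j p - tn (7 * n) j p - tn (3 * n) j p)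
    + (8 * n + 5 * ∑ j ∈ J, (tn (12 * n) j p - 2 * tn (10 * n) j p + tn (8 * n) j p))) / 2

/-- exponent for `5n < p < 7n` -/
def EC (n p : ℕ) : ℝ :=
  - 36 * n * ((6 * n / p : ℕ) : ℝ) + 8 * tn (6 * n) 1 p + 20 * tn (7 * n) 1 p

/-- the exponent -/
def EW (n p : ℕ) : ℝ := if p < 2 * n then EA n p else if p < 5 * n then EB n p else if p < 7 * n then EC n p else 0

/-- primes between `lo n` and `hi n` -/
def PS (lo hi : ℝ) (n : ℕ) : Finset ℕ := by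
  classical exact (Finset.range (13 * n)).filter (fun p : ℕ => p.Prime ∧ lo * n < p ∧ (p : ℝ) < hi * n)

/-- limit of the tent sums: `∫_{lo}^{hi} (α - j y)_+ dy` -/
def It (α j : ℕ) (lo hi : ℚ) : ℚ :=
  let c := max lo (min hi ((α : ℚ) / j))
  α * (c - lo) - j * (c ^ 2 - lo ^ 2) / 2

/-- limit of the floor sums -/
def Ifl (α : ℕ) (lo hi : ℚ) : ℚ := ∑ j ∈ J, (max lo (min hi ((α : ℚ) / j)) - lo)

/-- polynomials with zeros at consecutive integers (in `t`), around `-6n` -/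
def CP (n i : ℕ) : ℚ[X] := ∏ l ∈ Finset.range i, (X + C (36 * (n : ℚ) ^ 2 - (l : ℚ) ^ 2))

/-- `R` on the line `Re t = -1/2` -/
def Rn (n : ℕ) (y : ℝ) : ℂ := aeval (zl y) (PPn n) / aeval (zl y) (QQ (sN n) (muN n))

/-- `x` on the line -/
def xz (n : ℕ) (y : ℝ) : ℂ := zl y * (zl y + ((12 * n : ℕ) : ℂ))

/-- the four nodes `g1 ± i g2`, the exponents `σ` and the constants `t` -/
def g1 : ℕ → ℚ
  | 0 => 599 / 100
  | 1 => 596 / 100
  | 2 => 594 / 100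
  | _ => 584 / 100

def g2 : ℕ → ℚ
  | 0 => 13 / 100
  | 1 => 56 / 100
  | 2 => 128 / 100
  | _ => 159 / 100

def sg : ℕ → ℕ
  | 0 => 10
  | 1 => 14
  | 2 => 20
  | _ => 28

def tb : ℕ → ℕ
  | 0 => 0
  | 1 => 66
  | 2 => 233
  | 3 => 505
  | _ => 979

/-- `q(x)`, with zeros (in `t`, scaled) at `-6n ± g1 n ± i g2 n` -/
def qb (n : ℕ) (a b : ℚ) : ℚ[X] :=
  (X + C (36 * (n : ℚ) ^ 2)) ^ 2 - C (2 * (a ^ 2 - b ^ 2) * (n : ℚ) ^ 2) * (X + C (36 * (n : ℚ) ^ 2))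
    + C ((a ^ 2 + b ^ 2) ^ 2 * (n : ℚ) ^ 4)

/-- `|q|²` on the line `Re = 6`, as a function of `v = η²` -/
def Gb (a b : ℚ) (v : ℝ) : ℝ :=
  ((v + (6 - (a : ℝ)) ^ 2 + (b : ℝ) ^ 2) ^ 2 - 4 * (b : ℝ) ^ 2 * v) *
  ((v + (6 + (a : ℝ)) ^ 2 + (b : ℝ) ^ 2) ^ 2 - 4 * (b : ℝ) ^ 2 * v)

/-- the factors `(c, e)` of the comparison product `∏ (1 + v/c²)^e` -/
def FX : List (ℚ × ℕ) :=
  [(1/24, 1), (3/24, 1), (5/24, 1), (7/24, 1), (9/24, 1), (11/24, 1), (13/24, 1), (15/24, 1), (17/24, 1), (19/24, 1),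
   (21/24, 1), (23/24, 1), (9/8, 3), (11/8, 3), (13/8, 3), (15/8, 3), (9/4, 24), (11/4, 24), (7/2, 120), (9/2, 120),
   (11/2, 120), (13/2, 120), (15/2, 120), (17/2, 120), (19/2, 48), (21/2, 12), (23/2, 12), (13, 96), (16, 192),
   (22, 384), (38, 1152), (75, 2400), (150, 4800)]

/-- comparison product -/
def FXp (v : ℝ) : ℝ := (FX.map fun x => (1 + v / (x.1 : ℝ) ^ 2) ^ x.2).prod

/-- `Φ(0)` -/
def Phi0 : ℝ := 72 * Real.log 2 - 18 * Real.log 3 - 30 * Real.log 5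

/-- local power series at the pole `j` (non-vanishing) -/
def ser (j e : ℕ) : PowerSeries ℚ :=
  ((PowerSeries.X + PowerSeries.C (-(j : ℚ))) * (PowerSeries.X + PowerSeries.C (1 - (j : ℚ))) *
    (PowerSeries.X + PowerSeries.C (10 - (j : ℚ))) * (PowerSeries.X + PowerSeries.C (11 - (j : ℚ)))) ^ 3 *
  (∏ b ∈ (Finset.Icc 3 8).erase j, iv ((b : ℚ) - j) ^ 6) * (PowerSeries.X + PowerSeries.C (-(j : ℚ))) ^ e

/-- local functional, values on monomials -/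
def Fm (e : ℕ) : ℚ :=
  - ∑ j ∈ Finset.Icc 3 8, ∑ i ∈ Finset.Icc 1 6, ((Nat.choose (i + 1) 2 : ℕ) : ℚ) *
    PowerSeries.coeff (6 - i) (ser j e) * (hs (i + 2) (j - 2) + (-1) ^ (i + 1) * hs (i + 2) (9 - j))

/-- node polynomial `x - x(-r)` -/
def XN (n r : ℕ) : ℚ[X] := X + C ((r : ℚ) * (12 * n - r))

end

end Pool.Agent.H336R2.HD
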