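import Pool.Agent.H336R2.HD.Defs
import Pool.Agent.Helper923.PNT

/-! Sums over primes `lo n < p < hi n` from the prime number theorem. -/

open Filter Topology Finset

namespace Pool.Agent.H336R2.HD

open Chebyshev in
lemma theta_sub_le (ε : ℝ) (hε : 0 < ε) : ∃ T : ℝ, 0 < T ∧ ∀ t : ℝ, T ≤ t →
    |Chebyshev.theta t - t| ≤ ε * t := by
  have h := Pool.Agent.Helper923.PNT.theta_div_tendsto
  rw [Metric.tendsto_atTop] at h
  obtain ⟨N, hN⟩ := h ε hε
  refine ⟨max N 1, by positivity, fun t ht => ?_⟩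
  have ht1 : 1 ≤ t := (le_max_right _ _).trans ht
  have h1 := hN t ((le_max_left _ _).trans ht)
  rw [Real.dist_eq] at h1
  have h2 : Chebyshev.theta t - t = (Chebyshev.theta t / t - 1) * t := by
    field_simp
  rw [h2, abs_mul, abs_of_pos (by linarith : 0 < t)]
  exact mul_le_mul_of_nonneg_right h1.le (by linarith)

lemma theta_tendsto (a : ℝ) (ha : 0 < a) :
    Tendsto (fun n : ℕ => Chebyshev.theta (a * n) / (n : ℝ)) atTop (𝓝 a) := by
  have h2 : Tendsto (fun n : ℕ => a * (n : ℝ)) atTop atTop :=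
    (tendsto_natCast_atTop_atTop).const_mul_atTop ha
  have h3 := (Pool.Agent.Helper923.PNT.theta_div_tendsto.comp h2).const_mul a
  rw [mul_one] at h3
  refine h3.congr' ?_
  filter_upwards [eventually_ge_atTop 1] with n hn
  have hn0 : (n : ℝ) ≠ 0 := by exact_mod_cast (by omega : n ≠ 0)
  show a * (Chebyshev.theta (a * n) / (a * n)) = _
  field_simp

/-- the weighted prime indicator -/
noncomputable def pw (k : ℕ) : ℝ := if k.Prime then Real.log k else 0

lemma sum_pw (t : ℝ) : ∑ k ∈ Icc 0 ⌊t⌋₊, pw k = Chebyshev.theta t := by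
  rw [Chebyshev.theta_eq_sum_Icc, sum_filter]
  rfl

lemma pw_nonneg (k : ℕ) : 0 ≤ pw k := by
  unfold pw
  split_ifs with h
  · exact Real.log_nonneg (by exact_mod_cast h.one_lt.le)
  · exact le_refl _

/-- comparison of `PS` with a half open interval -/
lemma PS_sum (f : ℕ → ℝ) (hf : ∀ k, 0 ≤ f k) (a b : ℝ) (ha : 0 ≤ a) (hab : a ≤ b) (hb : b ≤ 12)
    (n : ℕ) (hn : 1 ≤ n) :
    ∑ k ∈ Ioc ⌊a * n⌋₊ ⌊b * n⌋₊, f k * pw k - f ⌊b * n⌋₊ * pw ⌊b * n⌋₊ ≤
      ∑ p ∈ PS a b n, f p * Real.log p ∧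
    ∑ p ∈ PS a b n, f p * Real.log p ≤ ∑ k ∈ Ioc ⌊a * n⌋₊ ⌊b * n⌋₊, f k * pw k := by
  classical
  have hn0 : (0 : ℝ) < n := by exact_mod_cast hn
  have hPS : ∀ p, p ∈ PS a b n ↔ p.Prime ∧ a * n < p ∧ (p : ℝ) < b * n := by
    intro p
    unfold PS
    rw [mem_filter, mem_range]
    refine ⟨fun h => h.2, fun h => ⟨?_, h⟩⟩
    have h1 : (p : ℝ) < 13 * n := by nlinarith [h.2.2]
    exact_mod_cast h1
  have hIoc : ∀ k, k ∈ Ioc ⌊a * n⌋₊ ⌊b * n⌋₊ ↔ a * n < k ∧ (k : ℝ) ≤ b * n := by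
    intro k
    rw [mem_Ioc, Nat.floor_lt (by positivity), Nat.le_floor_iff (by nlinarith)]
  have hsub : PS a b n ⊆ Ioc ⌊a * n⌋₊ ⌊b * n⌋₊ := by
    intro p hp
    rw [hPS] at hp
    rw [hIoc]
    exact ⟨hp.2.1, hp.2.2.le⟩
  have e1 : ∑ p ∈ PS a b n, f p * Real.log p = ∑ p ∈ PS a b n, f p * pw p := by
    apply sum_congr rfl
    intro p hp
    rw [hPS] at hp
    unfold pw
    rw [if_pos hp.1]
  constructor
  · rw [e1]
    have h1 : ∑ k ∈ Ioc ⌊a * n⌋₊ ⌊b * n⌋₊, f k * pw k ≤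
        ∑ k ∈ insert ⌊b * n⌋₊ (PS a b n), f k * pw k + 0 := by
      rw [add_zero]
      have h2 : ∑ k ∈ Ioc ⌊a * n⌋₊ ⌊b * n⌋₊, f k * pw k =
          ∑ k ∈ (Ioc ⌊a * n⌋₊ ⌊b * n⌋₊).filter Nat.Prime, f k * pw k := by
        rw [sum_filter]
        apply sum_congr rfl
        intro k _
        unfold pw
        split_ifs <;> simp
      rw [h2]
      apply sum_le_sum_of_subset_of_nonneg
      · intro k hk
        rw [mem_filter, hIoc] at hk
        rw [mem_insert, hPS]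
        by_cases h : (k : ℝ) < b * n
        · exact Or.inr ⟨hk.2, hk.1.1, h⟩
        · left
          have h3 : (k : ℝ) = b * n := le_antisymm hk.1.2 (not_lt.1 h)
          rw [← h3, Nat.floor_natCast]
      · intro k _ _
        exact mul_nonneg (hf k) (pw_nonneg k)
    have h3 : ∑ k ∈ insert ⌊b * n⌋₊ (PS a b n), f k * pw k ≤
        f ⌊b * n⌋₊ * pw ⌊b * n⌋₊ + ∑ k ∈ PS a b n, f k * pw k := by
      by_cases h : ⌊b * n⌋₊ ∈ PS a b n
      · rw [insert_eq_of_mem h]
        have := mul_nonneg (hf ⌊b * n⌋₊) (pw_nonneg ⌊b * n⌋₊)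
        linarith
      · rw [sum_insert h]
    linarith
  · rw [e1]
    apply sum_le_sum_of_subset_of_nonneg hsub
    intro k _ _
    exact mul_nonneg (hf k) (pw_nonneg k)

lemma log_div_tendsto (c : ℝ) (hc : 0 < c) :
    Tendsto (fun n : ℕ => Real.log (c * n) / (n : ℝ)) atTop (𝓝 0) := by
  have h1 : Tendsto (fun x : ℝ => Real.log x / x) atTop (𝓝 0) :=
    Real.isLittleO_log_id_atTop.tendsto_div_nhds_zero
  have h2 : Tendsto (fun n : ℕ => c * (n : ℝ)) atTop atTop :=
    (tendsto_natCast_atTop_atTop).const_mul_atTop hc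
  have h3 := (h1.comp h2).const_mul c
  rw [mul_zero] at h3
  refine h3.congr' ?_
  filter_upwards [eventually_ge_atTop 1] with n hn
  have hn0 : (n : ℝ) ≠ 0 := by exact_mod_cast (by omega : n ≠ 0)
  show c * (Real.log (c * n) / (c * n)) = _
  field_simp

lemma pw_floor_le (b : ℝ) (hb : 0 ≤ b) (hb2 : b ≤ 12) (n : ℕ) (hn : 1 ≤ n) :
    pw ⌊b * n⌋₊ ≤ Real.log (12 * n) := by
  have hn0 : (1 : ℝ) ≤ n := by exact_mod_cast hn
  unfold pw
  split_ifs with h
  · apply Real.log_le_log (by exact_mod_cast h.pos)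
    exact (Nat.floor_le (by positivity)).trans (by nlinarith)
  · exact Real.log_nonneg (by linarith)

lemma sum_one (a b : ℝ) (hab : a ≤ b) :
    ∑ k ∈ Ioc ⌊a⌋₊ ⌊b⌋₊, (1 : ℝ) * pw k = Chebyshev.theta b - Chebyshev.theta a := by
  have h1 : ∑ k ∈ Ioc 0 ⌊b⌋₊, pw k = ∑ k ∈ Ioc 0 ⌊a⌋₊, pw k + ∑ k ∈ Ioc ⌊a⌋₊ ⌊b⌋₊, pw k := by
    rw [← sum_union (Ioc_disjoint_Ioc_of_le (le_refl _)),
      Ioc_union_Ioc_eq_Ioc (Nat.zero_le _) (Nat.floor_le_floor hab)]
  have h2 : ∀ t : ℝ, Chebyshev.theta t = ∑ k ∈ Ioc 0 ⌊t⌋₊, pw k := by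
    intro t
    unfold Chebyshev.theta
    rw [sum_filter]
    rfl
  rw [h2 b, h2 a, h1]
  simp

/-- number of primes, weighted with `log p` -/
lemma S_tendsto (a b : ℝ) (ha : 0 < a) (hab : a ≤ b) (hb : b ≤ 12) :
    Tendsto (fun n : ℕ => (∑ p ∈ PS a b n, Real.log p) / (n : ℝ)) atTop (𝓝 (b - a)) := by
  have hu : Tendsto (fun n : ℕ => Chebyshev.theta (b * n) / (n : ℝ) -
      Chebyshev.theta (a * n) / (n : ℝ)) atTop (𝓝 (b - a)) :=
    (theta_tendsto b (by linarith)).sub (theta_tendsto a ha)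
  have hl : Tendsto (fun n : ℕ => Chebyshev.theta (b * n) / (n : ℝ) -
      Chebyshev.theta (a * n) / (n : ℝ) - Real.log (12 * n) / (n : ℝ)) atTop (𝓝 (b - a)) := by
    have := hu.sub (log_div_tendsto 12 (by norm_num))
    rwa [sub_zero] at this
  refine tendsto_of_tendsto_of_tendsto_of_le_of_le' hl hu ?_ ?_
  · filter_upwards [eventually_ge_atTop 1] with n hn
    have hn0 : (0 : ℝ) < n := by exact_mod_cast hn
    have h := (PS_sum (fun _ => 1) (fun _ => zero_le_one) a b ha.le hab hb n hn).1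
    rw [sum_one _ _ (by nlinarith)] at h
    have h2 := pw_floor_le b (by linarith) hb n hn
    rw [← sub_div, ← sub_div]
    apply div_le_div_of_nonneg_right _ hn0.le
    simp only [one_mul] at h
    linarith
  · filter_upwards [eventually_ge_atTop 1] with n hn
    have hn0 : (0 : ℝ) < n := by exact_mod_cast hn
    have h := (PS_sum (fun _ => 1) (fun _ => zero_le_one) a b ha.le hab hb n hn).2
    rw [sum_one _ _ (by nlinarith)] at h
    rw [← sub_div]
    apply div_le_div_of_nonneg_right _ hn0.le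
    simpa only [one_mul] using h

lemma theta_meas : Measurable Chebyshev.theta := Chebyshev.theta_mono.measurable

lemma sum_id (a b : ℝ) (ha : 0 ≤ a) (hab : a ≤ b) :
    ∑ k ∈ Ioc ⌊a⌋₊ ⌊b⌋₊, (k : ℝ) * pw k = b * Chebyshev.theta b - a * Chebyshev.theta a -
      ∫ t in Set.Ioc a b, Chebyshev.theta t := by
  have h := sum_mul_eq_sub_sub_integral_mul (c := pw) (f := fun x : ℝ => x) ha hab
    (fun t _ => differentiableAt_id) (by
      have : deriv (fun x : ℝ => x) = fun _ => 1 := by funext x; simp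
      rw [this]
      exact MeasureTheory.integrableOn_const (by simp))
  rw [h, sum_pw, sum_pw]
  congr 1
  apply MeasureTheory.setIntegral_congr_fun measurableSet_Ioc
  intro t _
  show deriv (fun x : ℝ => x) t * ∑ k ∈ Icc 0 ⌊t⌋₊, pw k = _
  rw [sum_pw]
  simp

lemma integral_theta (a b : ℝ) (ha : 0 < a) (hab : a ≤ b) :
    Tendsto (fun n : ℕ => (∫ t in Set.Ioc (a * n) (b * n), Chebyshev.theta t) / (n : ℝ) ^ 2) atTop
      (𝓝 ((b ^ 2 - a ^ 2) / 2)) := by
  rw [Metric.tendsto_atTop]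
  intro ε hε
  obtain ⟨T, hT, hTT⟩ := theta_sub_le (ε / (2 * (b ^ 2 + 1))) (by positivity)
  obtain ⟨N, hN⟩ := exists_nat_gt (T / a)
  refine ⟨N + 1, fun n hn => ?_⟩
  have hn0 : (0 : ℝ) < n := by exact_mod_cast (by omega : 0 < n)
  have hb0 : 0 < b := by linarith
  have hNn : (N : ℝ) ≤ n := by exact_mod_cast (by omega : N ≤ n)
  have hTa : T ≤ a * n := by
    rw [div_lt_iff₀ ha] at hN
    nlinarith
  have hle : a * n ≤ b * n := mul_le_mul_of_nonneg_right hab hn0.le
  have hi1 : MeasureTheory.IntegrableOn Chebyshev.theta (Set.Ioc (a * n) (b * n)) :=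
    (Chebyshev.theta_mono.monotoneOn _).integrableOn_isCompact isCompact_Icc |>.mono_set
      Set.Ioc_subset_Icc_self
  have hi2 : MeasureTheory.IntegrableOn (fun t : ℝ => t) (Set.Ioc (a * n) (b * n)) :=
    (continuous_id.integrableOn_Icc).mono_set Set.Ioc_subset_Icc_self
  have e1 : ∫ t in Set.Ioc (a * n) (b * n), t = (b ^ 2 - a ^ 2) / 2 * (n : ℝ) ^ 2 := by
    rw [← intervalIntegral.integral_of_le hle, integral_id]
    ring
  have e2 : (∫ t in Set.Ioc (a * n) (b * n), Chebyshev.theta t) / (n : ℝ) ^ 2 - (b ^ 2 - a ^ 2) / 2 =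
      (∫ t in Set.Ioc (a * n) (b * n), (Chebyshev.theta t - t)) / (n : ℝ) ^ 2 := by
    rw [MeasureTheory.integral_sub hi1 hi2, e1]
    field_simp
  rw [Real.dist_eq, e2, abs_div, abs_of_pos (by positivity : (0 : ℝ) < (n : ℝ) ^ 2),
    div_lt_iff₀ (by positivity)]
  have h3 : ‖∫ t in Set.Ioc (a * n) (b * n), (Chebyshev.theta t - t)‖ ≤
      (ε / (2 * (b ^ 2 + 1)) * (b * n)) * MeasureTheory.volume.real (Set.Ioc (a * n) (b * n)) := by
    apply MeasureTheory.norm_setIntegral_le_of_norm_le_const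
    · simp
    · intro t ht
      rw [Real.norm_eq_abs]
      refine (hTT t (by linarith [ht.1])).trans ?_
      exact mul_le_mul_of_nonneg_left ht.2 (by positivity)
  rw [Real.norm_eq_abs, Real.volume_real_Ioc_of_le hle] at h3
  refine lt_of_le_of_lt h3 ?_
  have h4 : ε / (2 * (b ^ 2 + 1)) * (b * n) * (b * n - a * n) ≤
      ε / (2 * (b ^ 2 + 1)) * (b * n) * (b * n) :=
    mul_le_mul_of_nonneg_left (by nlinarith) (by positivity)
  refine lt_of_le_of_lt h4 ?_
  have h5 : ε / (2 * (b ^ 2 + 1)) * (b * n) * (b * n) = ε * (n : ℝ) ^ 2 * (b ^ 2 / (2 * (b ^ 2 + 1))) := by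
    field_simp
  rw [h5]
  have h6 : b ^ 2 / (2 * (b ^ 2 + 1)) < 1 := by
    rw [div_lt_one (by positivity)]
    nlinarith
  have h7 : 0 < ε * (n : ℝ) ^ 2 := by positivity
  nlinarith

/-- `∑ p log p` -/
lemma M_tendsto (a b : ℝ) (ha : 0 < a) (hab : a ≤ b) (hb : b ≤ 12) :
    Tendsto (fun n : ℕ => (∑ p ∈ PS a b n, (p : ℝ) * Real.log p) / (n : ℝ) ^ 2) atTop
      (𝓝 ((b ^ 2 - a ^ 2) / 2)) := by
  have hb0 : 0 < b := by linarith
  have hu0 : Tendsto (fun n : ℕ => b * (Chebyshev.theta (b * n) / (n : ℝ)) -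
      a * (Chebyshev.theta (a * n) / (n : ℝ)) -
      (∫ t in Set.Ioc (a * n) (b * n), Chebyshev.theta t) / (n : ℝ) ^ 2) atTop
      (𝓝 (b * b - a * a - (b ^ 2 - a ^ 2) / 2)) :=
    (((theta_tendsto b hb0).const_mul b).sub ((theta_tendsto a ha).const_mul a)).sub
      (integral_theta a b ha hab)
  have hu : Tendsto (fun n : ℕ => (∑ k ∈ Ioc ⌊a * n⌋₊ ⌊b * n⌋₊, (k : ℝ) * pw k) / (n : ℝ) ^ 2)
      atTop (𝓝 ((b ^ 2 - a ^ 2) / 2)) := by
    rw [show b * b - a * a - (b ^ 2 - a ^ 2) / 2 = (b ^ 2 - a ^ 2) / 2 by ring] at hu0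
    refine hu0.congr' ?_
    filter_upwards [eventually_ge_atTop 1] with n hn
    have hn0 : (0 : ℝ) < n := by exact_mod_cast hn
    rw [sum_id _ _ (by positivity) (mul_le_mul_of_nonneg_right hab hn0.le)]
    field_simp
  have hl : Tendsto (fun n : ℕ => (∑ k ∈ Ioc ⌊a * n⌋₊ ⌊b * n⌋₊, (k : ℝ) * pw k) / (n : ℝ) ^ 2 -
      12 * (Real.log (12 * n) / (n : ℝ))) atTop (𝓝 ((b ^ 2 - a ^ 2) / 2)) := by
    have := hu.sub ((log_div_tendsto 12 (by norm_num)).const_mul 12)
    rwa [mul_zero, sub_zero] at this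
  refine tendsto_of_tendsto_of_tendsto_of_le_of_le' hl hu ?_ ?_
  · filter_upwards [eventually_ge_atTop 1] with n hn
    have hn0 : (0 : ℝ) < n := by exact_mod_cast hn
    have h := (PS_sum (fun k => (k : ℝ)) (fun _ => Nat.cast_nonneg _) a b ha.le hab hb n hn).1
    have h2 := pw_floor_le b hb0.le hb n hn
    have h3 : ((⌊b * n⌋₊ : ℕ) : ℝ) ≤ 12 * n :=
      (Nat.floor_le (by positivity)).trans (mul_le_mul_of_nonneg_right hb hn0.le)
    have h4 : ((⌊b * n⌋₊ : ℕ) : ℝ) * pw ⌊b * n⌋₊ ≤ 12 * n * Real.log (12 * n) :=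
      mul_le_mul h3 h2 (pw_nonneg _) (by positivity)
    have h5 : 12 * (Real.log (12 * n) / (n : ℝ)) = 12 * n * Real.log (12 * n) / (n : ℝ) ^ 2 := by
      field_simp
    rw [h5, ← sub_div]
    apply div_le_div_of_nonneg_right _ (by positivity)
    linarith
  · filter_upwards [eventually_ge_atTop 1] with n hn
    have h := (PS_sum (fun k => (k : ℝ)) (fun _ => Nat.cast_nonneg _) a b ha.le hab hb n hn).2
    exact div_le_div_of_nonneg_right h (by positivity)

theorem F1_const (lo hi : ℚ) (h0 : 0 < lo) (h1 : lo ≤ hi) (h2 : hi ≤ 12) :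
    Tendsto (fun n : ℕ => (∑ p ∈ PS lo hi n, (n : ℝ) * Real.log p) / (n : ℝ) ^ 2) atTop
      (𝓝 (((hi - lo : ℚ)) : ℝ)) := by
  have h := S_tendsto (lo : ℝ) (hi : ℝ) (by exact_mod_cast h0) (by exact_mod_cast h1)
    (by exact_mod_cast h2)
  rw [Rat.cast_sub]
  refine h.congr' ?_
  filter_upwards [eventually_ge_atTop 1] with n hn
  have hn0 : (n : ℝ) ≠ 0 := by exact_mod_cast (by omega : n ≠ 0)
  rw [← mul_sum]
  field_simp

theorem F1_tent (α j : ℕ) (hj : 1 ≤ j) (lo hi : ℚ) (h0 : 0 < lo) (h1 : lo ≤ hi) (h2 : hi ≤ 12) :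
    Tendsto (fun n : ℕ => (∑ p ∈ PS lo hi n, tn (α * n) j p * Real.log p) / (n : ℝ) ^ 2) atTop
      (𝓝 ((It α j lo hi : ℚ) : ℝ)) := by
  have hj0 : (0 : ℚ) < j := by exact_mod_cast hj
  have hj0' : (0 : ℝ) < j := by exact_mod_cast hj
  obtain ⟨c, hc⟩ : ∃ c : ℚ, c = max lo (min hi ((α : ℚ) / j)) := ⟨_, rfl⟩
  have hlc : lo ≤ c := by rw [hc]; exact le_max_left _ _
  have hch : c ≤ hi := by rw [hc]; exact max_le h1 (min_le_left _ _)
  have hIt : It α j lo hi = α * (c - lo) - j * (c ^ 2 - lo ^ 2) / 2 := by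
    unfold It
    rw [← hc]
  have hlo' : (0 : ℝ) < (lo : ℝ) := by exact_mod_cast h0
  have hlc' : (lo : ℝ) ≤ (c : ℝ) := by exact_mod_cast hlc
  have hch' : (c : ℝ) ≤ (hi : ℝ) := by exact_mod_cast hch
  have h2' : (hi : ℝ) ≤ 12 := by exact_mod_cast h2
  have hS := (S_tendsto (lo : ℝ) (c : ℝ) hlo' hlc' (hch'.trans h2')).const_mul (α : ℝ)
  have hM := (M_tendsto (lo : ℝ) (c : ℝ) hlo' hlc' (hch'.trans h2')).const_mul (j : ℝ)
  have h3 := hS.sub hM
  have e1 : ((It α j lo hi : ℚ) : ℝ) = (α : ℝ) * ((c : ℝ) - lo) - j * (((c : ℝ) ^ 2 - (lo : ℝ) ^ 2) / 2) := by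
    rw [hIt]
    push_cast
    ring
  rw [e1]
  refine h3.congr' ?_
  filter_upwards [eventually_ge_atTop 1] with n hn
  have hn0 : (0 : ℝ) < n := by exact_mod_cast hn
  classical
  have hPS : ∀ (a b : ℝ), b ≤ 12 → ∀ p, p ∈ PS a b n ↔ p.Prime ∧ a * n < p ∧ (p : ℝ) < b * n := by
    intro a b hb p
    unfold PS
    rw [mem_filter, mem_range]
    refine ⟨fun h => h.2, fun h => ⟨?_, h⟩⟩
    have h1 : (p : ℝ) < 13 * n := by nlinarith [h.2.2]
    exact_mod_cast h1
  have key : ∑ p ∈ PS lo hi n, tn (α * n) j p * Real.log p =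
      ∑ p ∈ PS lo c n, ((α : ℝ) * n - j * p) * Real.log p := by
    have hsub : PS (lo : ℝ) (c : ℝ) n ⊆ PS (lo : ℝ) (hi : ℝ) n := by
      intro p hp
      rw [hPS _ _ (hch'.trans h2')] at hp
      rw [hPS _ _ h2']
      exact ⟨hp.1, hp.2.1, lt_of_lt_of_le hp.2.2 (mul_le_mul_of_nonneg_right hch' hn0.le)⟩
    rw [← sum_subset hsub]
    · apply sum_congr rfl
      intro p hp
      rw [hPS _ _ (hch'.trans h2')] at hp
      congr 1
      unfold tn
      have hcα : (c : ℝ) * n ≤ (α : ℝ) * n / j := by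
        -- since `lo * n < p < c * n`, `c > lo`, hence `c ≤ α / j`
        have hlt : (lo : ℝ) < c := by
          have := hp.2.1.trans hp.2.2
          exact lt_of_mul_lt_mul_right this hn0.le
        have hlt' : lo < c := by exact_mod_cast hlt
        have : c ≤ (α : ℚ) / j := by
          by_contra hcon
          rw [not_le] at hcon
          have : c = lo ∨ c = min hi ((α : ℚ) / j) := by
            rw [hc]
            rcases le_total lo (min hi ((α : ℚ) / j)) with h | h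
            · right; exact max_eq_right h
            · left; exact max_eq_left h
          rcases this with h | h
          · exact absurd h hlt'.ne'
          · rw [h] at hcon
            exact absurd (min_le_right hi ((α : ℚ) / j)) (not_le.2 hcon)
        have h' : (c : ℝ) ≤ (α : ℝ) / j := by
          have h9 := (Rat.cast_le (K := ℝ)).2 this
          push_cast at h9
          exact h9
        calc (c : ℝ) * n ≤ (α : ℝ) / j * n := mul_le_mul_of_nonneg_right h' hn0.le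
          _ = (α : ℝ) * n / j := by ring
      have hjp : (j : ℝ) * p ≤ α * n := by
        have h3 : (p : ℝ) ≤ (α : ℝ) * n / j := hp.2.2.le.trans hcα
        rw [le_div_iff₀ hj0'] at h3
        linarith
      have hjp' : j * p ≤ α * n := by exact_mod_cast hjp
      rw [Nat.cast_sub hjp']
      push_cast
      ring
    · intro p hp hp'
      rw [hPS _ _ h2'] at hp
      rw [hPS _ _ (hch'.trans h2')] at hp'
      have hpc : (c : ℝ) * n ≤ p := by
        by_contra hcon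
        exact hp' ⟨hp.1, hp.2.1, not_le.1 hcon⟩
      have hcα : (α : ℝ) / j ≤ c := by
        have hlt : (c : ℝ) < hi := by
          have := lt_of_le_of_lt hpc hp.2.2
          exact lt_of_mul_lt_mul_right this hn0.le
        have hlt' : c < hi := by exact_mod_cast hlt
        have : (α : ℚ) / j ≤ c := by
          by_contra hcon
          rw [not_le] at hcon
          have h4 : min hi ((α : ℚ) / j) ≤ c := by rw [hc]; exact le_max_right _ _
          rcases le_total hi ((α : ℚ) / j) with h | h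
          · rw [min_eq_left h] at h4
            exact absurd h4 (not_le.2 hlt')
          · rw [min_eq_right h] at h4
            exact absurd h4 (not_le.2 hcon)
        have h9 := (Rat.cast_le (K := ℝ)).2 this
        push_cast at h9
        exact h9
      have h5 : (α : ℝ) * n ≤ j * p := by
        rw [div_le_iff₀ hj0'] at hcα
        have h6 : (α : ℝ) * n ≤ c * j * n := mul_le_mul_of_nonneg_right hcα hn0.le
        have h7 : (c : ℝ) * n * j ≤ p * j := mul_le_mul_of_nonneg_right hpc hj0'.le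
        linarith
      have h6 : α * n ≤ j * p := by exact_mod_cast h5
      unfold tn
      rw [Nat.sub_eq_zero_of_le h6]
      simp
  rw [key]
  have e2 : ∑ p ∈ PS (lo : ℝ) (c : ℝ) n, ((α : ℝ) * n - j * p) * Real.log p =
      α * n * ∑ p ∈ PS (lo : ℝ) (c : ℝ) n, Real.log p -
        j * ∑ p ∈ PS (lo : ℝ) (c : ℝ) n, (p : ℝ) * Real.log p := by
    rw [mul_sum, mul_sum, ← sum_sub_distrib]
    apply sum_congr rfl
    intro p _
    ring
  rw [e2]
  field_simp

end Pool.Agent.H336R2.HD
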