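import Mathlib

/-! Task F6: lower bound for the superfactorial. -/

open Filter Topology

namespace Pool.Agent.H336R2.HD

noncomputable section

/-- primitive of `x log x - x` -/
def F6_F (x : ℝ) : ℝ := x ^ 2 / 2 * Real.log x - 3 / 4 * x ^ 2

lemma F6_log_fact (N : ℕ) (hN : 1 ≤ N) :
    (N : ℝ) * Real.log N - N ≤ Real.log (N.factorial : ℝ) := by
  have h := Real.pow_div_factorial_le_exp (N : ℝ) (by positivity) N
  have h1 : (0 : ℝ) < N.factorial := by exact_mod_cast N.factorial_pos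
  have hN0 : (0 : ℝ) < N := by exact_mod_cast hN
  rw [div_le_iff₀ h1] at h
  have h2 := Real.log_le_log (by positivity) h
  rw [Real.log_pow, Real.log_mul (Real.exp_pos _).ne' h1.ne', Real.log_exp] at h2
  linarith

lemma F6_mono {x b : ℝ} (hx : 1 ≤ x) (hb : x ≤ b) :
    x * Real.log x - x ≤ b * Real.log b - b := by
  have hx0 : 0 < x := by linarith
  have hb0 : 0 < b := by linarith
  have h1 : 1 - x / b ≤ Real.log (b / x) := by
    have h := Real.one_sub_inv_le_log_of_pos (show 0 < b / x by positivity)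
    rwa [inv_div] at h
  rw [Real.log_div hb0.ne' hx0.ne'] at h1
  have h2 : 1 - 1 / b ≤ Real.log b := by
    have h := Real.one_sub_inv_le_log_of_pos hb0
    rwa [← one_div] at h
  have h3 : x * (1 - x / b) ≤ x * (Real.log b - Real.log x) :=
    mul_le_mul_of_nonneg_left h1 hx0.le
  have h4 : (b - x) * (1 - 1 / b) ≤ (b - x) * Real.log b :=
    mul_le_mul_of_nonneg_left h2 (by linarith)
  have h5 : x * (1 - x / b) + (b - x) * (1 - 1 / b) - (b - x) = (b - x) * (x - 1) / b := by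
    field_simp
    ring
  have h6 : 0 ≤ (b - x) * (x - 1) / b :=
    div_nonneg (mul_nonneg (by linarith) (by linarith)) hb0.le
  linarith

lemma F6_deriv {x : ℝ} (hx : 0 < x) : HasDerivAt F6_F (x * Real.log x - x) x := by
  unfold F6_F
  have h1 : HasDerivAt (fun x : ℝ => x ^ 2 / 2) (2 * x / 2) x := by
    simpa using (hasDerivAt_pow 2 x).div_const 2
  have h2 := h1.mul (Real.hasDerivAt_log hx.ne')
  have h3 : HasDerivAt (fun x : ℝ => 3 / 4 * x ^ 2) (3 / 4 * (2 * x)) x := by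
    simpa using (hasDerivAt_pow 2 x).const_mul (3 / 4)
  have h4 := h2.sub h3
  have e : x ^ 2 / 2 * x⁻¹ = x / 2 := by
    field_simp
  rw [e] at h4
  have e2 : x * Real.log x - x = 2 * x / 2 * Real.log x + x / 2 - 3 / 4 * (2 * x) := by ring
  rw [e2]
  exact h4

lemma F6_mvt {a b : ℝ} (ha : 1 ≤ a) (hab : a ≤ b) :
    F6_F b - F6_F a ≤ (b - a) * (b * Real.log b - b) := by
  rcases hab.eq_or_lt with h | h
  · subst h
    simp
  · have hc : ContinuousOn F6_F (Set.Icc a b) := fun x hx =>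
      (F6_deriv (by linarith [hx.1])).continuousAt.continuousWithinAt
    obtain ⟨c, hc1, hc2⟩ := exists_hasDerivAt_eq_slope F6_F (fun x => x * Real.log x - x) h hc
      (fun x hx => F6_deriv (by linarith [hx.1]))
    have h1 := F6_mono (x := c) (b := b) (by linarith [hc1.1]) hc1.2.le
    rw [hc2, div_le_iff₀ (by linarith)] at h1
    linarith

lemma F6_sum (M : ℕ) :
    F6_F (2 * M + 1) - 5 / 4 ≤ 2 * ∑ i ∈ Finset.range (M + 2), Real.log ((2 * i - 1).factorial : ℝ) := by
  induction M with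
  | zero =>
    simp [Finset.sum_range_succ, F6_F]
    norm_num
  | succ M ih =>
    rw [Finset.sum_range_succ, mul_add]
    have h1 : 2 * (M + 2) - 1 = 2 * M + 3 := by omega
    rw [h1]
    have h2 := F6_log_fact (2 * M + 3) (by omega)
    have h3 := F6_mvt (a := 2 * M + 1) (b := 2 * M + 3) (by
      have : (0 : ℝ) ≤ M := Nat.cast_nonneg M
      linarith) (by linarith)
    push_cast at h2 ⊢
    have h4 : (2 * ((M : ℝ) + 1) + 1) = 2 * M + 3 := by ring
    rw [h4]
    have h5 : (2 * (M : ℝ) + 3 - (2 * M + 1)) = 2 := by ring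
    rw [h5] at h3
    linarith

theorem F6_superfac : ∀ ε : ℝ, 0 < ε → ∀ᶠ n : ℕ in atTop,
    72 * (n : ℝ) ^ 2 * Real.log n + (72 * Real.log 12 - 108 - ε) * (n : ℝ) ^ 2 ≤
      2 * ∑ i ∈ Finset.range (6 * n - 6), Real.log ((2 * i - 1).factorial : ℝ) := by
  intro ε hε
  -- `log (12 n) / n → 0`
  have hlog : Tendsto (fun x : ℝ => Real.log x / x) atTop (𝓝 0) := by
    have := Real.isLittleO_log_id_atTop.tendsto_div_nhds_zero
    simpa using this
  have h12 : Tendsto (fun n : ℕ => (12 * (n : ℝ))) atTop atTop :=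
    tendsto_natCast_atTop_atTop.const_mul_atTop (by norm_num)
  have hl2 := (hlog.comp h12).eventually (gt_mem_nhds (show (0 : ℝ) < ε / 4320 by positivity))
  have hl3 : ∀ᶠ n : ℕ in atTop, 5 / (2 * ε) < (n : ℝ) :=
    tendsto_natCast_atTop_atTop.eventually (eventually_gt_atTop _)
  filter_upwards [hl2, hl3, eventually_ge_atTop 3] with n h1 h2 hn
  have hn' : (3 : ℝ) ≤ n := by exact_mod_cast hn
  have hn0 : (0 : ℝ) < n := by linarith
  obtain ⟨M, hM⟩ : ∃ M, 6 * n - 6 = M + 2 := ⟨6 * n - 8, by omega⟩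
  have hMr : (M : ℝ) = 6 * n - 8 := by
    have h3 : M + 8 = 6 * n := by omega
    have h4 : ((M + 8 : ℕ) : ℝ) = ((6 * n : ℕ) : ℝ) := by rw [h3]
    push_cast at h4
    linarith
  have h3 := F6_sum M
  rw [← hM] at h3
  have h4 : (2 * (M : ℝ) + 1) = 12 * n - 15 := by
    rw [hMr]
    ring
  rw [h4] at h3
  have h5 := F6_mvt (a := 12 * (n : ℝ) - 15) (b := 12 * n) (by linarith) (by linarith)
  have h6 : (12 * (n : ℝ) - (12 * n - 15)) = 15 := by ring
  rw [h6] at h5
  have h7 : F6_F (12 * n) = 72 * (n : ℝ) ^ 2 * Real.log n + (72 * Real.log 12 - 108) * (n : ℝ) ^ 2 := by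
    unfold F6_F
    rw [Real.log_mul (by norm_num) hn0.ne']
    ring
  have h8 : Real.log (12 * n) < ε / 4320 * (12 * n) := by
    have h9 : Real.log (12 * (n : ℝ)) / (12 * n) < ε / 4320 := h1
    rwa [div_lt_iff₀ (by positivity)] at h9
  have h10 : (12 * (n : ℝ)) * Real.log (12 * n) ≤ (12 * (n : ℝ)) * (ε / 4320 * (12 * n)) :=
    mul_le_mul_of_nonneg_left h8.le (by positivity)
  have h11 : 5 / 4 ≤ ε / 2 * (n : ℝ) ^ 2 := by
    rw [div_lt_iff₀ (by positivity)] at h2
    nlinarith [mul_pos hε hn0]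
  nlinarith [h3, h5, h7, h10, h11]

end

end Pool.Agent.H336R2.HD
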