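import Pool.Agent.H336R2.HD.Defs
import Pool.Agent.H337R2.Cx4
import Pool.Agent.H337R2.PBd

/-! The archimedean part: blocks, and comparison of `R` on the line with the product over all
half integers. -/

open Polynomial Pool.Agent.H337R2

namespace Pool.Agent.H336R2.HD

noncomputable section

lemma G1a_pair (u u' c Y : ℝ) (hu : 0 < u) (hu' : 0 < u') (hc : u + u' = 2 * c) (hY : 0 ≤ Y) :
    (1 + Y / c ^ 2) ^ 2 ≤ (1 + Y / u ^ 2) * (1 + Y / u' ^ 2) := by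
  have hc0 : 0 < c := by linarith
  have h1 : u * u' ≤ c ^ 2 := by
    have : c = (u + u') / 2 := by linarith
    rw [this]
    nlinarith [sq_nonneg (u - u')]
  have h2 : 0 < u * u' := mul_pos hu hu'
  have h3 : Y / c ^ 2 ≤ Y / (u * u') := div_le_div_of_nonneg_left hY h2 h1
  have h4 : 0 ≤ Y / c ^ 2 := by positivity
  calc (1 + Y / c ^ 2) ^ 2 ≤ (1 + Y / (u * u')) ^ 2 := by
        apply pow_le_pow_left₀ (by linarith)
        linarith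
    _ ≤ (1 + Y / u ^ 2) * (1 + Y / u' ^ 2) := by
        have e : (1 + Y / u ^ 2) * (1 + Y / u' ^ 2) - (1 + Y / (u * u')) ^ 2
            = Y * ((u - u') / (u * u')) ^ 2 := by
          field_simp
          ring
        have : 0 ≤ Y * ((u - u') / (u * u')) ^ 2 := by positivity
        linarith

theorem G1_block (A L : ℕ) (Y : ℝ) (hY : 0 ≤ Y) (hL : 1 ≤ L) :
    (1 + Y / ((A : ℝ) + L / 2) ^ 2) ^ L ≤ ∏ m ∈ Finset.Ioc A (A + L), (1 + Y / ((m : ℝ) - 1 / 2) ^ 2) := by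
  have hL1 : (1 : ℝ) ≤ L := by exact_mod_cast hL
  have hrefl : ∏ m ∈ Finset.Ioc A (A + L), (1 + Y / (((2 * A + L + 1 - m : ℕ) : ℝ) - 1 / 2) ^ 2)
      = ∏ m ∈ Finset.Ioc A (A + L), (1 + Y / ((m : ℝ) - 1 / 2) ^ 2) := by
    refine Finset.prod_nbij' (fun m => 2 * A + L + 1 - m) (fun m => 2 * A + L + 1 - m) ?_ ?_ ?_ ?_ ?_
    · intro m hm; rw [Finset.mem_Ioc] at *; omega
    · intro m hm; rw [Finset.mem_Ioc] at *; omega
    · intro m hm; rw [Finset.mem_Ioc] at hm; omega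
    · intro m hm; rw [Finset.mem_Ioc] at hm; omega
    · intro m _; rfl
  have h1 : ((1 + Y / ((A : ℝ) + L / 2) ^ 2) ^ L) ^ 2
      ≤ (∏ m ∈ Finset.Ioc A (A + L), (1 + Y / ((m : ℝ) - 1 / 2) ^ 2)) ^ 2 := by
    rw [sq (∏ m ∈ Finset.Ioc A (A + L), (1 + Y / ((m : ℝ) - 1 / 2) ^ 2))]
    nth_rewrite 2 [← hrefl]
    rw [← Finset.prod_mul_distrib, ← pow_mul, mul_comm L 2, pow_mul]
    have hcard : (Finset.Ioc A (A + L)).card = L := by rw [Nat.card_Ioc]; omega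
    calc ((1 + Y / ((A : ℝ) + L / 2) ^ 2) ^ 2) ^ L
        = ∏ _m ∈ Finset.Ioc A (A + L), (1 + Y / ((A : ℝ) + L / 2) ^ 2) ^ 2 := by
          rw [Finset.prod_const, hcard]
      _ ≤ _ := by
          refine Finset.prod_le_prod (fun m _ => by positivity) fun m hm => ?_
          rw [Finset.mem_Ioc] at hm
          have h2 : ((2 * A + L + 1 - m : ℕ) : ℝ) = 2 * A + L + 1 - m := by
            rw [Nat.cast_sub (by omega)]
            push_cast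
            ring
          have h3 : (A : ℝ) + 1 ≤ m := by exact_mod_cast hm.1
          have h4 : (m : ℝ) ≤ A + L := by exact_mod_cast hm.2
          have h5 : (0 : ℝ) ≤ A := Nat.cast_nonneg A
          rw [h2]
          exact G1a_pair _ _ _ Y (by linarith) (by linarith) (by ring) hY
  exact le_of_pow_le_pow_left₀ two_ne_zero
    (Finset.prod_nonneg fun m _ => by positivity) h1

/-- the weights -/
def G1a_w (y : ℝ) (m : ℕ) : ℝ := 1 + y ^ 2 / ((m : ℝ) - 1 / 2) ^ 2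

lemma G1a_w_pos (y : ℝ) (m : ℕ) : 0 < G1a_w y m := by unfold G1a_w; positivity

lemma G1a_norm (y : ℝ) (m : ℕ) : ‖zl y + m‖ ^ 2 = ‖zl 0 + m‖ ^ 2 * G1a_w y m := by
  have hm := half_ne m
  rw [zl_add, zl_add, norm_lf, norm_lf, Real.sq_sqrt (by positivity), Real.sq_sqrt (by positivity)]
  unfold G1a_w
  have h2 : ((m : ℝ) - 1 / 2) ^ 2 ≠ 0 := pow_ne_zero 2 hm
  rw [zero_pow two_ne_zero, add_zero, mul_add, mul_one, mul_div_cancel₀ _ h2]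

lemma G1a_norm2 (y : ℝ) {n : ℕ} (hn : 1 ≤ n) :
    ‖2 * zl y + ((12 * n : ℕ) : ℂ)‖ ^ 2 ≤ ‖2 * zl 0 + ((12 * n : ℕ) : ℂ)‖ ^ 2 * (1 + y ^ 2) := by
  have h1 : ∀ y : ℝ, 2 * zl y + ((12 * n : ℕ) : ℂ) = ((12 * n - 1 : ℝ) : ℂ) + ((2 * y : ℝ) : ℂ) * Complex.I := by
    intro y
    unfold zl
    push_cast
    ring
  rw [h1, h1, norm_lf, norm_lf, Real.sq_sqrt (by positivity), Real.sq_sqrt (by positivity)]
  have hn' : (1 : ℝ) ≤ n := by exact_mod_cast hn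
  have h2 : (4 : ℝ) ≤ (12 * (n : ℝ) - 1) ^ 2 := by nlinarith
  nlinarith [sq_nonneg y, mul_le_mul_of_nonneg_right h2 (sq_nonneg y)]

lemma G1a_prod (y : ℝ) (s : Finset ℕ) (b : ℕ) :
    (∏ m ∈ s, ‖zl y + m‖ ^ b) ^ 2 = (∏ m ∈ s, ‖zl 0 + m‖ ^ b) ^ 2 * (∏ m ∈ s, G1a_w y m) ^ b := by
  rw [← Finset.prod_pow, ← Finset.prod_pow, ← Finset.prod_pow, ← Finset.prod_mul_distrib]
  refine Finset.prod_congr rfl fun m _ => ?_
  rw [← pow_mul, mul_comm b 2, pow_mul, G1a_norm, mul_pow, ← pow_mul, ← pow_mul, mul_comm b 2]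

lemma G1a_PP (y : ℝ) {n : ℕ} (hn : 1 ≤ n) :
    ‖aeval (zl y) (PPn n)‖ = |(cstN n : ℝ)| * ‖2 * zl y + ((12 * n : ℕ) : ℂ)‖ *
      ((∏ m ∈ Finset.Ioc 0 (2 * n), ‖zl y + m‖ ^ 3) *
        (∏ m ∈ Finset.Ioc (10 * n - 1) (12 * n - 1), ‖zl y + m‖ ^ 3)) := by
  have e1 : Finset.Icc 1 (2 * n) = Finset.Ioc 0 (2 * n) := by
    ext m; rw [Finset.mem_Icc, Finset.mem_Ioc]; omega
  have e2 : Finset.Icc (12 * n - 2 * n) (12 * n - 1) = Finset.Ioc (10 * n - 1) (12 * n - 1) := by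
    ext m; rw [Finset.mem_Icc, Finset.mem_Ioc]; omega
  have h1 : PPn n = C (cstN n) * (2 * X + C (12 * n : ℚ)) * NN 3 12 2 n := rfl
  rw [h1, NN_eq 3 12 2 n (by norm_num) (by omega), e1, e2]
  simp only [map_mul, map_prod, map_pow, map_add, aeval_X, aeval_C, norm_mul, norm_prod, norm_pow,
    eq_ratCast, Rat.cast_natCast, map_natCast, map_ofNat, Complex.norm_ratCast]
  push_cast
  rfl

lemma G1a_QQ (y : ℝ) {n : ℕ} (hn : 1 ≤ n) :
    ‖aeval (zl y) (QQ (sN n) (muN n))‖ = ∏ m ∈ Finset.Ioc (3 * n - 1) (9 * n), ‖zl y + m‖ ^ 6 := by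
  unfold QQ
  simp only [map_prod, map_pow, map_add, aeval_X, aeval_C, norm_prod, norm_pow,
    map_natCast]
  have h1 := prod_mu 12 2 n ds6 hn (by intro d hd; simp [ds6] at hd; omega)
    (by intro d hd; simp [ds6] at hd; omega) (fun m => ‖zl y + (m : ℂ)‖)
  have e1 : Finset.Icc (3 * n) (12 * n - 3 * n) = Finset.Ioc (3 * n - 1) (9 * n) := by
    ext m; rw [Finset.mem_Icc, Finset.mem_Ioc]; omega
  refine h1.trans ?_
  simp only [ds6, List.map_cons, List.map_nil, List.prod_cons, List.prod_nil, e1]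
  rw [Finset.prod_pow]
  ring

lemma G1a_HM (y : ℝ) (M : ℕ) : HM y M = ∏ m ∈ Finset.Ioc 0 M, G1a_w y m := by
  unfold HM
  refine Finset.prod_nbij' (fun m => m + 1) (fun m => m - 1) ?_ ?_ ?_ ?_ ?_
  · intro m hm; rw [Finset.mem_range] at hm; rw [Finset.mem_Ioc]; omega
  · intro m hm; rw [Finset.mem_Ioc] at hm; rw [Finset.mem_range]; omega
  · intro m hm; simp
  · intro m hm; rw [Finset.mem_Ioc] at hm; omega
  · intro m _
    unfold G1a_w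
    push_cast
    have : ((m : ℝ) + 1 - 1 / 2) = m + 1 / 2 := by ring
    rw [this]

/-- comparison of `R` on the line with the product over all half integers -/
theorem G1_ratio {n : ℕ} (hn : 1 ≤ n) (y : ℝ) (M : ℕ) (hM : 12 * n ≤ M) :
    (‖Rn n y‖ * Real.exp (-(2 * Real.pi * |y|))) ^ 2 *
      ((∏ m ∈ Finset.Ioc 0 (2 * n), (1 + y ^ 2 / ((m : ℝ) - 1 / 2) ^ 2)) *
       (∏ m ∈ Finset.Ioc (2 * n) (3 * n - 1), (1 + y ^ 2 / ((m : ℝ) - 1 / 2) ^ 2) ^ 4) *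
       (∏ m ∈ Finset.Ioc (3 * n - 1) (9 * n), (1 + y ^ 2 / ((m : ℝ) - 1 / 2) ^ 2) ^ 10) *
       (∏ m ∈ Finset.Ioc (9 * n) (10 * n - 1), (1 + y ^ 2 / ((m : ℝ) - 1 / 2) ^ 2) ^ 4) *
       (∏ m ∈ Finset.Ioc (10 * n - 1) (12 * n - 1), (1 + y ^ 2 / ((m : ℝ) - 1 / 2) ^ 2)) *
       (∏ m ∈ Finset.Ioc (12 * n - 1) M, (1 + y ^ 2 / ((m : ℝ) - 1 / 2) ^ 2) ^ 4)) ≤
    ‖Rn n 0‖ ^ 2 * (1 + y ^ 2) := by
  have hw : ∀ m : ℕ, 1 + y ^ 2 / ((m : ℝ) - 1 / 2) ^ 2 = G1a_w y m := fun m => rfl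
  simp only [hw, Finset.prod_pow]
  set W1 := ∏ m ∈ Finset.Ioc 0 (2 * n), G1a_w y m with hW1
  set W2 := ∏ m ∈ Finset.Ioc (2 * n) (3 * n - 1), G1a_w y m with hW2
  set W3 := ∏ m ∈ Finset.Ioc (3 * n - 1) (9 * n), G1a_w y m with hW3
  set W4 := ∏ m ∈ Finset.Ioc (9 * n) (10 * n - 1), G1a_w y m with hW4
  set W5 := ∏ m ∈ Finset.Ioc (10 * n - 1) (12 * n - 1), G1a_w y m with hW5
  set W6 := ∏ m ∈ Finset.Ioc (12 * n - 1) M, G1a_w y m with hW6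
  have hpos : ∀ s : Finset ℕ, 0 < ∏ m ∈ s, G1a_w y m := fun s =>
    Finset.prod_pos fun m _ => G1a_w_pos y m
  have hHM : HM y M = W1 * W2 * W3 * W4 * W5 * W6 := by
    rw [G1a_HM, hW1, hW2, hW3, hW4, hW5, hW6,
      Finset.prod_Ioc_consecutive _ (by omega) (by omega),
      Finset.prod_Ioc_consecutive _ (by omega) (by omega),
      Finset.prod_Ioc_consecutive _ (by omega) (by omega),
      Finset.prod_Ioc_consecutive _ (by omega) (by omega),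
      Finset.prod_Ioc_consecutive _ (by omega) (by omega)]
  have hW3p : 0 < W3 := hpos _
  have hW1p : 0 < W1 := hpos _
  have hW5p : 0 < W5 := hpos _
  have hW2p : 0 < W2 := hpos _
  have hW4p : 0 < W4 := hpos _
  have hW6p : 0 < W6 := hpos _
  have hE : Real.exp (-(2 * Real.pi * |y|)) ^ 2 * (W1 * W2 * W3 * W4 * W5 * W6) ^ 4 ≤ 1 := by
    have h1 := HM_le y M
    rw [hHM] at h1
    have h2 : 0 ≤ W1 * W2 * W3 * W4 * W5 * W6 := by positivity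
    have h3 : (W1 * W2 * W3 * W4 * W5 * W6) ^ 4 ≤ Real.exp (Real.pi * |y|) ^ 4 :=
      pow_le_pow_left₀ h2 h1 4
    calc Real.exp (-(2 * Real.pi * |y|)) ^ 2 * (W1 * W2 * W3 * W4 * W5 * W6) ^ 4
        ≤ Real.exp (-(2 * Real.pi * |y|)) ^ 2 * Real.exp (Real.pi * |y|) ^ 4 :=
          mul_le_mul_of_nonneg_left h3 (by positivity)
      _ = 1 := by
          rw [← Real.exp_nat_mul, ← Real.exp_nat_mul, ← Real.exp_add]
          have : ((2 : ℕ) : ℝ) * -(2 * Real.pi * |y|) + ((4 : ℕ) : ℝ) * (Real.pi * |y|) = 0 := by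
            push_cast; ring
          rw [this, Real.exp_zero]
  -- the ratio
  set c := |(cstN n : ℝ)| with hc
  set a := ‖2 * zl 0 + ((12 * n : ℕ) : ℂ)‖ with ha
  set P1 := ∏ m ∈ Finset.Ioc 0 (2 * n), ‖zl 0 + m‖ ^ 3 with hP1
  set P5 := ∏ m ∈ Finset.Ioc (10 * n - 1) (12 * n - 1), ‖zl 0 + m‖ ^ 3 with hP5
  set P3 := ∏ m ∈ Finset.Ioc (3 * n - 1) (9 * n), ‖zl 0 + m‖ ^ 6 with hP3
  have hP3pos : 0 < P3 := Finset.prod_pos fun m _ => by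
    have := norm_pos_iff.2 (zl_ne 0 m)
    positivity
  have hR0 : ‖Rn n 0‖ ^ 2 = (c * a * (P1 * P5)) ^ 2 / P3 ^ 2 := by
    unfold Rn
    rw [norm_div, G1a_PP 0 hn, G1a_QQ 0 hn, div_pow]
  have hRy : ‖Rn n y‖ ^ 2 ≤ (c * a * (P1 * P5)) ^ 2 / P3 ^ 2 * (1 + y ^ 2) * (W1 ^ 3 * W5 ^ 3 / W3 ^ 6) := by
    unfold Rn
    rw [norm_div, G1a_PP y hn, G1a_QQ y hn, div_pow, G1a_prod y _ 6, ← hP3, ← hW3, mul_pow, mul_pow,
      mul_pow, G1a_prod y (Finset.Ioc 0 (2 * n)) 3, G1a_prod y (Finset.Ioc (10 * n - 1) (12 * n - 1)) 3,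
      ← hP1, ← hP5, ← hW1, ← hW5]
    have h1 := G1a_norm2 y hn
    have e : (c * a * (P1 * P5)) ^ 2 / P3 ^ 2 * (1 + y ^ 2) * (W1 ^ 3 * W5 ^ 3 / W3 ^ 6)
        = c ^ 2 * (a ^ 2 * (1 + y ^ 2)) * (P1 ^ 2 * W1 ^ 3 * (P5 ^ 2 * W5 ^ 3)) / (P3 ^ 2 * W3 ^ 6) := by
      field_simp
    rw [e]
    refine div_le_div_of_nonneg_right ?_ (by positivity)
    refine mul_le_mul_of_nonneg_right ?_ (by positivity)
    exact mul_le_mul_of_nonneg_left h1 (by positivity)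
  rw [mul_pow, hR0]
  calc ‖Rn n y‖ ^ 2 * Real.exp (-(2 * Real.pi * |y|)) ^ 2 *
        (W1 * W2 ^ 4 * W3 ^ 10 * W4 ^ 4 * W5 * W6 ^ 4)
      ≤ ((c * a * (P1 * P5)) ^ 2 / P3 ^ 2 * (1 + y ^ 2) * (W1 ^ 3 * W5 ^ 3 / W3 ^ 6)) *
        Real.exp (-(2 * Real.pi * |y|)) ^ 2 * (W1 * W2 ^ 4 * W3 ^ 10 * W4 ^ 4 * W5 * W6 ^ 4) := by
        refine mul_le_mul_of_nonneg_right ?_ (by positivity)
        exact mul_le_mul_of_nonneg_right hRy (by positivity)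
    _ = (c * a * (P1 * P5)) ^ 2 / P3 ^ 2 * (1 + y ^ 2) *
        (Real.exp (-(2 * Real.pi * |y|)) ^ 2 * (W1 * W2 * W3 * W4 * W5 * W6) ^ 4) := by
        field_simp
    _ ≤ (c * a * (P1 * P5)) ^ 2 / P3 ^ 2 * (1 + y ^ 2) * 1 := by
        refine mul_le_mul_of_nonneg_left hE (by positivity)
    _ = _ := by ring

end

end Pool.Agent.H336R2.HD
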