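import Pool.Agent.H336R2.HD.Defs

/-!
# `G2`: the quadratic factors on the line
-/

open Polynomial Pool.Agent.H337R2

namespace Pool.Agent.H336R2.HD

noncomputable section

namespace G2

lemma g1_bd (b : ℕ) : (0 : ℚ) ≤ g1 b ∧ g1 b ≤ 599 / 100 := by
  unfold g1
  split <;> norm_num

lemma factor_norm (s e c : ℝ) :
    ‖((s : ℂ) + (e : ℂ) * Complex.I) ^ 2 + (c : ℂ) ^ 2‖ ^ 2 =
      (e ^ 2 + s ^ 2 + c ^ 2) ^ 2 - 4 * c ^ 2 * e ^ 2 := by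
  have h : ((s : ℂ) + (e : ℂ) * Complex.I) ^ 2 + (c : ℂ) ^ 2 =
      ((s ^ 2 - e ^ 2 + c ^ 2 : ℝ) : ℂ) + ((2 * s * e : ℝ) : ℂ) * Complex.I := by
    push_cast
    ring_nf
    rw [Complex.I_sq]
    ring
  rw [h, Complex.sq_norm, Complex.normSq_add_mul_I]
  ring

lemma factor_mono (v c A A' : ℝ) (hv : 0 ≤ v) (hA : 0 ≤ A) (hAA : A ≤ A') :
    (v + A + c ^ 2) ^ 2 - 4 * c ^ 2 * v ≤ (v + A' + c ^ 2) ^ 2 - 4 * c ^ 2 * v := by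
  have h1 : 0 ≤ v + A + c ^ 2 := by positivity
  have h2 : v + A + c ^ 2 ≤ v + A' + c ^ 2 := by linarith
  have := pow_le_pow_left₀ h1 h2 2
  linarith

lemma qb_eq (n : ℕ) (hn : (n : ℂ) ≠ 0) (y : ℝ) (a c : ℚ) :
    aeval (xz n y) (qb n a c) = (n : ℂ) ^ 4 *
      (((((6 - 1 / (2 * n) - (a : ℝ) : ℝ)) : ℂ) + ((y / n : ℝ) : ℂ) * Complex.I) ^ 2 + ((c : ℝ) : ℂ) ^ 2) *
      (((((6 - 1 / (2 * n) + (a : ℝ) : ℝ)) : ℂ) + ((y / n : ℝ) : ℂ) * Complex.I) ^ 2 + ((c : ℝ) : ℂ) ^ 2) := by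
  have e0 : ∀ q : ℚ, (algebraMap ℚ ℂ) q = ((q : ℝ) : ℂ) := by
    intro q
    simp
  unfold qb
  simp only [map_add, map_sub, map_mul, map_pow, aeval_X, aeval_C]
  have e1 : xz n y + (36 : ℂ) * (n : ℂ) ^ 2 =
      ((n : ℂ) * ((((6 - 1 / (2 * n) : ℝ)) : ℂ) + ((y / n : ℝ) : ℂ) * Complex.I)) ^ 2 := by
    unfold xz zl
    push_cast
    field_simp
    ring
  have e2 : xz n y + (algebraMap ℚ ℂ) 36 * (algebraMap ℚ ℂ) (n : ℚ) ^ 2 =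
      ((n : ℂ) * ((((6 - 1 / (2 * n) : ℝ)) : ℂ) + ((y / n : ℝ) : ℂ) * Complex.I)) ^ 2 := by
    rw [← e1]
    simp
  rw [e2]
  simp only [e0]
  push_cast
  ring

end G2

theorem G2_qb {n : ℕ} (hn : 100 ≤ n) (y : ℝ) (b : ℕ) :
    ‖aeval (xz n y) (qb n (g1 b) (g2 b))‖ ^ 2 ≤ (n : ℝ) ^ 8 * Gb (g1 b) (g2 b) ((y / n) ^ 2) := by
  obtain ⟨ha0, ha1⟩ := G2.g1_bd b
  have hn0 : (0 : ℝ) < n := by
    have : (100 : ℝ) ≤ n := by exact_mod_cast hn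
    linarith
  have hnc : (n : ℂ) ≠ 0 := by exact_mod_cast hn0.ne'
  rw [G2.qb_eq n hnc y (g1 b) (g2 b)]
  rw [norm_mul, norm_mul, mul_pow, mul_pow, G2.factor_norm, G2.factor_norm, norm_pow, Complex.norm_natCast,
    ← pow_mul]
  unfold Gb
  have hA0 : (0 : ℝ) ≤ ((g1 b : ℚ) : ℝ) := by exact_mod_cast ha0
  have hA1 : ((g1 b : ℚ) : ℝ) ≤ 599 / 100 := by
    have : ((g1 b : ℚ) : ℝ) ≤ ((599 / 100 : ℚ) : ℝ) := by exact_mod_cast ha1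
    refine this.trans (le_of_eq ?_)
    norm_num
  set a : ℝ := ((g1 b : ℚ) : ℝ) with ha
  set c : ℝ := ((g2 b : ℚ) : ℝ) with hc
  set v : ℝ := (y / n) ^ 2 with hv
  have hv0 : 0 ≤ v := sq_nonneg _
  have ht0 : 0 < 1 / (2 * (n : ℝ)) := by positivity
  have ht1 : 1 / (2 * (n : ℝ)) ≤ 1 / 200 := by
    apply one_div_le_one_div_of_le (by norm_num)
    have : (100 : ℝ) ≤ n := by exact_mod_cast hn
    linarith
  set t : ℝ := 6 - 1 / (2 * (n : ℝ)) with ht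
  have h1 : (t - a) ^ 2 ≤ (6 - a) ^ 2 := by
    apply pow_le_pow_left₀ _ _ 2
    · rw [ht]; linarith
    · rw [ht]; linarith
  have h2 : (t + a) ^ 2 ≤ (6 + a) ^ 2 := by
    apply pow_le_pow_left₀ _ _ 2
    · rw [ht]; linarith
    · rw [ht]; linarith
  have k1 := G2.factor_mono v c _ _ hv0 (sq_nonneg (t - a)) h1
  have k2 := G2.factor_mono v c _ _ hv0 (sq_nonneg (t + a)) h2
  have p1 : 0 ≤ (v + (t - a) ^ 2 + c ^ 2) ^ 2 - 4 * c ^ 2 * v := by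
    rw [hv, ← G2.factor_norm]; positivity
  have p2 : 0 ≤ (v + (t + a) ^ 2 + c ^ 2) ^ 2 - 4 * c ^ 2 * v := by
    rw [hv, ← G2.factor_norm]; positivity
  have k3 := mul_le_mul k1 k2 p2 (p1.trans k1)
  calc _ = (n : ℝ) ^ 8 * (((v + (t - a) ^ 2 + c ^ 2) ^ 2 - 4 * c ^ 2 * v) *
        ((v + (t + a) ^ 2 + c ^ 2) ^ 2 - 4 * c ^ 2 * v)) := by ring
    _ ≤ _ := mul_le_mul_of_nonneg_left k3 (by positivity)

end

end Pool.Agent.H336R2.HD
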