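import Pool.Agent.H336R2.HD.Defs
import Pool.Agent.H336R2.HD.C1

/-! Task H3 (helper467): the diagonal blocks; `H1_hs` and `H2_pa` enter as hypotheses. -/

open Polynomial Pool.Agent.H337R2

namespace Pool.Agent.H336R2.HD.H3

noncomputable section

variable {p : ℕ} [hp : Fact p.Prime]

/-! ### the exponent `ee` -/

theorem ee_zero (k : ℕ) (hk : ¬ (p : ℤ) ∣ (k : ℤ)) : eeN p p k = 0 := by
  have hp0 : 0 < p := hp.out.pos
  have hpz : (p : ℤ) ≠ 0 := by exact_mod_cast hp0.ne'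
  have hpz' : (0 : ℤ) < p := by exact_mod_cast hp0
  have e1 : (n1 p 12 2 p k : ℤ) = 4 := by
    rw [n1_eq p 12 2 p k hp0 (by norm_num) (by omega)]
    push_cast
    rw [show (2 : ℤ) * p - k = -(k : ℤ) + 2 * p by ring,
      show (12 : ℤ) * p - 1 - k = (-1 - k) + 12 * p by ring,
      show (12 : ℤ) * p - 2 * p - 1 - k = (-1 - k) + 10 * p by ring,
      Int.add_mul_ediv_right _ _ hpz, Int.add_mul_ediv_right _ _ hpz,
      Int.add_mul_ediv_right _ _ hpz]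
    ring
  have e2 : (cnt p (3 * p) (12 * p - 3 * p) k : ℤ) = 6 := by
    rw [cnt_brick p 12 3 p k hp0 (by norm_num)]
    push_cast
    rw [show (12 : ℤ) * p - 3 * p - k = -(k : ℤ) + 9 * p by ring,
      show (3 : ℤ) * p - 1 - k = (-1 - k) + 3 * p by ring,
      Int.add_mul_ediv_right _ _ hpz, Int.add_mul_ediv_right _ _ hpz]
    have h1 := succ_ediv' (p : ℤ) hpz' (-1 - (k : ℤ))
    rw [show (-1 - (k : ℤ) + 1) = -(k : ℤ) by ring, if_neg (by rwa [dvd_neg])] at h1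
    rw [h1]
    ring
  have e3 : cnt p (3 * p) (12 * p - 3 * p) k = 6 := by exact_mod_cast e2
  have e4 : nq p 12 p ds6 k = 36 := by
    unfold nq
    simp [e3]
  have e5 : 2 * p / p = 2 := Nat.mul_div_cancel _ hp0
  have e6 : 6 * p / p = 6 := Nat.mul_div_cancel _ hp0
  unfold eeN ee
  rw [e1, e4, e5]
  simp [e6]

theorem ee_ge6 (k : ℕ) : -6 ≤ eeN p p k := by
  have := ee_ge p 3 12 2 p k ds6 hp.out.pos (by norm_num) (by have := hp.out.pos; omega)
    (by simp)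
  simpa using this

/-! ### the numerator -/

theorem XN_comp (n r : ℕ) : (XN n r).comp (xp n) = (X + C (r : ℚ)) * (X + C (12 * (n : ℚ) - r)) := by
  unfold XN xp
  rw [Polynomial.add_comp, Polynomial.X_comp, Polynomial.C_comp, Nat.cast_mul, map_mul C (r : ℚ),
    map_sub, Nat.cast_ofNat]
  ring

theorem xp_eq (n : ℕ) : xp n = (X + C (0 : ℚ)) * (X + C (12 * (n : ℚ))) := by
  unfold xp
  push_cast
  simp

/-- the polynomial -/
def Qr (p r e : ℕ) : ℚ[X] := XN p r ^ e * ∏ r' ∈ (Finset.Icc 1 ((p - 1) / 2)).erase r, XN p r' ^ 24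

omit hp in
theorem EE_Qr (r e : ℕ) : EE p (Qr p r e) = xp p ^ 15 * ((XN p r).comp (xp p) ^ e *
    ∏ r' ∈ (Finset.Icc 1 ((p - 1) / 2)).erase r, (XN p r').comp (xp p) ^ 24) := by
  unfold EE Qr
  simp only [Polynomial.mul_comp, Polynomial.pow_comp, Polynomial.prod_comp, Polynomial.X_comp]

theorem inv0 : (0 : ℚ) ≤ (p : ℚ)⁻¹ := inv_nonneg.2 p_pos'.le

theorem PB_lin1 (a : ℤ) (k : ℕ) : PB p (p : ℚ) 1 (TS (-(k : ℚ)) (X + C (a : ℚ))) := by
  rw [TS_lin]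
  apply PB.linX p_pos'.le zero_le_one
  · have := padicNorm.of_int (p := p) (-(k : ℤ) + a)
    push_cast at this
    exact this
  · rw [one_mul]; exact p_one'

theorem PB_linp (a : ℤ) (k : ℕ) (h : (p : ℤ) ∣ a - k) :
    PB p (p : ℚ) (p : ℚ)⁻¹ (TS (-(k : ℚ)) (X + C (a : ℚ))) := by
  rw [TS_lin]
  apply PB.linX p_pos'.le inv0
  · have := norm_le_ite (p := p) (a - k)
    rw [if_pos h] at this
    rw [show -(k : ℚ) + a = ((a - k : ℤ) : ℚ) by push_cast; ring]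
    exact this
  · rw [inv_mul_cancel₀ p_pos'.ne']

theorem PB_XN (r k : ℕ) : PB p (p : ℚ) 1 (TS (-(k : ℚ)) ((XN p r).comp (xp p))) := by
  rw [XN_comp, map_mul]
  have h1 := PB_lin1 (p := p) (r : ℤ) k
  have h2 := PB_lin1 (p := p) (12 * (p : ℤ) - r) k
  push_cast at h1 h2
  have h3 := PB.mul p_pos'.le zero_le_one zero_le_one h1 h2
  rwa [one_mul] at h3

theorem PB_XNp (r k : ℕ) (h : (p : ℤ) ∣ (k : ℤ) - r ∨ (p : ℤ) ∣ (k : ℤ) + r) :
    PB p (p : ℚ) (p : ℚ)⁻¹ (TS (-(k : ℚ)) ((XN p r).comp (xp p))) := by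
  rw [XN_comp, map_mul]
  rcases h with h | h
  · have h1 := PB_linp (p := p) (r : ℤ) k (by
      rw [show (r : ℤ) - k = -((k : ℤ) - r) by ring, dvd_neg]; exact h)
    have h2 := PB_lin1 (p := p) (12 * (p : ℤ) - r) k
    push_cast at h1 h2
    have h3 := PB.mul p_pos'.le inv0 zero_le_one h1 h2
    rwa [mul_one] at h3
  · have h1 := PB_lin1 (p := p) (r : ℤ) k
    have h2 := PB_linp (p := p) (12 * (p : ℤ) - r) k (by
      rw [show 12 * (p : ℤ) - r - k = (p : ℤ) * 12 - ((k : ℤ) + r) by ring]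
      exact dvd_sub (dvd_mul_right _ _) h)
    push_cast at h1 h2
    have h3 := PB.mul p_pos'.le zero_le_one inv0 h1 h2
    rwa [one_mul] at h3

theorem PB_xp (k : ℕ) : PB p (p : ℚ) 1 (TS (-(k : ℚ)) (xp p)) := by
  rw [xp_eq, map_mul]
  have h1 := PB_lin1 (p := p) 0 k
  have h2 := PB_lin1 (p := p) (12 * (p : ℤ)) k
  push_cast at h1 h2
  have h3 := PB.mul p_pos'.le zero_le_one zero_le_one h1 h2
  rwa [one_mul] at h3

theorem PB_xpp (k : ℕ) (h : (p : ℤ) ∣ (k : ℤ)) :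
    PB p (p : ℚ) ((p : ℚ)⁻¹ * (p : ℚ)⁻¹) (TS (-(k : ℚ)) (xp p)) := by
  rw [xp_eq, map_mul]
  have h1 := PB_linp (p := p) 0 k (by rw [zero_sub, dvd_neg]; exact h)
  have h2 := PB_linp (p := p) (12 * (p : ℤ)) k (dvd_sub (dvd_mul_left _ _) h)
  push_cast at h1 h2
  exact PB.mul p_pos'.le inv0 inv0 h1 h2

/-- all factors of `EE` with individual bounds -/
theorem PB_EE (r e k : ℕ) (a0 ar : ℚ) (a : ℕ → ℚ) (h0 : 0 ≤ a0) (hr : 0 ≤ ar) (ha : ∀ r', 0 ≤ a r')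
    (b0 : PB p (p : ℚ) a0 (TS (-(k : ℚ)) (xp p)))
    (br : PB p (p : ℚ) ar (TS (-(k : ℚ)) ((XN p r).comp (xp p))))
    (b : ∀ r' ∈ (Finset.Icc 1 ((p - 1) / 2)).erase r,
      PB p (p : ℚ) (a r') (TS (-(k : ℚ)) ((XN p r').comp (xp p)))) :
    PB p (p : ℚ) (a0 ^ 15 * (ar ^ e * ∏ r' ∈ (Finset.Icc 1 ((p - 1) / 2)).erase r, a r' ^ 24))
      (TS (-(k : ℚ)) (EE p (Qr p r e))) := by
  rw [EE_Qr, map_mul, map_mul, map_pow, map_pow, map_prod]
  simp only [map_pow]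
  have h1 := PB.prod (p := p) ((Finset.Icc 1 ((p - 1) / 2)).erase r) (fun r' => a r' ^ 24)
    (fun r' => (TS (-(k : ℚ)) ((XN p r').comp (xp p))) ^ 24) p_pos'.le
    (fun r' _ => pow_nonneg (ha r') _) (fun r' hr' => PB.pow p_pos'.le (ha r') (b r' hr') 24)
  exact PB.mul p_pos'.le (pow_nonneg h0 _) (mul_nonneg (pow_nonneg hr _)
    (Finset.prod_nonneg fun r' _ => pow_nonneg (ha r') _)) (PB.pow p_pos'.le h0 b0 15)
    (PB.mul p_pos'.le (pow_nonneg hr _) (Finset.prod_nonneg fun r' _ => pow_nonneg (ha r') _)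
      (PB.pow p_pos'.le hr br e) h1)

theorem PB_near (r e k : ℕ) (h : (p : ℤ) ∣ (k : ℤ) - r ∨ (p : ℤ) ∣ (k : ℤ) + r) :
    PB p (p : ℚ) ((p : ℚ)⁻¹ ^ e) (TS (-(k : ℚ)) (EE p (Qr p r e))) := by
  have := PB_EE (p := p) r e k 1 (p : ℚ)⁻¹ (fun _ => 1) zero_le_one inv0 (fun _ => zero_le_one)
    (PB_xp k) (PB_XNp r k h) (fun r' _ => PB_XN r' k)
  simpa using this

theorem PB_zero (r e k : ℕ) (h : (p : ℤ) ∣ (k : ℤ)) :
    PB p (p : ℚ) ((p : ℚ)⁻¹ ^ 30) (TS (-(k : ℚ)) (EE p (Qr p r e))) := by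
  have := PB_EE (p := p) r e k ((p : ℚ)⁻¹ * (p : ℚ)⁻¹) 1 (fun _ => 1) (mul_nonneg inv0 inv0)
    zero_le_one (fun _ => zero_le_one) (PB_xpp k h) (PB_XN r k) (fun r' _ => PB_XN r' k)
  rw [show ((p : ℚ)⁻¹ ^ 30) = ((p : ℚ)⁻¹ * (p : ℚ)⁻¹) ^ 15 * (1 ^ e *
    ∏ r' ∈ (Finset.Icc 1 ((p - 1) / 2)).erase r, (1 : ℚ) ^ 24) by
      simp only [one_pow, Finset.prod_const_one, mul_one]
      rw [← pow_two, ← pow_mul]]
  exact this

theorem PB_far (r e k r'' : ℕ) (hr'' : r'' ∈ Finset.Icc 1 ((p - 1) / 2)) (hne : r'' ≠ r)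
    (h : (p : ℤ) ∣ (k : ℤ) - r'' ∨ (p : ℤ) ∣ (k : ℤ) + r'') :
    PB p (p : ℚ) ((p : ℚ)⁻¹ ^ 24) (TS (-(k : ℚ)) (EE p (Qr p r e))) := by
  classical
  have := PB_EE (p := p) r e k 1 1 (fun r' => if r' = r'' then (p : ℚ)⁻¹ else 1) zero_le_one
    zero_le_one (fun r' => by split_ifs; exacts [inv0, zero_le_one]) (PB_xp k) (PB_XN r k)
    (fun r' _ => by
      split_ifs with h'
      · rw [h']; exact PB_XNp r'' k h
      · exact PB_XN r' k)
  have h2 : ∏ r' ∈ (Finset.Icc 1 ((p - 1) / 2)).erase r, (if r' = r'' then (p : ℚ)⁻¹ else 1) ^ 24 =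
      (p : ℚ)⁻¹ ^ 24 := by
    rw [Finset.prod_eq_single r'']
    · rw [if_pos rfl]
    · intro b _ hb
      rw [if_neg hb, one_pow]
    · intro h3
      exact absurd (Finset.mem_erase.2 ⟨hne, hr''⟩) h3
  rw [h2] at this
  simpa using this

theorem exists_rep (hp2 : p ≠ 2) (k : ℕ) (hk : ¬ (p : ℤ) ∣ (k : ℤ)) :
    ∃ r'' ∈ Finset.Icc 1 ((p - 1) / 2), (p : ℤ) ∣ (k : ℤ) - r'' ∨ (p : ℤ) ∣ (k : ℤ) + r'' := by
  have hp0 := hp.out.pos
  have hodd := hp.out.eq_two_or_odd.resolve_left hp2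
  have hm := Nat.mod_lt k hp0
  have hm0 : k % p ≠ 0 := by
    intro h
    exact hk (by exact_mod_cast Nat.dvd_of_mod_eq_zero h)
  have hdm := Nat.div_add_mod k p
  have hdz : (k : ℤ) = p * ((k / p : ℕ) : ℤ) + ((k % p : ℕ) : ℤ) := by exact_mod_cast hdm.symm
  by_cases h : k % p ≤ (p - 1) / 2
  · refine ⟨k % p, Finset.mem_Icc.2 ⟨by omega, h⟩, Or.inl ⟨((k / p : ℕ) : ℤ), ?_⟩⟩
    linarith
  · refine ⟨p - k % p, Finset.mem_Icc.2 ⟨by omega, by omega⟩, Or.inr ⟨((k / p : ℕ) : ℤ) + 1, ?_⟩⟩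
    rw [Nat.cast_sub hm.le]
    linarith

/-- bound of the coefficients in the classes `±r` -/
theorem pa_near (hp30 : 30 ≤ p) (r e k i : ℕ) (hk : k ∈ sN p)
    (hk0 : ¬ (p : ℤ) ∣ (k : ℤ))
    (h : (p : ℤ) ∣ (k : ℤ) - r ∨ (p : ℤ) ∣ (k : ℤ) + r) :
    padicNorm p (pa (sN p) (muN p) (PPn p * EE p (Qr p r e)) k i) ≤ (p : ℚ) ^ (-(i : ℤ) - e) := by
  have h1 := C1_pa_mul (n := p) (p := p) (by omega) (by nlinarith) (EE p (Qr p r e)) hk _
    (pow_nonneg inv0 e) (PB_near r e k h) i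
  refine h1.trans (le_of_eq ?_)
  rw [ee_zero k hk0, inv_pow, ← zpow_natCast, ← zpow_neg, ← zpow_add₀ p_pos'.ne']
  congr 1
  ring

/-- bound of the coefficients in the other classes -/
theorem pa_far (hp30 : 30 ≤ p) (r e k i : ℕ) (hk : k ∈ sN p)
    (h : ¬ ((p : ℤ) ∣ (k : ℤ) - r ∨ (p : ℤ) ∣ (k : ℤ) + r)) :
    padicNorm p (pa (sN p) (muN p) (PPn p * EE p (Qr p r e)) k i) ≤ (p : ℚ) ^ (-(i : ℤ) - 24) := by
  by_cases hk0 : (p : ℤ) ∣ (k : ℤ)
  · have h1 := C1_pa_mul (n := p) (p := p) (by omega) (by nlinarith) (EE p (Qr p r e)) hk _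
      (pow_nonneg inv0 30) (PB_zero r e k hk0) i
    refine h1.trans ?_
    rw [inv_pow, ← zpow_natCast, ← zpow_neg, ← zpow_add₀ p_pos'.ne']
    apply zpow_le_zpow_right₀ p_one'
    have := ee_ge6 (p := p) k
    push_cast
    linarith
  · obtain ⟨r'', hr'', h''⟩ := exists_rep (p := p) (by omega) k hk0
    have h1 := C1_pa_mul (n := p) (p := p) (by omega) (by nlinarith) (EE p (Qr p r e)) hk _
      (pow_nonneg inv0 24) (PB_far r e k r'' hr'' (fun e => h (e ▸ h'')) h'') i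
    refine h1.trans (le_of_eq ?_)
    rw [ee_zero k hk0, inv_pow, ← zpow_natCast, ← zpow_neg, ← zpow_add₀ p_pos'.ne']
    congr 1
    push_cast
    ring

/-! ### reflection -/

theorem EE_reflect (n : ℕ) (Q : ℚ[X]) : (EE n Q).comp (-X - C ((12 * n : ℕ) : ℚ)) = EE n Q := by
  unfold EE
  rw [Polynomial.comp_assoc]
  congr 1
  unfold xp
  simp only [Polynomial.mul_comp, Polynomial.add_comp, Polynomial.X_comp, Polynomial.C_comp]
  ring

omit hp in
theorem mem_sN (k : ℕ) : k ∈ sN p ↔ 2 * p + 1 ≤ k ∧ k ≤ 10 * p - 1 := by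
  unfold sN ss
  rw [Finset.mem_Icc]
  omega

omit hp in
theorem muN_eq {k : ℕ} (h1 : 3 * p ≤ k) (h2 : k ≤ 9 * p) : muN p k = 6 := by
  unfold muN mu
  have : k + 3 * p ≤ 12 * p := by omega
  simp [h1, this]

omit hp in
theorem muN_zero {k : ℕ} (h : ¬ (3 * p ≤ k ∧ k ≤ 9 * p)) : muN p k = 0 := by
  unfold muN mu
  have : ¬ (3 * p ≤ k ∧ k + 3 * p ≤ 12 * p) := by omega
  simp [this]

/-- reflection of the coefficients -/
theorem pa_reflect (Q : ℚ[X]) {k i : ℕ} (h1 : 3 * p ≤ k) (h2 : k ≤ 9 * p) (hi : 1 ≤ i)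
    (hi6 : i ≤ 6) :
    pa (sN p) (muN p) (PPn p * EE p Q) (12 * p - k) i =
      (-1) ^ (i + 1) * pa (sN p) (muN p) (PPn p * EE p Q) k i := by
  have hp0 := hp.out.pos
  have h3 : muN p k = 6 := muN_eq h1 h2
  have h4 : muN p (12 * p - k) = 6 := muN_eq (by omega) (by omega)
  unfold pa
  rw [if_pos (by rw [h4]; exact hi6), if_pos (by rw [h3]; exact hi6), h4, h3]
  have h5 := pfc_reflect (sN p) (muN p) (PPn p * EE p Q) (12 * p)
    (fun k hk => ss_reflect 12 2 p hk)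
    (fun k hk => mu_reflect 12 p ds6 (ss_reflect 12 2 p hk).1)
    (by rw [Polynomial.mul_comp, EE_reflect, PPn, PP_comp, neg_mul])
    (even_sum_mu 12 2 p ds6 hp0 (by simp) (by simp) (by decide))
    (k := k) ((mem_sN k).2 (by omega)) (j := 6 - i) (by rw [h3]; omega)
  rw [h5, h3, show 6 - (6 - i) = i by omega, pow_succ]
  ring

/-! ### splitting the sum over the poles -/

omit hp in
theorem sum_split {r : ℕ} (hr1 : 1 ≤ r) (hr2 : 2 * r < p) : ∃ S ⊆ sN p,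
    (∀ k ∈ S, ∀ j ∈ Finset.Icc 3 8, k ≠ r + j * p ∧ k ≠ 12 * p - (r + j * p)) ∧
    ∀ g : ℕ → ℚ, ∑ k ∈ sN p, g k =
      (∑ j ∈ Finset.Icc 3 8, (g (r + j * p) + g (12 * p - (r + j * p)))) + ∑ k ∈ S, g k := by
  classical
  have hb : ∀ j ∈ Finset.Icc 3 8, 3 * p ≤ j * p ∧ j * p ≤ 8 * p := fun j hj => by
    rw [Finset.mem_Icc] at hj
    exact ⟨Nat.mul_le_mul_right p hj.1, Nat.mul_le_mul_right p hj.2⟩
  have hdis : Disjoint ((Finset.Icc 3 8).image (fun j => r + j * p))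
      ((Finset.Icc 3 8).image (fun j => 12 * p - (r + j * p))) := by
    rw [Finset.disjoint_left]
    intro k hk hk'
    rw [Finset.mem_image] at hk hk'
    obtain ⟨j, hj, rfl⟩ := hk
    obtain ⟨j', hj', h⟩ := hk'
    rw [Finset.mem_Icc] at hj hj'
    obtain ⟨a, b⟩ := hj
    obtain ⟨c, d⟩ := hj'
    interval_cases j <;> interval_cases j' <;> omega
  have hsub : (Finset.Icc 3 8).image (fun j => r + j * p) ∪
      (Finset.Icc 3 8).image (fun j => 12 * p - (r + j * p)) ⊆ sN p := by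
    intro k hk
    rw [Finset.mem_union, Finset.mem_image, Finset.mem_image] at hk
    rw [mem_sN]
    rcases hk with ⟨j, hj, rfl⟩ | ⟨j, hj, rfl⟩
    · have := hb j hj
      omega
    · have := hb j hj
      omega
  refine ⟨sN p \ ((Finset.Icc 3 8).image (fun j => r + j * p) ∪
      (Finset.Icc 3 8).image (fun j => 12 * p - (r + j * p))), Finset.sdiff_subset, ?_, ?_⟩
  · intro k hk j hj
    rw [Finset.mem_sdiff, Finset.mem_union, not_or] at hk
    exact ⟨fun h => hk.2.1 (Finset.mem_image.2 ⟨j, hj, h.symm⟩),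
      fun h => hk.2.2 (Finset.mem_image.2 ⟨j, hj, h.symm⟩)⟩
  · intro g
    have h1 : ∑ j ∈ Finset.Icc 3 8, g (r + j * p) =
        ∑ k ∈ (Finset.Icc 3 8).image (fun j => r + j * p), g k := by
      rw [Finset.sum_image]
      intro a _ b _ hab
      have : a * p = b * p := by simpa using hab
      exact Nat.eq_of_mul_eq_mul_right (by omega) this
    have h2 : ∑ j ∈ Finset.Icc 3 8, g (12 * p - (r + j * p)) =
        ∑ k ∈ (Finset.Icc 3 8).image (fun j => 12 * p - (r + j * p)), g k := by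
      rw [Finset.sum_image]
      intro a ha b hb' hab
      have h3 := hb a ha
      have h4 := hb b hb'
      have : a * p = b * p := by
        simp only at hab
        omega
      exact Nat.eq_of_mul_eq_mul_right (by omega) this
    rw [Finset.sum_add_distrib, h1, h2, ← Finset.sum_union hdis, add_comm]
    exact (Finset.sum_sdiff hsub).symm

theorem rest_class {r k : ℕ} (hr1 : 1 ≤ r) (hr2 : 2 * r < p) (h1 : 3 * p ≤ k) (h2 : k ≤ 9 * p)
    (h : ∀ j ∈ Finset.Icc 3 8, k ≠ r + j * p ∧ k ≠ 12 * p - (r + j * p)) :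
    ¬ ((p : ℤ) ∣ (k : ℤ) - r ∨ (p : ℤ) ∣ (k : ℤ) + r) := by
  have hp0 := hp.out.pos
  rintro (⟨m, hm⟩ | ⟨m, hm⟩)
  · have hm' : (k : ℤ) = r + p * m := by linarith
    have h3 : 2 < m := by
      by_contra hcon
      push Not at hcon
      have := mul_le_mul_of_nonneg_left hcon (by positivity : (0 : ℤ) ≤ p)
      have h1' : (3 : ℤ) * p ≤ k := by exact_mod_cast h1
      have h2' : (2 : ℤ) * r < p := by exact_mod_cast hr2
      linarith
    have h4 : m < 9 := by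
      by_contra hcon
      push Not at hcon
      have := mul_le_mul_of_nonneg_left hcon (by positivity : (0 : ℤ) ≤ p)
      have h1' : (k : ℤ) ≤ 9 * p := by exact_mod_cast h2
      have h2' : (1 : ℤ) ≤ r := by exact_mod_cast hr1
      linarith
    have h5 := (h m.toNat (by rw [Finset.mem_Icc]; omega)).1
    apply h5
    have h6 : ((m.toNat : ℕ) : ℤ) = m := Int.toNat_of_nonneg (by omega)
    have : (k : ℤ) = ((r + m.toNat * p : ℕ) : ℤ) := by
      push_cast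
      rw [h6, hm']
      ring
    exact_mod_cast this
  · have hm' : (k : ℤ) = p * m - r := by linarith
    have h3 : 3 < m := by
      by_contra hcon
      push Not at hcon
      have h0 : m ≤ 3 := hcon
      have := mul_le_mul_of_nonneg_left h0 (by positivity : (0 : ℤ) ≤ p)
      have h1' : (3 : ℤ) * p ≤ k := by exact_mod_cast h1
      have h2' : (1 : ℤ) ≤ r := by exact_mod_cast hr1
      linarith
    have h4 : m < 10 := by
      by_contra hcon
      push Not at hcon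
      have := mul_le_mul_of_nonneg_left hcon (by positivity : (0 : ℤ) ≤ p)
      have h1' : (k : ℤ) ≤ 9 * p := by exact_mod_cast h2
      have h2' : (2 : ℤ) * r < p := by exact_mod_cast hr2
      linarith
    have h5 := (h (12 - m).toNat (by rw [Finset.mem_Icc]; omega)).2
    apply h5
    have h6 : (((12 - m).toNat : ℕ) : ℤ) = 12 - m := Int.toNat_of_nonneg (by omega)
    have h7 : r + (12 - m).toNat * p ≤ 12 * p := by
      have : ((r + (12 - m).toNat * p : ℕ) : ℤ) ≤ ((12 * p : ℕ) : ℤ) := by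
        push_cast
        rw [h6]
        have : (0 : ℤ) ≤ k := by positivity
        linarith
      exact_mod_cast this
    have : (k : ℤ) = ((12 * p - (r + (12 - m).toNat * p) : ℕ) : ℤ) := by
      rw [Nat.cast_sub h7]
      push_cast
      rw [h6, hm']
      ring
    exact_mod_cast this

/-! ### small facts on norms -/

theorem nadd {a b c : ℚ} (ha : padicNorm p a ≤ c) (hb : padicNorm p b ≤ c) :
    padicNorm p (a + b) ≤ c := padicNorm.nonarchimedean.trans (max_le ha hb)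

theorem nsub {a b c : ℚ} (ha : padicNorm p a ≤ c) (hb : padicNorm p b ≤ c) :
    padicNorm p (a - b) ≤ c := padicNorm.sub.trans (max_le ha hb)

theorem nmul {a b x y : ℚ} (ha : padicNorm p a ≤ x) (hb : padicNorm p b ≤ y) :
    padicNorm p (a * b) ≤ x * y := by
  rw [padicNorm.mul]
  exact mul_le_mul ha hb (padicNorm.nonneg _) ((padicNorm.nonneg _).trans ha)

theorem norm_ppow (m : ℕ) : padicNorm p ((p : ℚ) ^ m) = (p : ℚ) ^ (-(m : ℤ)) := by
  rw [padicNorm_pow', padicNorm.padicNorm_p_of_prime, inv_pow, zpow_neg, zpow_natCast]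

theorem norm_pzpow (e : ℕ) : padicNorm p ((p : ℚ) ^ (2 - (e : ℤ))) = (p : ℚ) ^ ((e : ℤ) - 2) := by
  have h1 : (p : ℚ) ^ (2 - (e : ℤ)) = (p : ℚ) ^ 2 / (p : ℚ) ^ e := by
    rw [zpow_sub₀ p_pos'.ne', zpow_natCast]
    rfl
  rw [h1, padicNorm.div, norm_ppow, norm_ppow, ← zpow_sub₀ p_pos'.ne']
  congr 1
  push_cast
  ring

theorem norm_int_le (z : ℤ) : padicNorm p (z : ℚ) ≤ 1 := padicNorm.of_int z

theorem norm_sgn (i : ℕ) : padicNorm p ((-1 : ℚ) ^ i) ≤ 1 := by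
  have := norm_int_le (p := p) ((-1) ^ i)
  push_cast at this
  exact this

/-- statement of `H1_hs` -/
def H1st (p : ℕ) : Prop := ∀ (r a e : ℕ), r < p → a < p → 1 ≤ e →
    padicNorm p ((p : ℚ) ^ e * hs e (a * p + r) - hs e a) ≤ (p : ℚ)⁻¹

/-- statement of `H2_pa` -/
def H2st (p r : ℕ) : Prop :=
    ∃ w : ℚ, padicNorm p w = 1 ∧ ∀ e j i : ℕ, e ≤ 22 → 3 ≤ j → j ≤ 8 → 1 ≤ i → i ≤ 6 →
      padicNorm p (pa (sN p) (muN p) (PPn p * EE p (XN p r ^ e *
        ∏ r' ∈ (Finset.Icc 1 ((p - 1) / 2)).erase r, XN p r' ^ 24)) (r + j * p) i / (p : ℚ) ^ (i + e) -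
        w * (-2 * r) ^ e * PowerSeries.coeff (6 - i) (ser j e)) ≤ (p : ℚ)⁻¹

/-- the contribution of one pair of poles -/
theorem pair_term (H1_hs : H1st p) (hp30 : 30 ≤ p) (u : ℕ → ℚ) (hu : ∀ i, padicNorm p (u i) ≤ 1)
    {r e i j : ℕ} (hr1 : 1 ≤ r) (hr2 : 2 * r < p) (_ : e ≤ 22) (hj3 : 3 ≤ j) (hj8 : j ≤ 8)
    (hi1 : 1 ≤ i) (hi6 : i ≤ 6) (α : ℚ)
    (hα : padicNorm p (pa (sN p) (muN p) (PPn p * EE p (Qr p r e)) (r + j * p) i /
      (p : ℚ) ^ (i + e) - α) ≤ (p : ℚ)⁻¹) :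
    padicNorm p ((p : ℚ) ^ (2 - (e : ℤ)) *
      (pa (sN p) (muN p) (PPn p * EE p (Qr p r e)) (r + j * p) i *
        (u i - hs (i + 2) (r + j * p - 2 * p - 1)) +
      pa (sN p) (muN p) (PPn p * EE p (Qr p r e)) (12 * p - (r + j * p)) i *
        (u i - hs (i + 2) (12 * p - (r + j * p) - 2 * p - 1))) +
      α * (hs (i + 2) (j - 2) + (-1) ^ (i + 1) * hs (i + 2) (9 - j))) ≤ (p : ℚ)⁻¹ := by
  have hp0 := hp.out.pos
  have hjp : 3 * p ≤ j * p ∧ j * p ≤ 8 * p :=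
    ⟨Nat.mul_le_mul_right p hj3, Nat.mul_le_mul_right p hj8⟩
  have e1 : r + j * p - 2 * p - 1 = (j - 2) * p + (r - 1) := by
    have : (j - 2) * p + 2 * p = j * p := by
      rw [← Nat.add_mul]
      congr 1
      omega
    omega
  have e2 : 12 * p - (r + j * p) - 2 * p - 1 = (9 - j) * p + (p - r - 1) := by
    have : (9 - j) * p + j * p = 9 * p := by
      rw [← Nat.add_mul]
      congr 1
      omega
    omega
  have hk0 : ¬ (p : ℤ) ∣ ((r + j * p : ℕ) : ℤ) := by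
    rintro ⟨m, hm⟩
    have h1 : (p : ℤ) ∣ (r : ℤ) := ⟨m - j, by push_cast at hm; linarith⟩
    have h2 : p ∣ r := by exact_mod_cast h1
    have := Nat.le_of_dvd hr1 h2
    omega
  have hka := pa_near (p := p) hp30 r e (r + j * p) i ((mem_sN _).2 (by omega)) hk0
    (Or.inl ⟨j, by push_cast; ring⟩)
  rw [pa_reflect (p := p) (Qr p r e) (k := r + j * p) (i := i) (by omega) (by omega) hi1 hi6,
    e1, e2]
  set a := pa (sN p) (muN p) (PPn p * EE p (Qr p r e)) (r + j * p) i with ha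
  have hpi : (p : ℚ) ^ (i + e) ≠ 0 := pow_ne_zero _ p_pos'.ne'
  -- normalised coefficient
  set A := a / (p : ℚ) ^ (i + e) with hA
  have hA1 : padicNorm p A ≤ 1 := by
    rw [hA, padicNorm.div, norm_ppow, div_le_one (zpow_pos p_pos' _)]
    refine hka.trans (le_of_eq ?_)
    congr 1
    push_cast
    ring
  have haA : (p : ℚ) ^ (2 - (e : ℤ)) * a = A * (p : ℚ) ^ (i + 2) := by
    rw [hA, zpow_sub₀ p_pos'.ne', zpow_natCast, pow_add, pow_add]
    have h1 : (p : ℚ) ^ i ≠ 0 := pow_ne_zero _ p_pos'.ne'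
    have h2 : (p : ℚ) ^ e ≠ 0 := pow_ne_zero _ p_pos'.ne'
    rw [show ((p : ℚ) ^ (2 : ℤ)) = (p : ℚ) ^ 2 from rfl]
    field_simp
  have hb := H1_hs (r - 1) (j - 2) (i + 2) (by omega) (by omega) (by omega)
  have hb' := H1_hs (p - r - 1) (9 - j) (i + 2) (by omega) (by omega) (by omega)
  have hH := hs_norm_small (p := p) (i + 2) (j - 2) (by omega)
  have hH' := hs_norm_small (p := p) (i + 2) (9 - j) (by omega)
  set b := (p : ℚ) ^ (i + 2) * hs (i + 2) ((j - 2) * p + (r - 1)) with hbd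
  set b' := (p : ℚ) ^ (i + 2) * hs (i + 2) ((9 - j) * p + (p - r - 1)) with hbd'
  set H := hs (i + 2) (j - 2) with hHd
  set H' := hs (i + 2) (9 - j) with hHd'
  have key : (p : ℚ) ^ (2 - (e : ℤ)) *
      (a * (u i - hs (i + 2) ((j - 2) * p + (r - 1))) +
      (-1) ^ (i + 1) * a * (u i - hs (i + 2) ((9 - j) * p + (p - r - 1)))) +
      α * (H + (-1) ^ (i + 1) * H') =
      (((p : ℚ) ^ (2 - (e : ℤ)) * a * u i + (-1) ^ (i + 1) * ((p : ℚ) ^ (2 - (e : ℤ)) * a * u i)) -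
      (A * (b - H) + (-1) ^ (i + 1) * (A * (b' - H')))) - (A - α) * (H + (-1) ^ (i + 1) * H') := by
    have h1 : (p : ℚ) ^ (2 - (e : ℤ)) * a * hs (i + 2) ((j - 2) * p + (r - 1)) = A * b := by
      rw [haA, hbd]; ring
    have h2 : (p : ℚ) ^ (2 - (e : ℤ)) * a * hs (i + 2) ((9 - j) * p + (p - r - 1)) = A * b' := by
      rw [haA, hbd']; ring
    linear_combination (-1 : ℚ) * h1 - (-1) ^ (i + 1) * h2
  rw [key]
  have hu1 : padicNorm p ((p : ℚ) ^ (2 - (e : ℤ)) * a * u i) ≤ (p : ℚ)⁻¹ := by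
    have h1 : padicNorm p ((p : ℚ) ^ (2 - (e : ℤ)) * a) ≤ (p : ℚ) ^ ((e : ℤ) - 2) *
        (p : ℚ) ^ (-(i : ℤ) - e) := nmul (norm_pzpow e).le hka
    rw [← zpow_add₀ p_pos'.ne'] at h1
    have h2 := nmul h1 (hu i)
    rw [mul_one] at h2
    refine h2.trans ?_
    rw [← zpow_neg_one]
    apply zpow_le_zpow_right₀ p_one'
    omega
  have hs1 := norm_sgn (p := p) (i + 1)
  have hle : ∀ {x : ℚ}, padicNorm p x ≤ (p : ℚ)⁻¹ →
      padicNorm p ((-1) ^ (i + 1) * x) ≤ (p : ℚ)⁻¹ := fun {x} hx => by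
    have := nmul hs1 hx
    rwa [one_mul] at this
  have hAb : ∀ {x : ℚ}, padicNorm p x ≤ (p : ℚ)⁻¹ → padicNorm p (A * x) ≤ (p : ℚ)⁻¹ :=
    fun {x} hx => by
    have := nmul hA1 hx
    rwa [one_mul] at this
  have hHH : padicNorm p (H + (-1) ^ (i + 1) * H') ≤ 1 := by
    refine nadd hH ?_
    have := nmul hs1 hH'
    rwa [one_mul] at this
  refine nsub (nsub (nadd hu1 (hle hu1)) (nadd (hAb hb) (hle (hAb hb')))) ?_
  have := nmul hα hHH
  rwa [mul_one] at this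

/-- the contribution of the other poles -/
theorem rest_term (hp30 : 30 ≤ p) (u : ℕ → ℚ) (hu : ∀ i, padicNorm p (u i) ≤ 1)
    {r e i k : ℕ} (hr1 : 1 ≤ r) (hr2 : 2 * r < p) (he : e ≤ 22) (hi1 : 1 ≤ i) (hk : k ∈ sN p)
    (hrest : ∀ j ∈ Finset.Icc 3 8, k ≠ r + j * p ∧ k ≠ 12 * p - (r + j * p)) :
    padicNorm p ((p : ℚ) ^ (2 - (e : ℤ)) *
      (pa (sN p) (muN p) (PPn p * EE p (Qr p r e)) k i * (u i - hs (i + 2) (k - 2 * p - 1)))) ≤
      (p : ℚ)⁻¹ := by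
  by_cases h : 3 * p ≤ k ∧ k ≤ 9 * p
  · have h1 := pa_far (p := p) hp30 r e k i hk (rest_class hr1 hr2 h.1 h.2 hrest)
    have h2 := hs_norm_med (p := p) (i + 2) (k - 2 * p - 1) (by
      have : k ≤ 9 * p := h.2
      nlinarith [Nat.sub_le (k - 2 * p) 1, Nat.sub_le k (2 * p)])
    have h3 : padicNorm p (u i - hs (i + 2) (k - 2 * p - 1)) ≤ (p : ℚ) ^ (i + 2) :=
      nsub ((hu i).trans (one_le_pow₀ p_one')) h2
    have h4 := nmul (norm_pzpow (p := p) e).le (nmul h1 h3)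
    refine h4.trans ?_
    rw [← zpow_natCast, ← zpow_add₀ p_pos'.ne', ← zpow_add₀ p_pos'.ne', ← zpow_neg_one]
    apply zpow_le_zpow_right₀ p_one'
    push_cast
    omega
  · have h1 : pa (sN p) (muN p) (PPn p * EE p (Qr p r e)) k i = 0 := by
      unfold pa
      rw [muN_zero h, if_neg (by omega)]
    rw [h1, zero_mul, mul_zero, padicNorm.zero]
    exact inv0

end

end Pool.Agent.H336R2.HD.H3

namespace Pool.Agent.H336R2.HD

open H3

theorem H3_of {p : ℕ} [Fact p.Prime] (h1s : H1st p) (hp : 30 ≤ p) (u : ℕ → ℚ)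
    (hu : ∀ i, padicNorm p (u i) ≤ 1) (r : ℕ) (hr1 : 1 ≤ r) (hr2 : 2 * r < p) (h2s : H2st p r) :
    ∃ w : ℚ, padicNorm p w = 1 ∧ ∀ e : ℕ, e ≤ 22 →
      padicNorm p ((p : ℚ) ^ (2 - (e : ℤ)) * NL p u (XN p r ^ e *
        ∏ r' ∈ (Finset.Icc 1 ((p - 1) / 2)).erase r, XN p r' ^ 24) -
        w * (-2 * r) ^ e * Fm e) ≤ (p : ℚ)⁻¹ := by
  obtain ⟨w, hw1, hw⟩ := h2s
  refine ⟨w, hw1, fun e he => ?_⟩
  obtain ⟨S, hS, hSr, hsum⟩ := sum_split (p := p) hr1 hr2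
  show padicNorm p ((p : ℚ) ^ (2 - (e : ℤ)) * NL p u (Qr p r e) - w * (-2 * r) ^ e * Fm e) ≤ _
  have hN : (p : ℚ) ^ (2 - (e : ℤ)) * NL p u (Qr p r e) - w * (-2 * r) ^ e * Fm e =
      ∑ i ∈ Finset.Icc 1 6, ((Nat.choose (i + 1) 2 : ℕ) : ℚ) *
      ((∑ j ∈ Finset.Icc 3 8, ((p : ℚ) ^ (2 - (e : ℤ)) *
      (pa (sN p) (muN p) (PPn p * EE p (Qr p r e)) (r + j * p) i *
        (u i - hs (i + 2) (r + j * p - 2 * p - 1)) +
      pa (sN p) (muN p) (PPn p * EE p (Qr p r e)) (12 * p - (r + j * p)) i *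
        (u i - hs (i + 2) (12 * p - (r + j * p) - 2 * p - 1))) +
      (w * (-2 * r) ^ e * PowerSeries.coeff (6 - i) (ser j e)) *
        (hs (i + 2) (j - 2) + (-1) ^ (i + 1) * hs (i + 2) (9 - j)))) +
      ∑ k ∈ S, (p : ℚ) ^ (2 - (e : ℤ)) *
      (pa (sN p) (muN p) (PPn p * EE p (Qr p r e)) k i *
        (u i - hs (i + 2) (k - 2 * p - 1)))) := by
    have h1 : w * (-2 * (r : ℚ)) ^ e * Fm e = -∑ i ∈ Finset.Icc 1 6,
        ((Nat.choose (i + 1) 2 : ℕ) : ℚ) * ∑ j ∈ Finset.Icc 3 8,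
        (w * (-2 * r) ^ e * PowerSeries.coeff (6 - i) (ser j e)) *
        (hs (i + 2) (j - 2) + (-1) ^ (i + 1) * hs (i + 2) (9 - j)) := by
      unfold Fm
      rw [mul_neg, Finset.sum_comm, Finset.mul_sum]
      congr 1
      refine Finset.sum_congr rfl fun i _ => ?_
      rw [Finset.mul_sum, Finset.mul_sum]
      refine Finset.sum_congr rfl fun j _ => ?_
      ring
    have h2 : NL p u (Qr p r e) = ∑ i ∈ Finset.Icc 1 6, ((Nat.choose (i + 1) 2 : ℕ) : ℚ) *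
        ∑ k ∈ sN p, pa (sN p) (muN p) (PPn p * EE p (Qr p r e)) k i *
        (u i - hs (i + 2) (k - 2 * p - 1)) := by
      rw [NL_apply]
      unfold xf
      refine Finset.sum_congr rfl fun i _ => ?_
      congr 1
      rw [Finset.sum_mul, ← Finset.sum_sub_distrib]
      refine Finset.sum_congr rfl fun k _ => ?_
      ring
    rw [h1, sub_neg_eq_add, h2, Finset.mul_sum, ← Finset.sum_add_distrib]
    refine Finset.sum_congr rfl fun i _ => ?_
    rw [hsum]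
    simp only [Finset.sum_add_distrib, ← Finset.mul_sum]
    ring
  rw [hN]
  apply padicNorm.sum_le' _ inv0
  intro i hi
  rw [Finset.mem_Icc] at hi
  have hc : padicNorm p ((Nat.choose (i + 1) 2 : ℕ) : ℚ) ≤ 1 := padicNorm.of_nat _
  have h3 : ∀ {x : ℚ}, padicNorm p x ≤ (p : ℚ)⁻¹ →
      padicNorm p (((Nat.choose (i + 1) 2 : ℕ) : ℚ) * x) ≤ (p : ℚ)⁻¹ := fun {x} hx => by
    have := nmul hc hx
    rwa [one_mul] at this
  apply h3
  refine nadd ?_ ?_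
  · apply padicNorm.sum_le' _ inv0
    intro j hj
    rw [Finset.mem_Icc] at hj
    exact pair_term h1s hp u hu hr1 hr2 he hj.1 hj.2 hi.1 hi.2 _ (hw e j i he hj.1 hj.2 hi.1 hi.2)
  · apply padicNorm.sum_le' _ inv0
    intro k hk
    exact rest_term hp u hu hr1 hr2 he hi.1 (hS hk) (hSr k hk)

end Pool.Agent.H336R2.HD
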