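import Mathlib

/-! Task A5: product formula and nonvanishing of a determinant modulo `p`. -/

set_option autoImplicit false

open Polynomial

namespace Pool.Agent.H336R2.HD

theorem A5_nat_prod (a : ℕ) (ha : a ≠ 0) (S : Finset ℕ) (h : a.primeFactors ⊆ S)
    (hp : ∀ p ∈ S, p.Prime) : (a : ℚ) * ∏ p ∈ S, padicNorm p (a : ℚ) = 1 := by
  have haq : (a : ℚ) ≠ 0 := by exact_mod_cast ha
  have h1 : ∏ p ∈ S, padicNorm p (a : ℚ) = ∏ p ∈ S, ((p : ℚ) ^ (a.factorization p))⁻¹ := by
    refine Finset.prod_congr rfl fun p hpS => ?_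
    have : Fact p.Prime := ⟨hp p hpS⟩
    rw [padicNorm.eq_zpow_of_nonzero haq, padicValRat.of_nat, zpow_neg, zpow_natCast,
      Nat.factorization_def a (hp p hpS)]
  have h2 : ∏ p ∈ S, (p : ℚ) ^ (a.factorization p) = a := by
    have h3 : ∏ p ∈ a.primeFactors, p ^ (a.factorization p) = a :=
      Nat.prod_factorization_pow_eq_self ha
    rw [Finset.prod_subset h (fun p _ hp => by
      rw [← Nat.support_factorization, Finsupp.notMem_support_iff] at hp
      rw [hp, pow_zero])] at h3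
    calc ∏ p ∈ S, (p : ℚ) ^ (a.factorization p)
        = ((∏ p ∈ S, p ^ (a.factorization p) : ℕ) : ℚ) := by push_cast; rfl
      _ = a := by rw [h3]
  rw [h1, Finset.prod_inv_distrib, h2, mul_inv_cancel₀ haq]

theorem A5_rat_prod (z : ℚ) (hz : z ≠ 0) (S : Finset ℕ) (h : z.num.natAbs.primeFactors ⊆ S)
    (h' : z.den.primeFactors ⊆ S)
    (hp : ∀ p ∈ S, p.Prime) : |z| * ∏ p ∈ S, padicNorm p z = 1 := by
  have hn : z.num.natAbs ≠ 0 := by
    rw [Int.natAbs_ne_zero]; exact Rat.num_ne_zero.mpr hz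
  have hd : z.den ≠ 0 := z.den_nz
  have hdq : (z.den : ℚ) ≠ 0 := by exact_mod_cast hd
  have e1 : |z| = (z.num.natAbs : ℚ) / z.den := by
    conv_lhs => rw [← Rat.num_div_den z]
    rw [abs_div, Nat.cast_natAbs, Nat.abs_cast, Int.cast_abs]
  have e2 : ∀ p ∈ S, padicNorm p z = padicNorm p (z.num.natAbs : ℚ) / padicNorm p (z.den : ℚ) := by
    intro p hpS
    have : Fact p.Prime := ⟨hp p hpS⟩
    have : padicNorm p z = padicNorm p |z| := by
      rcases abs_choice z with h1 | h1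
      · rw [h1]
      · rw [h1, padicNorm.neg]
    rw [this, e1, padicNorm.div]
  rw [Finset.prod_congr rfl e2, Finset.prod_div_distrib, e1]
  have a1 := A5_nat_prod _ hn S h hp
  have a2 := A5_nat_prod _ hd S h' hp
  have hne : (∏ p ∈ S, padicNorm p (z.den : ℚ)) ≠ 0 := by
    intro h0; rw [h0, mul_zero] at a2; exact zero_ne_one a2
  rw [div_mul_div_comm, a1, a2, div_one]

theorem A5_prod_formula (z : ℚ) (hz : z ≠ 0) (S : Finset ℕ) (hS : ∀ p ∈ S, p.Prime) (B : ℕ → ℝ)
    (h1 : ∀ p ∈ S, ((padicNorm p z : ℚ) : ℝ) ≤ B p) (h2 : ∀ p, p.Prime → p ∉ S → padicNorm p z ≤ 1) :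
    1 ≤ |(z : ℝ)| * ∏ p ∈ S, B p := by
  classical
  obtain ⟨S0, hS0⟩ : ∃ S0 : Finset ℕ, S0 = S ∪ (z.num.natAbs.primeFactors ∪ z.den.primeFactors) :=
    ⟨_, rfl⟩
  have hp0 : ∀ p ∈ S0, p.Prime := by
    intro p hp
    rw [hS0, Finset.mem_union, Finset.mem_union] at hp
    rcases hp with hp | hp | hp
    · exact hS p hp
    · exact Nat.prime_of_mem_primeFactors hp
    · exact Nat.prime_of_mem_primeFactors hp
  have hsub : S ⊆ S0 := by rw [hS0]; exact Finset.subset_union_left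
  have h3 := A5_rat_prod z hz S0
    (by rw [hS0]; exact Finset.subset_union_left.trans Finset.subset_union_right)
    (by rw [hS0]; exact Finset.subset_union_right.trans Finset.subset_union_right) hp0
  have h4 : ∏ p ∈ S0, padicNorm p z ≤ ∏ p ∈ S, padicNorm p z := by
    rw [← Finset.prod_sdiff hsub]
    have h5 : ∏ p ∈ S0 \ S, padicNorm p z ≤ 1 := by
      apply Finset.prod_le_one
      · intro p _; exact padicNorm.nonneg z
      · intro p hp
        rw [Finset.mem_sdiff] at hp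
        exact h2 p (hp0 p hp.1) hp.2
    have h6 : 0 ≤ ∏ p ∈ S, padicNorm p z := Finset.prod_nonneg fun p _ => padicNorm.nonneg z
    exact mul_le_of_le_one_left h6 h5
  have h7 : (1 : ℚ) ≤ |z| * ∏ p ∈ S, padicNorm p z := by
    rw [← h3]
    exact mul_le_mul_of_nonneg_left h4 (abs_nonneg z)
  have h8 : (1 : ℝ) ≤ |(z : ℝ)| * ∏ p ∈ S, ((padicNorm p z : ℚ) : ℝ) := by exact_mod_cast h7
  refine h8.trans (mul_le_mul_of_nonneg_left ?_ (abs_nonneg _))
  apply Finset.prod_le_prod
  · intro p _; exact_mod_cast padicNorm.nonneg z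
  · exact h1

theorem A6_prod (p : ℕ) [Fact p.Prime] {ι : Type} (s : Finset ι) (f g : ι → ℚ)
    (hf : ∀ i, padicNorm p (f i) ≤ 1) (hg : ∀ i, padicNorm p (g i) ≤ 1)
    (hfg : ∀ i, padicNorm p (f i - g i) ≤ (p : ℚ)⁻¹) :
    padicNorm p (∏ i ∈ s, f i) ≤ 1 ∧
      padicNorm p (∏ i ∈ s, f i - ∏ i ∈ s, g i) ≤ (p : ℚ)⁻¹ := by
  classical
  have hp0 : (0 : ℚ) ≤ (p : ℚ)⁻¹ := by positivity
  induction s using Finset.induction_on with
  | empty => simp [hp0]
  | insert a s ha ih =>
    rw [Finset.prod_insert ha, Finset.prod_insert ha]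
    have hgs : padicNorm p (∏ i ∈ s, g i) ≤ 1 := by
      clear ih
      induction s using Finset.induction_on with
      | empty => simp
      | insert b t hb ih =>
        rw [Finset.prod_insert hb, padicNorm.mul]
        exact mul_le_one₀ (hg b) (padicNorm.nonneg _)
          (ih (fun h => ha (Finset.mem_insert_of_mem h)))
    constructor
    · rw [padicNorm.mul]
      exact mul_le_one₀ (hf a) (padicNorm.nonneg _) ih.1
    · have e1 : f a * ∏ i ∈ s, f i - g a * ∏ i ∈ s, g i =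
          f a * (∏ i ∈ s, f i - ∏ i ∈ s, g i) + (f a - g a) * ∏ i ∈ s, g i := by ring
      rw [e1]
      refine padicNorm.nonarchimedean.trans (max_le ?_ ?_)
      · rw [padicNorm.mul]
        calc padicNorm p (f a) * padicNorm p (∏ i ∈ s, f i - ∏ i ∈ s, g i)
            ≤ 1 * (p : ℚ)⁻¹ := mul_le_mul (hf a) ih.2 (padicNorm.nonneg _) zero_le_one
          _ = _ := one_mul _
      · rw [padicNorm.mul]
        calc padicNorm p (f a - g a) * padicNorm p (∏ i ∈ s, g i)
            ≤ (p : ℚ)⁻¹ * 1 := mul_le_mul (hfg a) hgs (padicNorm.nonneg _) hp0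
          _ = _ := mul_one _

theorem A6_det_congr (p : ℕ) [Fact p.Prime] {α : Type} [Fintype α] [DecidableEq α] (M B : Matrix α α ℚ)
    (hB : ∀ a b, padicNorm p (B a b) ≤ 1) (hMB : ∀ a b, padicNorm p (M a b - B a b) ≤ (p : ℚ)⁻¹)
    (hdet : padicNorm p B.det = 1) : M.det ≠ 0 := by
  have hp1 : 1 < p := (Fact.out : p.Prime).one_lt
  have hpq : (1 : ℚ) < p := by exact_mod_cast hp1
  have hp0 : (0 : ℚ) ≤ (p : ℚ)⁻¹ := by positivity
  have hinv : (p : ℚ)⁻¹ < 1 := inv_lt_one_of_one_lt₀ hpq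
  have hM : ∀ a b, padicNorm p (M a b) ≤ 1 := by
    intro a b
    have e1 : M a b = (M a b - B a b) + B a b := by ring
    rw [e1]
    exact padicNorm.nonarchimedean.trans (max_le ((hMB a b).trans hinv.le) (hB a b))
  have hdiff : padicNorm p (M.det - B.det) ≤ (p : ℚ)⁻¹ := by
    rw [Matrix.det_apply, Matrix.det_apply, ← Finset.sum_sub_distrib]
    apply padicNorm.sum_le' _ hp0
    intro σ _
    rw [← smul_sub]
    have h1 := (A6_prod p Finset.univ (fun i => M (σ i) i) (fun i => B (σ i) i)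
      (fun i => hM _ _) (fun i => hB _ _) (fun i => hMB _ _)).2
    rcases Int.units_eq_one_or (Equiv.Perm.sign σ) with h | h
    · rw [h, one_smul]; exact h1
    · rw [h, Units.neg_smul, one_smul, padicNorm.neg]; exact h1
  intro h0
  rw [h0, zero_sub, padicNorm.neg, hdet] at hdiff
  linarith

end Pool.Agent.H336R2.HD
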