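import Pool.Agent.H336R2.HD.B1

/-!
# `B2`: archimedean bound of the linear form by the values on the line
-/

open Polynomial Pool.Agent.H337R2

namespace Pool.Agent.H336R2.HD

noncomputable section

lemma B2_deg {n : ℕ} (hn : 2 ≤ n) (Q : ℚ[X]) (hQ : Q.natDegree ≤ 12 * n - 14) :
    (PPn n * EE n Q).degree < (QQ (sN n) (muN n)).degree := by
  rw [Polynomial.degree_eq_natDegree (QQ_monic _ _).ne_zero]
  refine lt_of_le_of_lt Polynomial.degree_le_natDegree ?_
  have h1 : (PPn n).natDegree ≤ 1 + 2 * 3 * (2 * n) := PP_natDegree_le 3 12 2 n ds6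
  have h2 : (EE n Q).natDegree ≤ 2 * (15 + (12 * n - 14)) := by
    unfold EE
    refine Polynomial.natDegree_comp_le.trans ?_
    have h3 : (X ^ 15 * Q : ℚ[X]).natDegree ≤ 15 + (12 * n - 14) := by
      refine Polynomial.natDegree_mul_le.trans ?_
      exact add_le_add (by rw [Polynomial.natDegree_X_pow]) hQ
    have h4 : (xp n).natDegree ≤ 2 := by
      unfold xp
      refine Polynomial.natDegree_mul_le.trans ?_
      have : (X + C ((12 * n : ℕ) : ℚ) : ℚ[X]).natDegree ≤ 1 := by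
        rw [Polynomial.natDegree_X_add_C]
      have h5 : (X : ℚ[X]).natDegree ≤ 1 := Polynomial.natDegree_X_le
      omega
    calc _ ≤ (15 + (12 * n - 14)) * 2 := Nat.mul_le_mul h3 h4
      _ = _ := by ring
  have h6 : (QQ (sN n) (muN n)).natDegree = 36 * n + 6 := by
    rw [QQ_natDegree, sum_mu_one 12 2 n ds6 (by omega) (by decide) (by decide)]
    simp
    ring
  have h7 : (PPn n * EE n Q).natDegree ≤ (1 + 2 * 3 * (2 * n)) + 2 * (15 + (12 * n - 14)) :=
    Polynomial.natDegree_mul_le.trans (add_le_add h1 h2)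
  rw [h6]
  exact_mod_cast (by omega : (PPn n * EE n Q).natDegree < 36 * n + 6)

theorem B2_NL_le : ∃ C : ℝ, 0 < C ∧ ∀ n : ℕ, 2 ≤ n → ∀ u : ℕ → ℚ, zr 5 = (u 3 : ℝ) → zr 7 = (u 5 : ℝ) →
    ∀ Q : ℚ[X], Q.natDegree ≤ 12 * n - 14 → ∀ B : ℝ,
    (∀ y : ℝ, ‖Rn n y‖ * ‖xz n y‖ ^ 15 * ‖aeval (xz n y) Q‖ * Real.exp (-(2 * Real.pi * |y|)) ≤ B * (1 + y ^ 2)⁻¹) →
    |((NL n u Q : ℚ) : ℝ)| ≤ C * B := by
  obtain ⟨C, hC, hCK⟩ := KK_exp (b := 3) (by norm_num)
  refine ⟨C, hC, fun n hn u h3 h5 Q hQ B hB => ?_⟩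
  have hdeg := B2_deg hn Q hQ
  have hsum := B1_hasSum hn u h3 h5 Q hQ
  refine F_le_integral (sN n) (muN n) (PPn n * EE n Q) hdeg ?_ (b := 3) le_rfl _ hsum B ?_ C hC.le hCK
  · intro k hk
    have hk' : k ∈ Finset.Icc (2 * n + 1) (12 * n - 2 * n - 1) := hk
    rw [Finset.mem_Icc] at hk'
    omega
  · intro y
    refine le_trans (le_of_eq ?_) (hB y)
    rw [Rc_eq _ _ _ hdeg y, map_mul]
    have e1 : aeval (zl y) (EE n Q) = (xz n y) ^ 15 * aeval (xz n y) Q := by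
      unfold EE
      have e2 : aeval (zl y) (xp n) = xz n y := by
        unfold xp xz
        simp
      rw [Polynomial.aeval_comp, e2, map_mul, map_pow, aeval_X]
    rw [e1]
    unfold Rn
    rw [norm_div, norm_div, norm_mul, norm_mul, norm_pow]
    ring

end

end Pool.Agent.H336R2.HD
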