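import Pool.Agent.H336R2.HD.Defs

/-!
# The greedy algorithm (task D1)
-/

open Polynomial Pool.Agent.H337R2

namespace Pool.Agent.H336R2.HD

theorem D1_TT_step (y : ℤ) : TT y - TT (y - 2) = max 0 y := by
  unfold TT
  by_cases h1 : 0 < y
  · by_cases h2 : 0 < y - 2
    · rw [if_pos h1, if_pos h2, max_eq_right h1.le]
      have : (y + 1) ^ 2 = (y - 2 + 1) ^ 2 + y * 4 := by ring
      rw [this, Int.add_mul_ediv_right _ _ (by norm_num)]
      ring
    · rw [if_pos h1, if_neg h2, max_eq_right h1.le]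
      obtain rfl | rfl : y = 1 ∨ y = 2 := by omega
      · norm_num
      · norm_num
  · have h2 : ¬ 0 < y - 2 := by omega
    rw [if_neg h1, if_neg h2, max_eq_left (by omega)]
    norm_num

theorem D1_TT_nonneg (y : ℤ) : 0 ≤ TT y := by
  unfold TT
  split_ifs
  · positivity
  · exact le_rfl

theorem D1_greedy {K : Type} [DecidableEq K] (S : Finset K) (hS : S.Nonempty) (c : K → ℤ) (μ : ℤ) (m : ℕ) :
    ∃ (κ : ℕ → K) (s : ℕ → ℤ), (∀ i, κ i ∈ S) ∧ (∀ i, μ ≤ s i) ∧
      (∑ i ∈ Finset.range m, s i ≤ m * μ + ∑ k ∈ S, TT (c k - μ)) ∧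
      ∀ k ∈ S, ∀ i, c k - 2 * (((Finset.range i).filter fun l => κ l = k).card : ℤ) ≤ s i := by
  classical
  have hpick : ∀ l : K → ℕ, ∃ k ∈ S, ∀ k' ∈ S, c k' - 2 * (l k' : ℤ) ≤ c k - 2 * (l k : ℤ) :=
    fun l => Finset.exists_max_image S (fun k => c k - 2 * (l k : ℤ)) hS
  choose pick hp1 hp2 using hpick
  obtain ⟨L, hL0, hLs⟩ : ∃ L : ℕ → K → ℕ, (∀ k, L 0 k = 0) ∧
      ∀ i k, L (i + 1) k = L i k + if pick (L i) = k then 1 else 0 :=
    ⟨fun i => Nat.rec (motive := fun _ => K → ℕ) (fun _ => 0)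
      (fun _ l k => l k + if pick l = k then 1 else 0) i, fun _ => rfl, fun _ _ => rfl⟩
  have hcount : ∀ i k, ((Finset.range i).filter fun l => pick (L l) = k).card = L i k := by
    intro i k
    induction i with
    | zero => simp [hL0]
    | succ i ih =>
      rw [hLs, Finset.range_add_one, Finset.filter_insert]
      split_ifs with h
      · rw [Finset.card_insert_of_notMem (by simp), ih]
      · rw [ih, add_zero]
  let sq : ℕ → ℤ := fun i => max μ (c (pick (L i)) - 2 * ((L i (pick (L i)) : ℕ) : ℤ))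
  refine ⟨fun i => pick (L i), sq, fun i => hp1 _, fun i => le_max_left _ _, ?_, ?_⟩
  · have key : ∀ m : ℕ, ∑ i ∈ Finset.range m, max μ (c (pick (L i)) - 2 * (L i (pick (L i)) : ℤ)) +
        ∑ k ∈ S, TT (c k - μ - 2 * (L m k : ℤ)) ≤ m * μ + ∑ k ∈ S, TT (c k - μ) := by
      intro m
      induction m with
      | zero => simp [hL0]
      | succ m ih =>
        rw [Finset.sum_range_succ]
        have h1 : ∑ k ∈ S, TT (c k - μ - 2 * (L (m + 1) k : ℤ)) =
            ∑ k ∈ S, TT (c k - μ - 2 * (L m k : ℤ)) -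
              max 0 (c (pick (L m)) - μ - 2 * (L m (pick (L m)) : ℤ)) := by
          rw [← Finset.add_sum_erase S _ (hp1 (L m)), ← Finset.add_sum_erase S _ (hp1 (L m))]
          rw [Finset.sum_congr rfl (g := fun k => TT (c k - μ - 2 * (L m k : ℤ))) (fun k hk => ?_)]
          · have h2 := D1_TT_step (c (pick (L m)) - μ - 2 * (L m (pick (L m)) : ℤ))
            have h3 : c (pick (L m)) - μ - 2 * (L (m + 1) (pick (L m)) : ℤ) =
                c (pick (L m)) - μ - 2 * (L m (pick (L m)) : ℤ) - 2 := by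
              rw [hLs, if_pos rfl]; push_cast; ring
            rw [h3]
            linarith
          · have h2 : pick (L m) ≠ k := (Finset.ne_of_mem_erase hk).symm
            simp only [hLs, if_neg h2, add_zero]
        rw [h1]
        have h4 : max μ (c (pick (L m)) - 2 * (L m (pick (L m)) : ℤ)) =
            μ + max 0 (c (pick (L m)) - μ - 2 * (L m (pick (L m)) : ℤ)) := by
          rcases le_total μ (c (pick (L m)) - 2 * (L m (pick (L m)) : ℤ)) with h | h
          · rw [max_eq_right h, max_eq_right (by linarith)]; ring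
          · rw [max_eq_left h, max_eq_left (by linarith)]; ring
        rw [h4]
        push_cast
        linarith
    have h5 : 0 ≤ ∑ k ∈ S, TT (c k - μ - 2 * (L m k : ℤ)) :=
      Finset.sum_nonneg fun _ _ => D1_TT_nonneg _
    linarith [key m]
  · intro k hk i
    rw [hcount]
    exact (hp2 (L i) k hk).trans (le_max_right _ _)

end Pool.Agent.H336R2.HD
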