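import Pool.Agent.H336R2.HD.E3Com

/-! Task E3B. -/

open Polynomial Pool.Agent.H337R2

namespace Pool.Agent.H336R2.HD

noncomputable section


lemma E3_small_ineq (P z1 z2 : ℤ) (h1 : z1 = 0 ∨ z1 = 1) (h2 : z2 = 0 ∨ z2 = 1) :
    TT ((6 * P - 3 * (z1 + z2)) - 1) ≤ 9 * P ^ 2 - 9 * (P * (z1 + z2)) + 2 * (z1 + z2) + 5 * (z1 * z2) := by
  refine (E3_TT_le _).trans ?_
  have e : (6 * P - 3 * (z1 + z2)) ^ 2 = 9 * (z1 + z2) ^ 2 + 4 * (9 * P ^ 2 - 9 * (P * (z1 + z2))) := by ring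
  rw [e, Int.add_mul_ediv_left _ _ (by norm_num)]
  rcases h1 with rfl | rfl <;> rcases h2 with rfl | rfl <;> norm_num <;> linarith

theorem E3_B : ∃ K0 : ℝ, ∀ n p : ℕ, p.Prime → 7 ≤ n → 2 * n ≤ p → p < 5 * n → 12 * n < p ^ 2 → ∀ μ : ℤ,
    μ = 3 - (6 * ((6 * n / p : ℕ) : ℤ) - 6 * ((2 * n / p : ℕ) : ℤ)) →
    ((((6 * n - 6 : ℕ) : ℤ) * μ + ∑ κ ∈ Kset n p, TT (2 - eeN p n κ - μ) : ℤ) : ℝ) ≤ EB n p + K0 := by
  refine ⟨10 ^ 6, ?_⟩
  intro n p hp hn hp2n hp5n hp2 μ hμ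
  have hpn : n < 20 * p := by omega
  have hb := E3_bound hp hn hpn (by omega) hp2 μ hμ
  have hn1 : 1 ≤ n := by omega
  have hP := E3_P2 hn1 hp hpn
  have h12 := E3_z12 hn1 hp hpn
  have hPz := E3_Pz hn1 hp hpn
  have hp2n' : 2 * n < p := by
    rcases hp2n.lt_or_eq with h | h
    · exact h
    · exfalso
      have h2 : 2 ∣ p := ⟨n, h.symm⟩
      have := (Nat.prime_dvd_prime_iff_eq Nat.prime_two hp).1 h2
      omega
  have hz1 : ∀ r, (cz1 n p r : ℤ) = 0 ∨ (cz1 n p r : ℤ) = 1 := by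
    intro r
    have := E3_cnt_le_one p 1 (2 * n) r hp.pos (by omega)
    unfold cz1
    omega
  have hz2 : ∀ r, (cz2 n p r : ℤ) = 0 ∨ (cz2 n p r : ℤ) = 1 := by
    intro r
    have := E3_cnt_le_one p (10 * n) (12 * n - 1) r hp.pos (by omega)
    unfold cz2
    omega
  have hs1 : ∑ r ∈ Finset.range p, (cz1 n p r : ℝ) = 2 * n := by
    have h := E3_sum_cnt p 1 (2 * n) hp.pos
    have h' : 2 * n + 1 - 1 = 2 * n := by omega
    rw [h'] at h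
    unfold cz1
    exact_mod_cast h
  have hs2 : ∑ r ∈ Finset.range p, (cz2 n p r : ℝ) = 2 * n := by
    have h := E3_sum_cnt p (10 * n) (12 * n - 1) hp.pos
    have h' : 12 * n - 1 + 1 - 10 * n = 2 * n := by omega
    rw [h'] at h
    unfold cz2
    exact_mod_cast h
  have hsum : ((∑ r ∈ Finset.range p, TT ((6 * (cP n p r : ℤ) - 3 * ((cz1 n p r : ℤ) + cz2 n p r)) - 1) : ℤ) : ℝ) ≤
      9 * ∑ r ∈ Finset.range p, (cP n p r : ℝ) ^ 2 - 9 * ∑ r ∈ Finset.range p, (cP n p r : ℝ) * (cz1 n p r + cz2 n p r)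
      + 2 * (∑ r ∈ Finset.range p, (cz1 n p r : ℝ) + ∑ r ∈ Finset.range p, (cz2 n p r : ℝ))
      + 5 * ∑ r ∈ Finset.range p, (cz1 n p r : ℝ) * cz2 n p r := by
    push_cast
    have : ∀ r ∈ Finset.range p, ((TT ((6 * (cP n p r : ℤ) - 3 * ((cz1 n p r : ℤ) + cz2 n p r)) - 1) : ℤ) : ℝ) ≤
        9 * (cP n p r : ℝ) ^ 2 - 9 * ((cP n p r : ℝ) * (cz1 n p r + cz2 n p r)) +
        2 * ((cz1 n p r : ℝ) + cz2 n p r) + 5 * ((cz1 n p r : ℝ) * cz2 n p r) := by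
      intro r _
      exact_mod_cast E3_small_ineq (cP n p r : ℤ) _ _ (hz1 r) (hz2 r)
    refine (Finset.sum_le_sum this).trans (le_of_eq ?_)
    simp only [Finset.sum_add_distrib, Finset.sum_sub_distrib, ← Finset.mul_sum]
  have hbR : 2 * ((∑ κ ∈ Kset n p, TT (2 - eeN p n κ - μ) : ℤ) : ℝ) ≤
      ((∑ r ∈ Finset.range p, TT ((6 * (cP n p r : ℤ) - 3 * ((cz1 n p r : ℤ) + cz2 n p r)) - 1) : ℤ) : ℝ) + 726 ^ 2 := by
    exact_mod_cast hb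
  have ha : ((6 * n / p : ℕ) : ℝ) ≤ 120 := by
    have : 6 * n / p ≤ 120 := by
      apply Nat.div_le_of_le_mul
      nlinarith
    exact_mod_cast this
  have hb0 : ((2 * n / p : ℕ) : ℝ) = 0 := by
    rw [Nat.div_eq_of_lt hp2n']
    simp
  have h6 : ((6 * n - 6 : ℕ) : ℝ) = 6 * n - 6 := by
    rw [Nat.cast_sub (by omega)]
    push_cast
    ring
  have hμR : (μ : ℝ) = 3 - (6 * ((6 * n / p : ℕ) : ℝ) - 6 * ((2 * n / p : ℕ) : ℝ)) := by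
    rw [hμ]
    simp only [Int.cast_sub, Int.cast_mul, Int.cast_natCast, Int.cast_ofNat]
  unfold EB
  rw [Int.cast_add, Int.cast_mul, Int.cast_natCast, h6, hμR, hb0]
  set a : ℝ := ((6 * n / p : ℕ) : ℝ)
  have e1 : (6 * (n : ℝ) - 6) * (3 - (6 * a - 6 * 0)) = 18 * n - 36 * n * a - 18 + 36 * a := by
    ring
  rw [e1]
  linarith

end

end Pool.Agent.H336R2.HD
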