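import Pool.Agent.H336R2.HD.D2

/-! Common part of the tasks E3A, E3B. -/

open Polynomial Pool.Agent.H337R2

namespace Pool.Agent.H336R2.HD

noncomputable section

/-- poles in the class -/
def cP (n p r : ℕ) : ℕ := cnt p (3 * n) (9 * n) r
/-- zeros in the class, first interval -/
def cz1 (n p r : ℕ) : ℕ := cnt p 1 (2 * n) r
/-- zeros in the class, second interval -/
def cz2 (n p r : ℕ) : ℕ := cnt p (10 * n) (12 * n - 1) r

lemma E3_ee_form (n p k : ℕ) : eeN p n k =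
    3 * ((cz1 n p k : ℤ) + cz2 n p k) - 6 * cP n p k - 6 * ((2 * n / p : ℕ) : ℤ)
      + 6 * ((6 * n / p : ℕ) : ℤ) := by
  unfold eeN ee n1 nq cz1 cz2 cP
  have h1 : 12 * n - 2 * n = 10 * n := by omega
  have h2 : 12 * n - 3 * n = 9 * n := by omega
  simp only [h1, h2, List.map_cons, List.map_nil, List.sum_cons, List.sum_nil]
  push_cast
  norm_num
  ring

lemma E3_TT_le (y : ℤ) : TT (y - 1) ≤ y ^ 2 / 4 := by
  unfold TT
  split_ifs
  · rw [sub_add_cancel]
  · positivity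

lemma E3_TT_le' (y B : ℤ) (hB : 0 ≤ B) (hy : y ≤ B) : TT (y - 1) ≤ B ^ 2 := by
  unfold TT
  split_ifs with h
  · rw [sub_add_cancel]
    have h1 : y ^ 2 ≤ B ^ 2 := by nlinarith
    have h2 : y ^ 2 / 4 ≤ y ^ 2 := Int.ediv_le_self _ (by positivity)
    linarith
  · positivity

lemma E3_cnt_le (p A B r : ℕ) (hp : 0 < p) (hAB : A ≤ B + 1) :
    (cnt p A B r : ℤ) ≤ ((B : ℤ) - A + 1) / p + 1 := by
  have hp' : (0 : ℤ) < p := by exact_mod_cast hp
  rw [cnt_eq p A B r hp hAB]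
  have h1 := ediv_sub1 ((B : ℤ) - A + 1) ((A : ℤ) - 1 - r) p hp'
  have h2 : (B : ℤ) - A + 1 + (A - 1 - r) = B - r := by ring
  have h3 : ((B : ℤ) - r) / p ≤ ((B : ℤ) - r + 1) / p := Int.ediv_le_ediv hp' (by linarith)
  rw [h2] at h1
  linarith

lemma E3_cnt_le_one (p A B r : ℕ) (hp : 0 < p) (hAB : B < A + p) : cnt p A B r ≤ 1 := by
  unfold cnt
  rw [Finset.card_le_one]
  intro a ha b hb
  rw [Finset.mem_filter, Finset.mem_Icc] at ha hb
  have h1 : (p : ℤ) ∣ (a : ℤ) - b := by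
    have := dvd_sub ha.2 hb.2
    simpa using this
  have h2 : (a : ℤ) - b = 0 := by
    apply Int.eq_zero_of_abs_lt_dvd h1
    rw [abs_lt]
    constructor <;> omega
  omega

lemma E3_sum_cnt (p A B : ℕ) (hp : 0 < p) :
    ∑ r ∈ Finset.range p, cnt p A B r = B + 1 - A := by
  have h := Finset.card_eq_sum_card_fiberwise (s := Finset.Icc A B) (t := Finset.range p)
    (f := fun m => m % p) (by
      intro m _
      simp only [Finset.coe_range, Set.mem_Iio]
      exact Nat.mod_lt _ hp)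
  rw [Nat.card_Icc] at h
  rw [h]
  apply Finset.sum_congr rfl
  intro r hr
  rw [Finset.mem_range] at hr
  unfold cnt
  congr 1
  apply Finset.filter_congr
  intro m _
  constructor
  · intro h1
    have : (r : ℤ) ≡ m [ZMOD p] := by
      rw [Int.modEq_iff_dvd]; exact h1
    have h2 := (Int.natCast_modEq_iff).1 this
    have h3 : r % p = m % p := h2
    rw [← h3, Nat.mod_eq_of_lt hr]
  · intro h1
    have : (r : ℤ) ≡ m [ZMOD p] := by
      apply (Int.natCast_modEq_iff).2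
      show r % p = m % p
      rw [h1, Nat.mod_eq_of_lt hr]
    rwa [Int.modEq_iff_dvd] at this

lemma E3_form (n p r : ℕ) (μ : ℤ) (hμ : μ = 3 - (6 * ((6 * n / p : ℕ) : ℤ) - 6 * ((2 * n / p : ℕ) : ℤ))) :
    2 - eeN p n r - μ = (6 * (cP n p r : ℤ) - 3 * ((cz1 n p r : ℤ) + cz2 n p r)) - 1 := by
  rw [E3_ee_form, hμ]; ring

lemma E3_sym (n p r : ℕ) (hn : 1 ≤ n) (hr : r < p) (hp : p < 12 * n) :
    eeN p n r = eeN p n ((12 * n - r) % p) := by
  rw [D2_ee_congr (Nat.mod_mod (12 * n - r) p), D2_ee_refl hn (by omega)]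

end

end Pool.Agent.H336R2.HD
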