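import Pool.Agent.H336R2.HD.Defs

/-! Task F1f: floor sums over primes. -/

open Polynomial Pool.Agent.H337R2 Filter Topology

namespace Pool.Agent.H336R2.HD

noncomputable section

namespace F1f

theorem mem_PS (lo hi : ℝ) (n p : ℕ) :
    p ∈ PS lo hi n ↔ p < 13 * n ∧ p.Prime ∧ lo * n < p ∧ (p : ℝ) < hi * n := by
  unfold PS
  rw [Finset.mem_filter, Finset.mem_range]

theorem floor_sum (α n p : ℕ) (hα : α ≤ 12) (hp : 0 < p) (hn : n < 20 * p) :
    ((α * n / p : ℕ) : ℝ) = ∑ j ∈ J, if j * p ≤ α * n then (1 : ℝ) else 0 := by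
  have h1 : α * n / p ≤ 240 := by
    have h2 : α * n ≤ 12 * n := Nat.mul_le_mul_right _ hα
    have h3 : α * n < p * 240 := by omega
    exact (Nat.div_lt_of_lt_mul h3).le
  rw [Finset.sum_ite, Finset.sum_const_zero, add_zero, Finset.sum_const, nsmul_eq_mul, mul_one]
  have h4 : (J.filter fun j => j * p ≤ α * n) = Finset.Icc 1 (α * n / p) := by
    ext j
    simp only [Finset.mem_filter, Finset.mem_Icc]
    rw [← Nat.le_div_iff_mul_le hp]
    constructor
    · rintro ⟨⟨h5, _⟩, h6⟩; exact ⟨h5, h6⟩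
    · rintro ⟨h5, h6⟩; exact ⟨⟨h5, by omega⟩, h6⟩
  rw [h4, Nat.card_Icc]
  simp

theorem log_div_tendsto : Tendsto (fun n : ℕ => Real.log (13 * n) / (n : ℝ)) atTop (𝓝 0) := by
  have h1 := Real.tendsto_pow_log_div_mul_add_atTop (1 / 13 : ℝ) 0 1 (by norm_num)
  have h2 : Tendsto (fun n : ℕ => (13 : ℝ) * n) atTop atTop :=
    tendsto_natCast_atTop_atTop.const_mul_atTop (by norm_num)
  have h3 := h1.comp h2
  refine h3.congr ?_
  intro n
  simp only [Function.comp, pow_one, add_zero]
  congr 1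
  ring

variable (hF : ∀ (lo hi : ℚ), 0 < lo → lo ≤ hi → hi ≤ 12 →
    Tendsto (fun n : ℕ => (∑ p ∈ PS lo hi n, (n : ℝ) * Real.log p) / (n : ℝ) ^ 2) atTop
      (𝓝 (((hi - lo : ℚ)) : ℝ)))

include hF

theorem one_j (α j : ℕ) (hα : α ≤ 12) (hj : 1 ≤ j) (lo hi : ℚ) (h0 : 0 < lo) (h1 : lo ≤ hi)
    (h2 : hi ≤ 12) :
    Tendsto (fun n : ℕ => (∑ p ∈ PS lo hi n, if j * p ≤ α * n then (n : ℝ) * Real.log p else 0) /
      (n : ℝ) ^ 2) atTop (𝓝 ((max lo (min hi ((α : ℚ) / j)) - lo : ℚ) : ℝ)) := by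
  classical
  obtain ⟨c, hc⟩ : ∃ c : ℚ, c = max lo (min hi ((α : ℚ) / j)) := ⟨_, rfl⟩
  have hclo : lo ≤ c := by rw [hc]; exact le_max_left _ _
  have hchi : c ≤ hi := by rw [hc]; exact max_le h1 (min_le_left _ _)
  rw [← hc]
  have hlow := hF lo c h0 hclo (le_trans hchi h2)
  have hup := hlow.add log_div_tendsto
  rw [add_zero] at hup
  have hj0 : (0 : ℝ) < j := by exact_mod_cast hj
  have hlognn : ∀ p : ℕ, 0 ≤ Real.log (p : ℝ) := fun p => Real.log_natCast_nonneg p
  refine tendsto_of_tendsto_of_tendsto_of_le_of_le' hlow hup ?_ ?_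
  · refine Eventually.of_forall fun n => ?_
    refine div_le_div_of_nonneg_right ?_ (by positivity)
    rw [← Finset.sum_filter]
    apply Finset.sum_le_sum_of_subset_of_nonneg
    · intro p hp
      rw [mem_PS] at hp
      obtain ⟨a1, a2, a3, a4⟩ := hp
      have hn0 : (0 : ℝ) < n := by
        rcases Nat.eq_zero_or_pos n with h | h
        · exfalso
          rw [h] at a1
          omega
        · exact_mod_cast h
      have hcl : lo < c := by
        have h3 : (lo : ℝ) * n < c * n := lt_trans a3 a4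
        exact_mod_cast lt_of_mul_lt_mul_right h3 hn0.le
      have hcm : c ≤ min hi ((α : ℚ) / j) := by
        rcases le_total lo (min hi ((α : ℚ) / j)) with h | h
        · rw [hc, max_eq_right h]
        · rw [max_eq_left h] at hc
          exact absurd hcl (by rw [hc]; exact lt_irrefl _)
      have hc1 : (c : ℝ) ≤ (α : ℝ) / j := by
        have h3 : c ≤ (α : ℚ) / j := le_trans hcm (min_le_right _ _)
        have h4 : (c : ℝ) ≤ (((α : ℚ) / j : ℚ) : ℝ) := Rat.cast_le.2 h3
        push_cast at h4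
        exact h4
      have hc2 : (c : ℝ) ≤ hi := by exact_mod_cast hchi
      rw [Finset.mem_filter, mem_PS]
      refine ⟨⟨a1, a2, a3, lt_of_lt_of_le a4 (mul_le_mul_of_nonneg_right hc2 hn0.le)⟩, ?_⟩
      have h5 : (p : ℝ) < (α : ℝ) / j * n := lt_of_lt_of_le a4
        (mul_le_mul_of_nonneg_right hc1 hn0.le)
      have h6 : (j : ℝ) * p < α * n := by
        rw [div_mul_eq_mul_div, lt_div_iff₀ hj0] at h5
        linarith
      have h7 : ((j * p : ℕ) : ℝ) < ((α * n : ℕ) : ℝ) := by push_cast; exact h6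
      exact (Nat.cast_lt.1 h7).le
    · intro p _ _
      exact mul_nonneg (Nat.cast_nonneg _) (hlognn p)
  · filter_upwards [eventually_ge_atTop 1] with n hn
    have hn0 : (0 : ℝ) < n := by exact_mod_cast hn
    have h13 : 0 ≤ Real.log (13 * (n : ℝ)) := by
      apply Real.log_nonneg
      have : (1 : ℝ) ≤ n := by exact_mod_cast hn
      linarith
    have hb : (∑ p ∈ PS lo hi n, if j * p ≤ α * n then (n : ℝ) * Real.log p else 0) ≤
        (∑ p ∈ PS lo c n, (n : ℝ) * Real.log p) + n * Real.log (13 * n) := by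
      rw [← Finset.sum_filter]
      have hsub : (PS lo hi n).filter (fun p => j * p ≤ α * n) ⊆
          PS lo c n ∪ {α * n / j} := by
        intro p hp
        rw [Finset.mem_filter, mem_PS] at hp
        obtain ⟨⟨a1, a2, a3, a4⟩, a5⟩ := hp
        rw [Finset.mem_union, Finset.mem_singleton, mem_PS]
        rcases Nat.eq_or_lt_of_le a5 with h | h
        · right
          rw [← h]
          exact (Nat.mul_div_cancel_left p (by omega)).symm
        · left
          refine ⟨a1, a2, a3, ?_⟩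
          have h5 : (p : ℝ) < (α : ℝ) / j * n := by
            rw [div_mul_eq_mul_div, lt_div_iff₀ hj0]
            have : ((j * p : ℕ) : ℝ) < ((α * n : ℕ) : ℝ) := Nat.cast_lt.2 h
            push_cast at this
            linarith
          have h6 : (c : ℝ) = max (lo : ℝ) (min (hi : ℝ) ((α : ℝ) / j)) := by
            rw [hc]; push_cast; rfl
          rw [h6]
          have h7 : (p : ℝ) < min (hi : ℝ) ((α : ℝ) / j) * n := by
            rcases le_total (hi : ℝ) ((α : ℝ) / j) with h8 | h8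
            · rw [min_eq_left h8]; exact a4
            · rw [min_eq_right h8]; exact h5
          exact lt_of_lt_of_le h7 (mul_le_mul_of_nonneg_right (le_max_right _ _) hn0.le)
      refine le_trans (Finset.sum_le_sum_of_subset_of_nonneg hsub ?_) ?_
      · intro p _ _
        exact mul_nonneg (Nat.cast_nonneg _) (hlognn p)
      · have hui := Finset.sum_union_inter (s₁ := PS lo c n) (s₂ := {α * n / j})
          (f := fun p : ℕ => (n : ℝ) * Real.log p)
        have hint : 0 ≤ ∑ p ∈ PS lo c n ∩ {α * n / j}, (n : ℝ) * Real.log p :=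
          Finset.sum_nonneg fun p _ => mul_nonneg (Nat.cast_nonneg _) (hlognn p)
        refine le_trans (b := (∑ p ∈ PS lo c n, (n : ℝ) * Real.log p) +
          ∑ p ∈ ({α * n / j} : Finset ℕ), (n : ℝ) * Real.log p) (by linarith) ?_
        · rw [Finset.sum_singleton]
          apply add_le_add_right
          apply mul_le_mul_of_nonneg_left _ hn0.le
          rcases Nat.eq_zero_or_pos (α * n / j) with h | h
          · rw [h]; simpa using h13
          · apply Real.log_le_log (by exact_mod_cast h)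
            have h8 : α * n / j ≤ 13 * n := by
              refine le_trans (Nat.div_le_self _ _) ?_
              exact Nat.mul_le_mul_right _ (by omega)
            exact_mod_cast h8
    calc (∑ p ∈ PS lo hi n, if j * p ≤ α * n then (n : ℝ) * Real.log p else 0) / (n : ℝ) ^ 2
        ≤ ((∑ p ∈ PS lo c n, (n : ℝ) * Real.log p) + n * Real.log (13 * n)) / (n : ℝ) ^ 2 :=
          div_le_div_of_nonneg_right hb (by positivity)
      _ = _ := by
          rw [add_div]
          congr 1
          field_simp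

theorem F1_floor_of (α : ℕ) (lo hi : ℚ) (h0 : 1 / 20 ≤ lo) (h1 : lo ≤ hi) (h2 : hi ≤ 12)
    (hα : α ≤ 12) :
    Tendsto (fun n : ℕ => (∑ p ∈ PS lo hi n, (n : ℝ) * ((α * n / p : ℕ) : ℝ) * Real.log p) /
      (n : ℝ) ^ 2) atTop (𝓝 ((Ifl α lo hi : ℚ) : ℝ)) := by
  classical
  have hlo : 0 < lo := lt_of_lt_of_le (by norm_num) h0
  have hsum : Tendsto (fun n : ℕ => ∑ j ∈ J, (∑ p ∈ PS lo hi n,
      if j * p ≤ α * n then (n : ℝ) * Real.log p else 0) / (n : ℝ) ^ 2) atTop
      (𝓝 (∑ j ∈ J, ((max lo (min hi ((α : ℚ) / j)) - lo : ℚ) : ℝ))) := by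
    apply tendsto_finsetSum
    intro j hj
    exact one_j hF α j hα (Finset.mem_Icc.1 hj).1 lo hi hlo h1 h2
  have hlim : (∑ j ∈ J, ((max lo (min hi ((α : ℚ) / j)) - lo : ℚ) : ℝ)) =
      ((Ifl α lo hi : ℚ) : ℝ) := by
    unfold Ifl
    push_cast
    rfl
  rw [hlim] at hsum
  refine hsum.congr ?_
  intro n
  rw [← Finset.sum_div, Finset.sum_comm]
  congr 1
  apply Finset.sum_congr rfl
  intro p hp
  rw [mem_PS] at hp
  obtain ⟨a1, a2, a3, a4⟩ := hp
  have hn20 : n < 20 * p := by
    have h5 : (1 / 20 : ℝ) ≤ lo := by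
      have : ((1 / 20 : ℚ) : ℝ) ≤ (lo : ℝ) := by exact_mod_cast h0
      push_cast at this
      exact this
    have h6 : (1 / 20 : ℝ) * n ≤ lo * n := mul_le_mul_of_nonneg_right h5 (Nat.cast_nonneg _)
    have h7 : (n : ℝ) < 20 * p := by linarith
    exact_mod_cast h7
  rw [floor_sum α n p hα a2.pos hn20, Finset.mul_sum, Finset.sum_mul]
  apply Finset.sum_congr rfl
  intro j _
  split_ifs
  · ring
  · ring

end F1f

end

end Pool.Agent.H336R2.HD
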