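import Pool.Agent.H336R2.HD.F2pre
import Pool.Agent.H336R2.HD.F1
import Pool.Agent.H336R2.HD.F1f

/-! `F2_A`, `F2_B`, `F2_C`, `F2_U`. -/

open Filter Topology

namespace Pool.Agent.H336R2.HD

noncomputable section

theorem F1_floor (α : ℕ) (lo hi : ℚ) (h0 : 1 / 20 ≤ lo) (h1 : lo ≤ hi) (h2 : hi ≤ 12) (hα : α ≤ 12) :
    Tendsto (fun n : ℕ => (∑ p ∈ PS lo hi n, (n : ℝ) * ((α * n / p : ℕ) : ℝ) * Real.log p) / (n : ℝ) ^ 2) atTop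
      (𝓝 ((Ifl α lo hi : ℚ) : ℝ)) :=
  F1f.F1_floor_of (fun lo hi a b c => F1_const lo hi a b c) α lo hi h0 h1 h2 hα

theorem F2_A : Tendsto (fun n : ℕ => (∑ p ∈ PS (1 / 20) 2 n, EA n p * Real.log p) / (n : ℝ) ^ 2) atTop (𝓝 (LA : ℝ)) :=
  F2_A_of F1_tent F1_const F1_floor

theorem F2_B : Tendsto (fun n : ℕ => (∑ p ∈ PS 2 5 n, EB n p * Real.log p) / (n : ℝ) ^ 2) atTop (𝓝 (LB : ℝ)) :=
  F2_B_of F1_tent F1_const F1_floor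

theorem F2_C : Tendsto (fun n : ℕ => (∑ p ∈ PS 5 7 n, EC n p * Real.log p) / (n : ℝ) ^ 2) atTop (𝓝 (LC : ℝ)) :=
  F2_C_of F1_tent F1_floor

theorem F2_U : Tendsto (fun n : ℕ => (∑ p ∈ PS (1 / 20) 12 n, (∑ j ∈ J, tn (12 * n) j p) * Real.log p) / (n : ℝ) ^ 2)
    atTop (𝓝 (LU : ℝ)) :=
  F2_U_of F1_tent

end

end Pool.Agent.H336R2.HD
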