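import Pool.Agent.H336R2.HD.FL

/-!
# Linear combinations of the prime sums

The statements `F2_A`, `F2_B`, `F2_C`, `F2_U` from the three elementary limits `F1_tent`, `F1_const`, `F1_floor`
(taken here as hypotheses).
-/

open Filter Topology

namespace Pool.Agent.H336R2.HD

noncomputable section

/-- the statement of `F1_tent` -/
def F1T : Prop := ∀ (α j : ℕ) (_ : 1 ≤ j) (lo hi : ℚ) (_ : 0 < lo) (_ : lo ≤ hi) (_ : hi ≤ 12),
    Tendsto (fun n : ℕ => (∑ p ∈ PS lo hi n, tn (α * n) j p * Real.log p) / (n : ℝ) ^ 2) atTop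
      (𝓝 ((It α j lo hi : ℚ) : ℝ))

/-- the statement of `F1_const` -/
def F1C : Prop := ∀ (lo hi : ℚ) (_ : 0 < lo) (_ : lo ≤ hi) (_ : hi ≤ 12),
    Tendsto (fun n : ℕ => (∑ p ∈ PS lo hi n, (n : ℝ) * Real.log p) / (n : ℝ) ^ 2) atTop
      (𝓝 (((hi - lo : ℚ)) : ℝ))

/-- the statement of `F1_floor` -/
def F1F : Prop := ∀ (α : ℕ) (lo hi : ℚ) (_ : 1 / 20 ≤ lo) (_ : lo ≤ hi) (_ : hi ≤ 12) (_ : α ≤ 12),
    Tendsto (fun n : ℕ => (∑ p ∈ PS lo hi n, (n : ℝ) * ((α * n / p : ℕ) : ℝ) * Real.log p) / (n : ℝ) ^ 2) atTop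
      (𝓝 ((Ifl α lo hi : ℚ) : ℝ))

/-- `lim (∑ f n p log p) / n² = L` -/
def Lm (s : ℕ → Finset ℕ) (f : ℕ → ℕ → ℝ) (L : ℝ) : Prop :=
  Tendsto (fun n : ℕ => (∑ p ∈ s n, f n p * Real.log p) / (n : ℝ) ^ 2) atTop (𝓝 L)

lemma Lm.add {s : ℕ → Finset ℕ} {f g : ℕ → ℕ → ℝ} {L M : ℝ} (hf : Lm s f L) (hg : Lm s g M) :
    Lm s (fun n p => f n p + g n p) (L + M) := by
  have h := Tendsto.add hf hg
  refine h.congr fun n => ?_
  rw [← add_div, ← Finset.sum_add_distrib]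
  congr 1
  exact Finset.sum_congr rfl fun p _ => by ring

lemma Lm.sub {s : ℕ → Finset ℕ} {f g : ℕ → ℕ → ℝ} {L M : ℝ} (hf : Lm s f L) (hg : Lm s g M) :
    Lm s (fun n p => f n p - g n p) (L - M) := by
  have h := Tendsto.sub hf hg
  refine h.congr fun n => ?_
  rw [← sub_div, ← Finset.sum_sub_distrib]
  congr 1
  exact Finset.sum_congr rfl fun p _ => by ring

lemma Lm.mul {s : ℕ → Finset ℕ} {f : ℕ → ℕ → ℝ} {L : ℝ} (c : ℝ) (hf : Lm s f L) :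
    Lm s (fun n p => c * f n p) (c * L) := by
  have h := Tendsto.const_mul c hf
  refine h.congr fun n => ?_
  rw [← mul_div_assoc, Finset.mul_sum]
  congr 1
  exact Finset.sum_congr rfl fun p _ => by ring

lemma Lm.div {s : ℕ → Finset ℕ} {f : ℕ → ℕ → ℝ} {L : ℝ} (c : ℝ) (hf : Lm s f L) :
    Lm s (fun n p => f n p / c) (L / c) := by
  have h := Lm.mul (c⁻¹) hf
  have e1 : (fun n p => c⁻¹ * f n p) = (fun n p => f n p / c) := by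
    funext n p; rw [div_eq_inv_mul]
  have e2 : c⁻¹ * L = L / c := by rw [div_eq_inv_mul]
  rw [e1, e2] at h
  exact h

lemma Lm.sum {s : ℕ → Finset ℕ} (I : Finset ℕ) {f : ℕ → ℕ → ℕ → ℝ} {L : ℕ → ℝ}
    (h : ∀ j ∈ I, Lm s (f j) (L j)) :
    Lm s (fun n p => ∑ j ∈ I, f j n p) (∑ j ∈ I, L j) := by
  have h := tendsto_finsetSum I h
  refine h.congr fun n => ?_
  rw [← Finset.sum_div, Finset.sum_comm]
  congr 1
  exact Finset.sum_congr rfl fun p _ => by rw [Finset.sum_mul]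

lemma Lm.of_eq {s t : ℕ → Finset ℕ} {f g : ℕ → ℕ → ℝ} {L M : ℝ} (hf : Lm s f L) (hs : s = t)
    (hfg : ∀ n p, f n p = g n p) (hL : L = M) : Lm t g M := by
  subst hs; subst hL
  have : f = g := funext fun n => funext fun p => hfg n p
  subst this
  exact hf

theorem F2_A_of (hT : F1T) (hC : F1C) (hF : F1F) :
    Tendsto (fun n : ℕ => (∑ p ∈ PS (1 / 20) 2 n, EA n p * Real.log p) / (n : ℝ) ^ 2) atTop (𝓝 (LA : ℝ)) := by
  have T : ∀ α j : ℕ, j ∈ J → Lm (PS ((1 / 20 : ℚ) : ℝ) ((2 : ℚ) : ℝ)) (fun n p => tn (α * n) j p)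
      ((It α j (1 / 20) 2 : ℚ) : ℝ) := fun α j hj =>
    hT α j (Finset.mem_Icc.mp hj).1 (1 / 20) 2 (by norm_num) (by norm_num) (by norm_num)
  have T1 : ∀ j : ℕ, j ∈ J → Lm (PS ((1 / 20 : ℚ) : ℝ) ((2 : ℚ) : ℝ)) (fun n p => tn n j p)
      ((It 1 j (1 / 20) 2 : ℚ) : ℝ) := fun j hj =>
    (T 1 j hj).of_eq rfl (fun n p => by rw [one_mul]) rfl
  have F : ∀ α : ℕ, α ≤ 12 → Lm (PS ((1 / 20 : ℚ) : ℝ) ((2 : ℚ) : ℝ)) (fun n p => (n : ℝ) * ((α * n / p : ℕ) : ℝ))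
      ((Ifl α (1 / 20) 2 : ℚ) : ℝ) := fun α hα =>
    hF α (1 / 20) 2 (by norm_num) (by norm_num) (by norm_num) hα
  have K : Lm (PS ((1 / 20 : ℚ) : ℝ) ((2 : ℚ) : ℝ)) (fun n _ => (n : ℝ)) (((2 - 1 / 20 : ℚ)) : ℝ) :=
    hC (1 / 20) 2 (by norm_num) (by norm_num) (by norm_num)
  have S6 := Lm.sum J (fun j hj => T 6 j hj)
  have S2 := Lm.sum J (fun j hj => T 2 j hj)
  have SX := Lm.sum J (fun j hj => ((((T 9 j hj).add (T1 j hj)).sub (T 7 j hj)).sub (T 3 j hj)))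
  have SY := Lm.sum J (fun j hj => (((T 12 j hj).sub ((T 10 j hj).mul 2)).add (T 8 j hj)))
  have H := (((K.mul 18).sub ((F 6 (by norm_num)).mul 36)).add ((F 2 (by norm_num)).mul 36)).add
    ((((((K.mul 6).add (S6.mul 2)).mul 9).sub (SX.mul 18)).add
      ((((K.mul 4).add (S2.mul 4)).add (SY.mul 2)).mul (9 / 4))).div 2)
  refine Lm.of_eq H ?_ ?_ ?_
  · push_cast; rfl
  · intro n p
    unfold EA
    ring
  · unfold LA
    push_cast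
    ring

theorem F2_B_of (hT : F1T) (hC : F1C) (hF : F1F) :
    Tendsto (fun n : ℕ => (∑ p ∈ PS 2 5 n, EB n p * Real.log p) / (n : ℝ) ^ 2) atTop (𝓝 (LB : ℝ)) := by
  have T : ∀ α j : ℕ, j ∈ J → Lm (PS ((2 : ℚ) : ℝ) ((5 : ℚ) : ℝ)) (fun n p => tn (α * n) j p)
      ((It α j 2 5 : ℚ) : ℝ) := fun α j hj =>
    hT α j (Finset.mem_Icc.mp hj).1 2 5 (by norm_num) (by norm_num) (by norm_num)
  have T1 : ∀ j : ℕ, j ∈ J → Lm (PS ((2 : ℚ) : ℝ) ((5 : ℚ) : ℝ)) (fun n p => tn n j p)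
      ((It 1 j 2 5 : ℚ) : ℝ) := fun j hj =>
    (T 1 j hj).of_eq rfl (fun n p => by rw [one_mul]) rfl
  have F : ∀ α : ℕ, α ≤ 12 → Lm (PS ((2 : ℚ) : ℝ) ((5 : ℚ) : ℝ)) (fun n p => (n : ℝ) * ((α * n / p : ℕ) : ℝ))
      ((Ifl α 2 5 : ℚ) : ℝ) := fun α hα =>
    hF α 2 5 (by norm_num) (by norm_num) (by norm_num) hα
  have K : Lm (PS ((2 : ℚ) : ℝ) ((5 : ℚ) : ℝ)) (fun n _ => (n : ℝ)) (((5 - 2 : ℚ)) : ℝ) :=
    hC 2 5 (by norm_num) (by norm_num) (by norm_num)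
  have S6 := Lm.sum J (fun j hj => T 6 j hj)
  have SX := Lm.sum J (fun j hj => ((((T 9 j hj).add (T1 j hj)).sub (T 7 j hj)).sub (T 3 j hj)))
  have SY := Lm.sum J (fun j hj => (((T 12 j hj).sub ((T 10 j hj).mul 2)).add (T 8 j hj)))
  have H := ((K.mul 18).sub ((F 6 (by norm_num)).mul 36)).add
    ((((((K.mul 6).add (S6.mul 2)).mul 9).sub (SX.mul 18)).add
      ((K.mul 8).add (SY.mul 5))).div 2)
  refine Lm.of_eq H ?_ ?_ ?_
  · push_cast; rfl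
  · intro n p
    unfold EB
    ring
  · unfold LB
    push_cast
    ring

theorem F2_C_of (hT : F1T) (hF : F1F) :
    Tendsto (fun n : ℕ => (∑ p ∈ PS 5 7 n, EC n p * Real.log p) / (n : ℝ) ^ 2) atTop (𝓝 (LC : ℝ)) := by
  have T : ∀ α j : ℕ, j ∈ J → Lm (PS ((5 : ℚ) : ℝ) ((7 : ℚ) : ℝ)) (fun n p => tn (α * n) j p)
      ((It α j 5 7 : ℚ) : ℝ) := fun α j hj =>
    hT α j (Finset.mem_Icc.mp hj).1 5 7 (by norm_num) (by norm_num) (by norm_num)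
  have F : ∀ α : ℕ, α ≤ 12 → Lm (PS ((5 : ℚ) : ℝ) ((7 : ℚ) : ℝ)) (fun n p => (n : ℝ) * ((α * n / p : ℕ) : ℝ))
      ((Ifl α 5 7 : ℚ) : ℝ) := fun α hα =>
    hF α 5 7 (by norm_num) (by norm_num) (by norm_num) hα
  have H := (((F 6 (by norm_num)).mul (-36)).add ((T 6 1 (by decide)).mul 8)).add ((T 7 1 (by decide)).mul 20)
  refine Lm.of_eq H ?_ ?_ ?_
  · push_cast; rfl
  · intro n p
    unfold EC
    ring
  · unfold LC
    push_cast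
    ring

theorem F2_U_of (hT : F1T) :
    Tendsto (fun n : ℕ => (∑ p ∈ PS (1 / 20) 12 n, (∑ j ∈ J, tn (12 * n) j p) * Real.log p) / (n : ℝ) ^ 2)
      atTop (𝓝 (LU : ℝ)) := by
  have T : ∀ α j : ℕ, j ∈ J → Lm (PS ((1 / 20 : ℚ) : ℝ) ((12 : ℚ) : ℝ)) (fun n p => tn (α * n) j p)
      ((It α j (1 / 20) 12 : ℚ) : ℝ) := fun α j hj =>
    hT α j (Finset.mem_Icc.mp hj).1 (1 / 20) 12 (by norm_num) (by norm_num) (by norm_num)
  have H := Lm.sum J (fun j hj => T 12 j hj)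
  refine Lm.of_eq H ?_ ?_ ?_
  · push_cast; rfl
  · intro n p
    rfl
  · unfold LU
    push_cast
    rfl

end

end Pool.Agent.H336R2.HD
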