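import Pool.Agent.H336R2.HD.FL

/-! Task F3 (helper204): the numerical value of the four limits (`= 101.75416...`), by kernel
evaluation. -/

namespace Pool.Agent.H336R2.HD

theorem F3_numeric : LA + LB + LC + LU ≤ 10176 / 100 := by
  decide +kernel

end Pool.Agent.H336R2.HD
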