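import Pool.Agent.H336R2.HD.Defs

/-!
The four limits `LA`, `LB`, `LC`, `LU` (rational numbers).
-/

namespace Pool.Agent.H336R2.HD

noncomputable section

/-- the four limits -/
def LA : ℚ := 18 * (2 - 1 / 20) - 36 * Ifl 6 (1 / 20) 2 + 36 * Ifl 2 (1 / 20) 2 +
  (9 * (6 * (2 - 1 / 20) + 2 * ∑ j ∈ J, It 6 j (1 / 20) 2)
    - 18 * ∑ j ∈ J, (It 9 j (1 / 20) 2 + It 1 j (1 / 20) 2 - It 7 j (1 / 20) 2 - It 3 j (1 / 20) 2)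
    + 9 / 4 * (4 * (2 - 1 / 20) + 4 * ∑ j ∈ J, It 2 j (1 / 20) 2
      + 2 * ∑ j ∈ J, (It 12 j (1 / 20) 2 - 2 * It 10 j (1 / 20) 2 + It 8 j (1 / 20) 2))) / 2

def LB : ℚ := 18 * 3 - 36 * Ifl 6 2 5 +
  (9 * (6 * 3 + 2 * ∑ j ∈ J, It 6 j 2 5)
    - 18 * ∑ j ∈ J, (It 9 j 2 5 + It 1 j 2 5 - It 7 j 2 5 - It 3 j 2 5)
    + (8 * 3 + 5 * ∑ j ∈ J, (It 12 j 2 5 - 2 * It 10 j 2 5 + It 8 j 2 5))) / 2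

def LC : ℚ := - 36 * Ifl 6 5 7 + 8 * It 6 1 5 7 + 20 * It 7 1 5 7

def LU : ℚ := ∑ j ∈ J, It 12 j (1 / 20) 12

end

end Pool.Agent.H336R2.HD
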