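import Pool.Agent.H336R2.HD.Defs
import Pool.Agent.H337R2.Stir

/-! Task G1b (helper884): the value of `R` at `-1/2`. -/

open Polynomial Pool.Agent.H337R2 Filter Topology

namespace Pool.Agent.H336R2.HD

noncomputable section

namespace G1bAux

lemma zl_zero : zl 0 = algebraMap ℚ ℂ (-(1 / 2)) := by
  unfold zl
  simp

lemma norm_Rn_zero (n : ℕ) : ‖Rn n 0‖ =
    |(((PPn n).eval (-(1 / 2)) : ℚ) : ℝ)| / |(((QQ (sN n) (muN n)).eval (-(1 / 2)) : ℚ) : ℝ)| := by
  unfold Rn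
  rw [zl_zero, aeval_algebraMap_apply, aeval_algebraMap_apply, norm_div]
  simp only [coe_aeval_eq_eval, eq_ratCast, Complex.norm_ratCast]

lemma eval_PPn (n : ℕ) : (((PPn n).eval (-(1 / 2)) : ℚ) : ℝ) =
    (((6 * n).factorial : ℝ) ^ 6 / ((2 * n).factorial : ℝ) ^ 6) * (12 * n - 1) *
      ∏ m ∈ Finset.Icc 1 (2 * n), (((m : ℝ) - 1 / 2) ^ 3 * (12 * n - m - 1 / 2) ^ 3) := by
  unfold PPn PP NN cst
  simp only [eval_mul, eval_prod, eval_pow, eval_add, eval_X, eval_C, List.map_cons, List.map_nil,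
    List.prod_cons, List.prod_nil, eval_ofNat]
  push_cast
  have e1 : ∀ m : ℕ, (-(1 / 2) + (m : ℝ)) ^ 3 * (-(1 / 2) + (12 * (n : ℝ) - m)) ^ 3 =
    ((m : ℝ) - 1 / 2) ^ 3 * (12 * n - m - 1 / 2) ^ 3 := by intro m; ring
  simp only [e1]
  generalize (∏ m ∈ Finset.Icc 1 (2 * n), (((m : ℝ) - 1 / 2) ^ 3 * (12 * (n : ℝ) - m - 1 / 2) ^ 3)) = Z
  ring

lemma eval_QQ (n : ℕ) (hn : 1 ≤ n) : (((QQ (sN n) (muN n)).eval (-(1 / 2)) : ℚ) : ℝ) =
    (∏ k ∈ Finset.Icc (3 * n) (9 * n), ((k : ℝ) - 1 / 2)) ^ 6 := by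
  unfold QQ
  rw [eval_prod]
  simp only [eval_pow, eval_add, eval_X, eval_C]
  rw [prod_mu 12 2 n ds6 hn (by decide) (by decide)]
  simp only [List.map_cons, List.map_nil, List.prod_cons, List.prod_nil]
  have h1 : 12 * n - 3 * n = 9 * n := by omega
  rw [h1]
  push_cast
  have e1 : ∀ m : ℕ, (-(1 / 2) + (m : ℝ)) = (m : ℝ) - 1 / 2 := by intro m; ring
  simp only [e1]
  ring

lemma prod1 (L : ℕ) : ∏ m ∈ Finset.Icc 1 L, ((m : ℝ) - 1 / 2) ≤ (L.factorial : ℝ) := by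
  induction L with
  | zero => simp
  | succ L ih =>
    rw [Finset.prod_Icc_succ_top (by omega), Nat.factorial_succ]
    push_cast
    have h1 : (0 : ℝ) ≤ ∏ m ∈ Finset.Icc 1 L, ((m : ℝ) - 1 / 2) := by
      refine Finset.prod_nonneg fun m hm => ?_
      have : (1 : ℝ) ≤ m := by exact_mod_cast (Finset.mem_Icc.1 hm).1
      linarith
    have h2 : (0 : ℝ) ≤ (L : ℝ) := by positivity
    have h3 : (0 : ℝ) ≤ (L.factorial : ℝ) := by positivity
    nlinarith

end G1bAux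

open G1bAux

theorem G1_zero : ∃ (C : ℝ) (K : ℕ), 0 < C ∧ ∀ n : ℕ, 1 ≤ n →
    ‖Rn n 0‖ ≤ C * (n : ℝ) ^ K * Real.exp (n * Phi0) := by
  refine ⟨12 * (36 * Real.exp 1 ^ 2) ^ 6, 7, by positivity, fun n hn => ?_⟩
  have hn1 : (1 : ℝ) ≤ n := by exact_mod_cast hn
  have hn0 : (0 : ℝ) < n := by linarith
  rw [norm_Rn_zero, eval_PPn, eval_QQ n hn]
  have hB0 : (0 : ℝ) ≤ ∏ m ∈ Finset.Icc 1 (2 * n), ((m : ℝ) - 1 / 2) := by
    refine Finset.prod_nonneg fun m hm => ?_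
    have : (1 : ℝ) ≤ m := by exact_mod_cast (Finset.mem_Icc.1 hm).1
    linarith
  have hD0 : (0 : ℝ) ≤ ∏ m ∈ Finset.Icc 1 (2 * n), (12 * (n : ℝ) - m - 1 / 2) := by
    refine Finset.prod_nonneg fun m hm => ?_
    have : (m : ℝ) ≤ 2 * n := by exact_mod_cast (Finset.mem_Icc.1 hm).2
    linarith
  have hQ0 : (0 : ℝ) < ∏ k ∈ Finset.Icc (3 * n) (9 * n), ((k : ℝ) - 1 / 2) := by
    refine Finset.prod_pos fun m hm => ?_
    have : (3 : ℝ) * n ≤ m := by exact_mod_cast (Finset.mem_Icc.1 hm).1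
    linarith
  have hB := prod1 (2 * n)
  have hD : ∏ m ∈ Finset.Icc 1 (2 * n), (12 * (n : ℝ) - m - 1 / 2) ≤
      ((2 * n).factorial : ℝ) * Real.exp (xl (12 * n) - xl (10 * n) - xl (2 * n)) := by
    have h1 := L2 (12 * n) (2 * n) (by omega)
    push_cast at h1
    have e : (12 : ℝ) * n - 2 * n = 10 * n := by ring
    rw [e] at h1
    refine le_trans (Finset.prod_le_prod ?_ ?_) h1
    · intro m hm
      have : (m : ℝ) ≤ 2 * n := by exact_mod_cast (Finset.mem_Icc.1 hm).2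
      linarith
    · intro m _
      linarith
  have hQ : ((6 * n).factorial : ℝ) * (∏ k ∈ Finset.Icc (3 * n) (9 * n), ((k : ℝ) - 1 / 2))⁻¹ ≤
      36 * Real.exp 1 ^ 2 * n * Real.exp (xl (6 * n) + xl (3 * n) - xl (9 * n)) := by
    have h1 := L3 (3 * n - 1) (6 * n) (by omega)
    have hT : ((3 * n - 1 : ℕ) : ℝ) = 3 * n - 1 := by
      rw [Nat.cast_sub (by omega)]; push_cast; ring
    rw [hT] at h1
    push_cast at h1
    have h2 : (∏ k ∈ Finset.Icc (3 * n) (9 * n), ((k : ℝ) - 1 / 2))⁻¹ ≤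
        ∏ k ∈ Finset.Icc (3 * n - 1) (3 * n - 1 + 6 * n), ((k : ℝ))⁻¹ := by
      rw [Finset.prod_inv_distrib]
      have h3 : ∏ k ∈ Finset.Icc (3 * n - 1) (3 * n - 1 + 6 * n), (k : ℝ) =
          ∏ k ∈ Finset.Icc (3 * n) (9 * n), ((k : ℝ) - 1) := by
        apply Finset.prod_bij (fun k _ => k + 1)
        · intro k hk; rw [Finset.mem_Icc] at *; omega
        · intro a _ b _ h; omega
        · intro k hk; rw [Finset.mem_Icc] at hk
          exact ⟨k - 1, by rw [Finset.mem_Icc]; omega, by omega⟩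
        · intro k _; push_cast; ring
      rw [h3]
      apply inv_anti₀
      · refine Finset.prod_pos fun m hm => ?_
        have : (3 : ℝ) * n ≤ m := by exact_mod_cast (Finset.mem_Icc.1 hm).1
        linarith
      · apply Finset.prod_le_prod
        · intro m hm
          have : (3 : ℝ) * n ≤ m := by exact_mod_cast (Finset.mem_Icc.1 hm).1
          linarith
        · intro m _
          linarith
    have h4 : ((6 * n).factorial : ℝ) * (∏ k ∈ Finset.Icc (3 * n) (9 * n), ((k : ℝ) - 1 / 2))⁻¹ ≤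
        ((6 * n).factorial : ℝ) * ∏ k ∈ Finset.Icc (3 * n - 1) (3 * n - 1 + 6 * n), ((k : ℝ))⁻¹ :=
      mul_le_mul_of_nonneg_left h2 (by positivity)
    refine h4.trans (h1.trans ?_)
    have h5 : xl (3 * n - 1) ≤ xl (3 * n) := by
      unfold xl
      apply mul_le_mul (by linarith) (Real.log_le_log (by linarith) (by linarith))
        (Real.log_nonneg (by linarith)) (by positivity)
    have h6 : xl (9 * n) ≤ xl (3 * n - 1 + 6 * n) + 1 + Real.log (9 * n) := by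
      have := low_step (x := 9 * (n : ℝ) - 1) (by linarith)
      have e1 : 9 * (n : ℝ) - 1 + 1 = 9 * n := by ring
      have e2 : 3 * (n : ℝ) - 1 + 6 * n = 9 * n - 1 := by ring
      rw [e1] at this
      rw [e2]
      exact this
    have h7 : Real.exp (xl (6 * n) + xl (3 * n - 1) - xl (3 * n - 1 + 6 * n)) ≤
        Real.exp (xl (6 * n) + xl (3 * n) - xl (9 * n)) * (Real.exp 1 * (9 * n)) := by
      have h8 : Real.exp 1 * (9 * n) = Real.exp (1 + Real.log (9 * n)) := by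
        rw [Real.exp_add, Real.exp_log (by positivity)]
      rw [h8, ← Real.exp_add]
      apply Real.exp_le_exp.2
      linarith
    have h9 : Real.exp 1 * (6 * (n : ℝ) + 1) / (3 * n - 1) ≤ 4 * Real.exp 1 := by
      have := Real.exp_pos 1
      rw [div_le_iff₀ (by linarith)]
      nlinarith
    calc _ ≤ (4 * Real.exp 1) * (Real.exp (xl (6 * n) + xl (3 * n) - xl (9 * n)) * (Real.exp 1 * (9 * n))) := by
          apply mul_le_mul h9 h7 (by positivity) (by positivity)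
      _ = _ := by ring
  have hfac : (0 : ℝ) < ((2 * n).factorial : ℝ) := by positivity
  have hfac6 : (0 : ℝ) < ((6 * n).factorial : ℝ) := by positivity
  rw [abs_of_nonneg (show (0 : ℝ) ≤ (∏ k ∈ Finset.Icc (3 * n) (9 * n), ((k : ℝ) - 1 / 2)) ^ 6 by positivity)]
  have hP : |((6 * n).factorial : ℝ) ^ 6 / ((2 * n).factorial : ℝ) ^ 6 * (12 * n - 1) *
      ∏ m ∈ Finset.Icc 1 (2 * n), (((m : ℝ) - 1 / 2) ^ 3 * (12 * n - m - 1 / 2) ^ 3)| ≤
      ((6 * n).factorial : ℝ) ^ 6 * (12 * n) *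
        Real.exp (xl (12 * n) - xl (10 * n) - xl (2 * n)) ^ 3 := by
    rw [Finset.prod_mul_distrib, Finset.prod_pow, Finset.prod_pow]
    rw [abs_of_nonneg (by
      have : (0 : ℝ) ≤ 12 * n - 1 := by linarith
      positivity)]
    calc _ ≤ ((6 * n).factorial : ℝ) ^ 6 / ((2 * n).factorial : ℝ) ^ 6 * (12 * n) *
          (((2 * n).factorial : ℝ) ^ 3 *
            (((2 * n).factorial : ℝ) * Real.exp (xl (12 * n) - xl (10 * n) - xl (2 * n))) ^ 3) := by
          gcongr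
          linarith
      _ = _ := by
          field_simp
  have key : |((6 * n).factorial : ℝ) ^ 6 / ((2 * n).factorial : ℝ) ^ 6 * (12 * n - 1) *
      ∏ m ∈ Finset.Icc 1 (2 * n), (((m : ℝ) - 1 / 2) ^ 3 * (12 * n - m - 1 / 2) ^ 3)| /
        (∏ k ∈ Finset.Icc (3 * n) (9 * n), ((k : ℝ) - 1 / 2)) ^ 6 ≤
      (12 * n) * Real.exp (xl (12 * n) - xl (10 * n) - xl (2 * n)) ^ 3 *
        (36 * Real.exp 1 ^ 2 * n * Real.exp (xl (6 * n) + xl (3 * n) - xl (9 * n))) ^ 6 := by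
    calc _ ≤ (((6 * n).factorial : ℝ) ^ 6 * (12 * n) *
        Real.exp (xl (12 * n) - xl (10 * n) - xl (2 * n)) ^ 3) /
        (∏ k ∈ Finset.Icc (3 * n) (9 * n), ((k : ℝ) - 1 / 2)) ^ 6 := by gcongr
      _ = (12 * n) * Real.exp (xl (12 * n) - xl (10 * n) - xl (2 * n)) ^ 3 *
        (((6 * n).factorial : ℝ) * (∏ k ∈ Finset.Icc (3 * n) (9 * n), ((k : ℝ) - 1 / 2))⁻¹) ^ 6 := by
          field_simp
      _ ≤ _ := by gcongr
  refine key.trans (le_of_eq ?_)
  have hexp : Real.exp (xl (12 * n) - xl (10 * n) - xl (2 * n)) ^ 3 *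
      Real.exp (xl (6 * n) + xl (3 * n) - xl (9 * n)) ^ 6 = Real.exp (n * Phi0) := by
    rw [← Real.exp_nat_mul, ← Real.exp_nat_mul, ← Real.exp_add]
    congr 1
    have l12 : Real.log 12 = 2 * Real.log 2 + Real.log 3 := by
      rw [show (12 : ℝ) = 2 ^ 2 * 3 by norm_num, Real.log_mul (by norm_num) (by norm_num), Real.log_pow]
      norm_num
    have l10 : Real.log 10 = Real.log 2 + Real.log 5 := by
      rw [show (10 : ℝ) = 2 * 5 by norm_num, Real.log_mul (by norm_num) (by norm_num)]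
    have l6 : Real.log 6 = Real.log 2 + Real.log 3 := by
      rw [show (6 : ℝ) = 2 * 3 by norm_num, Real.log_mul (by norm_num) (by norm_num)]
    have l9 : Real.log 9 = 2 * Real.log 3 := by
      rw [show (9 : ℝ) = 3 ^ 2 by norm_num, Real.log_pow]
      norm_num
    have hs : ∀ a : ℝ, 0 ≤ a → xl (a * n) = n * xl a + n * a * Real.log n := by
      intro a ha
      rw [mul_comm a]
      exact xl_scale hn0 ha
    rw [hs 12 (by norm_num), hs 10 (by norm_num), hs 2 (by norm_num), hs 6 (by norm_num),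
      hs 3 (by norm_num), hs 9 (by norm_num)]
    unfold xl Phi0
    rw [l12, l10, l6, l9]
    push_cast
    ring
  calc _ = 12 * (36 * Real.exp 1 ^ 2) ^ 6 * (n : ℝ) ^ 7 *
      (Real.exp (xl (12 * n) - xl (10 * n) - xl (2 * n)) ^ 3 *
      Real.exp (xl (6 * n) + xl (3 * n) - xl (9 * n)) ^ 6) := by ring
    _ = _ := by rw [hexp]

end

end Pool.Agent.H336R2.HD
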