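import Pool.Agent.H336R2.HD.G1a
import Pool.Agent.H336R2.HD.G1b

/-! The archimedean comparison `G1_main`. -/

open Polynomial Pool.Agent.H337R2

namespace Pool.Agent.H336R2.HD

noncomputable section

/-- `∏_{a < m ≤ b} (1 + y²/(m-1/2)²)` -/
def PF1 (y : ℝ) (a b : ℕ) : ℝ := ∏ m ∈ Finset.Ioc a b, (1 + y ^ 2 / ((m : ℝ) - 1 / 2) ^ 2)

lemma one_le_PF1 (y : ℝ) (a b : ℕ) : 1 ≤ PF1 y a b := by
  unfold PF1
  calc (1 : ℝ) = ∏ m ∈ Finset.Ioc a b, (1 : ℝ) := by simp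
    _ ≤ _ := Finset.prod_le_prod (by intros; norm_num) (by
      intro m _
      have : 0 ≤ y ^ 2 / ((m : ℝ) - 1 / 2) ^ 2 := by positivity
      linarith)

lemma PF1_split (y : ℝ) {a b c : ℕ} (hab : a ≤ b) (hbc : b ≤ c) :
    PF1 y a b * PF1 y b c = PF1 y a c :=
  Finset.prod_Ioc_consecutive _ hab hbc

/-- admissible chains of blocks `(A, L, c)` -/
def good (n : ℕ) (b : ℕ) : ℕ → List (ℕ × ℕ × ℚ) → Prop
  | a, [] => a ≤ b
  | a, x :: t => a ≤ x.1 ∧ 1 ≤ x.2.1 ∧ (0 : ℝ) < (x.2.2 : ℝ) ∧ (x.1 : ℝ) + x.2.1 / 2 ≤ (x.2.2 : ℝ) * n ∧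
      good n b (x.1 + x.2.1) t

lemma good_le (n b : ℕ) (l : List (ℕ × ℕ × ℚ)) : ∀ a, good n b a l → a ≤ b := by
  induction l with
  | nil => intro a h; exact h
  | cons x t ih =>
    intro a h
    obtain ⟨h1, h2, h3, h4, h5⟩ := h
    have := ih _ h5
    omega

/-- lower bound of a chain -/
def cpr (g : ℚ → ℝ) (l : List (ℕ × ℕ × ℚ)) : ℝ := (l.map fun x => g x.2.2 ^ x.2.1).prod

lemma cpr_nonneg (g : ℚ → ℝ) (hg : ∀ q, 0 ≤ g q) (l : List (ℕ × ℕ × ℚ)) : 0 ≤ cpr g l := by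
  unfold cpr
  apply List.prod_nonneg
  intro z hz
  obtain ⟨w, _, rfl⟩ := List.mem_map.mp hz
  exact pow_nonneg (hg _) _

lemma chain (n : ℕ) (hn : 1 ≤ n) (y : ℝ) (g : ℚ → ℝ) (hg : ∀ q : ℚ, g q = 1 + (y / n) ^ 2 / (q : ℝ) ^ 2)
    (b : ℕ) (l : List (ℕ × ℕ × ℚ)) : ∀ a, good n b a l → cpr g l ≤ PF1 y a b := by
  have hg0 : ∀ q, 0 ≤ g q := fun q => by rw [hg]; positivity
  induction l with
  | nil => intro a h; simpa [cpr] using one_le_PF1 y a b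
  | cons x t ih =>
    intro a h
    obtain ⟨h1, h2, h3, h4, h5⟩ := h
    have h6 := good_le _ _ _ _ h5
    have hn' : (0 : ℝ) < n := by exact_mod_cast hn
    have hcons : cpr g (x :: t) = g x.2.2 ^ x.2.1 * cpr g t := by
      simp [cpr]
    rw [hcons, ← PF1_split y (h1.trans (Nat.le_add_right x.1 x.2.1)) h6,
      ← PF1_split y h1 (Nat.le_add_right _ _)]
    have hA : g x.2.2 ^ x.2.1 ≤ PF1 y x.1 (x.1 + x.2.1) := by
      refine le_trans ?_ (G1_block x.1 x.2.1 (y ^ 2) (sq_nonneg y) h2)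
      apply pow_le_pow_left₀ (hg0 _)
      rw [hg]
      have h7 : (y / n) ^ 2 / (x.2.2 : ℝ) ^ 2 = y ^ 2 / ((x.2.2 : ℝ) * n) ^ 2 := by
        field_simp
      rw [h7]
      have h8 : (1 : ℝ) ≤ x.2.1 := by exact_mod_cast h2
      have h9 : (0 : ℝ) < (x.1 : ℝ) + x.2.1 / 2 := by positivity
      gcongr
    have hB := ih _ h5
    have hC : 0 ≤ cpr g t := cpr_nonneg g hg0 t
    have hD := one_le_PF1 y a x.1
    have hE := one_le_PF1 y x.1 (x.1 + x.2.1)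
    calc g x.2.2 ^ x.2.1 * cpr g t
        ≤ PF1 y x.1 (x.1 + x.2.1) * PF1 y (x.1 + x.2.1) b :=
          mul_le_mul hA hB hC (by linarith)
      _ ≤ PF1 y a x.1 * PF1 y x.1 (x.1 + x.2.1) * PF1 y (x.1 + x.2.1) b := by
          apply mul_le_mul_of_nonneg_right _ (by linarith [one_le_PF1 y (x.1 + x.2.1) b])
          nlinarith

/-- chain 1 -/
def ch1 (n N : ℕ) : List (ℕ × ℕ × ℚ) :=
  [(0, 2 * N, 1/24), (2 * N, 2 * N, 3/24), (4 * N, 2 * N, 5/24), (6 * N, 2 * N, 7/24), (8 * N, 2 * N, 9/24), (10 * N, 2 * N, 11/24), (12 * N, 2 * N, 13/24), (14 * N, 2 * N, 15/24), (16 * N, 2 * N, 17/24), (18 * N, 2 * N, 19/24), (20 * N, 2 * N, 21/24), (22 * N, 2 * N, 23/24), (n, 6 * N, 9/8), (n + 6 * N, 6 * N, 11/8), (n + 12 * N, 6 * N, 13/8), (n + 18 * N, 6 * N, 15/8)]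

/-- chain 2 -/
def ch2 (n N : ℕ) : List (ℕ × ℕ × ℚ) :=
  [(2 * n, 12 * N, 9/4), (2 * n + 12 * N, 12 * N, 11/4)]

/-- chain 3 -/
def ch3 (n N : ℕ) : List (ℕ × ℕ × ℚ) :=
  [(3 * n, 24 * N, 7/2), (4 * n, 24 * N, 9/2), (5 * n, 24 * N, 11/2), (6 * n, 24 * N, 13/2), (7 * n, 24 * N, 15/2), (8 * n, 24 * N, 17/2)]

/-- chain 4 -/
def ch4 (n N : ℕ) : List (ℕ × ℕ × ℚ) :=
  [(9 * n, 24 * N, 19/2)]

/-- chain 5 -/
def ch5 (n N : ℕ) : List (ℕ × ℕ × ℚ) :=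
  [(10 * n - 1, 24 * N, 21/2), (11 * n - 1, 24 * N, 23/2)]

/-- chain 6 -/
def ch6 (n N : ℕ) : List (ℕ × ℕ × ℚ) :=
  [(12 * n, 48 * N, 13), (14 * n, 96 * N, 16), (18 * n, 192 * N, 22), (26 * n, 576 * N, 38), (50 * n, 1200 * N, 75), (100 * n, 2400 * N, 150), (200 * n, 30, 215)]

lemma good1 {n N : ℕ} (hN : 1 ≤ N) (hn : n = 24 * N + 1) : good n (2 * n) (0) (ch1 n N) := by
  have h1 : (1 : ℝ) ≤ N := by exact_mod_cast hN
  have h2 : (n : ℝ) = 24 * N + 1 := by rw [hn]; push_cast; ring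
  have h3 : ((10 * n - 1 : ℕ) : ℝ) = 10 * n - 1 := by
    rw [Nat.cast_sub (by omega)]; push_cast; ring
  have h4 : ((11 * n - 1 : ℕ) : ℝ) = 11 * n - 1 := by
    rw [Nat.cast_sub (by omega)]; push_cast; ring
  simp only [ch1, good]
  refine ⟨by omega, by omega, by norm_num, ?_, by omega, by omega, by norm_num, ?_, by omega, by omega, by norm_num, ?_, by omega, by omega, by norm_num, ?_, by omega, by omega, by norm_num, ?_, by omega, by omega, by norm_num, ?_, by omega, by omega, by norm_num, ?_, by omega, by omega, by norm_num, ?_, by omega, by omega, by norm_num, ?_, by omega, by omega, by norm_num, ?_, by omega, by omega, by norm_num, ?_, by omega, by omega, by norm_num, ?_, by omega, by omega, by norm_num, ?_, by omega, by omega, by norm_num, ?_, by omega, by omega, by norm_num, ?_, by omega, by omega, by norm_num, ?_, by omega⟩ <;>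
    (try rw [h3]) <;> (try rw [h4]) <;> push_cast <;> rw [h2] <;> linarith

lemma good2 {n N : ℕ} (hN : 1 ≤ N) (hn : n = 24 * N + 1) : good n (3 * n - 1) (2 * n) (ch2 n N) := by
  have h1 : (1 : ℝ) ≤ N := by exact_mod_cast hN
  have h2 : (n : ℝ) = 24 * N + 1 := by rw [hn]; push_cast; ring
  have h3 : ((10 * n - 1 : ℕ) : ℝ) = 10 * n - 1 := by
    rw [Nat.cast_sub (by omega)]; push_cast; ring
  have h4 : ((11 * n - 1 : ℕ) : ℝ) = 11 * n - 1 := by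
    rw [Nat.cast_sub (by omega)]; push_cast; ring
  simp only [ch2, good]
  refine ⟨by omega, by omega, by norm_num, ?_, by omega, by omega, by norm_num, ?_, by omega⟩ <;>
    (try rw [h3]) <;> (try rw [h4]) <;> push_cast <;> rw [h2] <;> linarith

lemma good3 {n N : ℕ} (hN : 1 ≤ N) (hn : n = 24 * N + 1) : good n (9 * n) (3 * n - 1) (ch3 n N) := by
  have h1 : (1 : ℝ) ≤ N := by exact_mod_cast hN
  have h2 : (n : ℝ) = 24 * N + 1 := by rw [hn]; push_cast; ring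
  have h3 : ((10 * n - 1 : ℕ) : ℝ) = 10 * n - 1 := by
    rw [Nat.cast_sub (by omega)]; push_cast; ring
  have h4 : ((11 * n - 1 : ℕ) : ℝ) = 11 * n - 1 := by
    rw [Nat.cast_sub (by omega)]; push_cast; ring
  simp only [ch3, good]
  refine ⟨by omega, by omega, by norm_num, ?_, by omega, by omega, by norm_num, ?_, by omega, by omega, by norm_num, ?_, by omega, by omega, by norm_num, ?_, by omega, by omega, by norm_num, ?_, by omega, by omega, by norm_num, ?_, by omega⟩ <;>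
    (try rw [h3]) <;> (try rw [h4]) <;> push_cast <;> rw [h2] <;> linarith

lemma good4 {n N : ℕ} (hN : 1 ≤ N) (hn : n = 24 * N + 1) : good n (10 * n - 1) (9 * n) (ch4 n N) := by
  have h1 : (1 : ℝ) ≤ N := by exact_mod_cast hN
  have h2 : (n : ℝ) = 24 * N + 1 := by rw [hn]; push_cast; ring
  have h3 : ((10 * n - 1 : ℕ) : ℝ) = 10 * n - 1 := by
    rw [Nat.cast_sub (by omega)]; push_cast; ring
  have h4 : ((11 * n - 1 : ℕ) : ℝ) = 11 * n - 1 := by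
    rw [Nat.cast_sub (by omega)]; push_cast; ring
  simp only [ch4, good]
  refine ⟨by omega, by omega, by norm_num, ?_, by omega⟩ <;>
    (try rw [h3]) <;> (try rw [h4]) <;> push_cast <;> rw [h2] <;> linarith

lemma good5 {n N : ℕ} (hN : 1 ≤ N) (hn : n = 24 * N + 1) : good n (12 * n - 1) (10 * n - 1) (ch5 n N) := by
  have h1 : (1 : ℝ) ≤ N := by exact_mod_cast hN
  have h2 : (n : ℝ) = 24 * N + 1 := by rw [hn]; push_cast; ring
  have h3 : ((10 * n - 1 : ℕ) : ℝ) = 10 * n - 1 := by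
    rw [Nat.cast_sub (by omega)]; push_cast; ring
  have h4 : ((11 * n - 1 : ℕ) : ℝ) = 11 * n - 1 := by
    rw [Nat.cast_sub (by omega)]; push_cast; ring
  simp only [ch5, good]
  refine ⟨by omega, by omega, by norm_num, ?_, by omega, by omega, by norm_num, ?_, by omega⟩ <;>
    (try rw [h3]) <;> (try rw [h4]) <;> push_cast <;> rw [h2] <;> linarith

lemma good6 {n N : ℕ} (hN : 1 ≤ N) (hn : n = 24 * N + 1) : good n (200 * n + 30) (12 * n - 1) (ch6 n N) := by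
  have h1 : (1 : ℝ) ≤ N := by exact_mod_cast hN
  have h2 : (n : ℝ) = 24 * N + 1 := by rw [hn]; push_cast; ring
  have h3 : ((10 * n - 1 : ℕ) : ℝ) = 10 * n - 1 := by
    rw [Nat.cast_sub (by omega)]; push_cast; ring
  have h4 : ((11 * n - 1 : ℕ) : ℝ) = 11 * n - 1 := by
    rw [Nat.cast_sub (by omega)]; push_cast; ring
  simp only [ch6, good]
  refine ⟨by omega, by omega, by norm_num, ?_, by omega, by omega, by norm_num, ?_, by omega, by omega, by norm_num, ?_, by omega, by omega, by norm_num, ?_, by omega, by omega, by norm_num, ?_, by omega, by omega, by norm_num, ?_, by omega, by omega, by norm_num, ?_, by omega⟩ <;>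
    (try rw [h3]) <;> (try rw [h4]) <;> push_cast <;> rw [h2] <;> linarith

lemma key_prod (g : ℚ → ℝ) (n N : ℕ) :
    cpr g (ch1 n N) * cpr g (ch2 n N) ^ 4 * cpr g (ch3 n N) ^ 10 * cpr g (ch4 n N) ^ 4 *
      cpr g (ch5 n N) * cpr g (ch6 n N) ^ 4 =
    ((FX.map fun x => g x.1 ^ x.2).prod ^ N) ^ 2 * g 215 ^ 120 := by
  simp only [cpr, ch1, ch2, ch3, ch4, ch5, ch6, FX, List.map_cons, List.map_nil, List.prod_cons, List.prod_nil]
  ring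

lemma xz_sq_le {n : ℕ} (hn : 1 ≤ n) (y : ℝ) :
    ‖xz n y‖ ^ 2 ≤ 144 * (n : ℝ) ^ 2 * (1 + y ^ 2) ^ 2 := by
  have hn' : (1 : ℝ) ≤ n := by exact_mod_cast hn
  have h1 : ‖zl y‖ ^ 2 = 1 / 4 + y ^ 2 := by
    rw [← Complex.normSq_eq_norm_sq, Complex.normSq_apply]
    simp [zl]
    ring
  have h2 : ‖zl y + ((12 * n : ℕ) : ℂ)‖ ^ 2 = (12 * n - 1 / 2) ^ 2 + y ^ 2 := by
    rw [← Complex.normSq_eq_norm_sq, Complex.normSq_apply]
    simp [zl]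
    ring
  unfold xz
  rw [norm_mul, mul_pow, h1, h2]
  have h3 : (12 * (n : ℝ) - 1 / 2) ^ 2 + y ^ 2 ≤ 144 * (n : ℝ) ^ 2 * (1 + y ^ 2) := by
    have h4 : y ^ 2 ≤ (n : ℝ) ^ 2 * y ^ 2 := by
      have := mul_le_mul_of_nonneg_right (one_le_pow₀ hn' : (1 : ℝ) ≤ (n : ℝ) ^ 2) (sq_nonneg y)
      linarith
    nlinarith [sq_nonneg y]
  calc (1 / 4 + y ^ 2) * ((12 * (n : ℝ) - 1 / 2) ^ 2 + y ^ 2)
      ≤ (1 + y ^ 2) * (144 * (n : ℝ) ^ 2 * (1 + y ^ 2)) :=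
        mul_le_mul (by linarith) h3 (by positivity) (by positivity)
    _ = _ := by ring

lemma g215_ge {n : ℕ} (hn : 1 ≤ n) (y : ℝ) :
    1 + y ^ 2 ≤ (215 * (n : ℝ)) ^ 2 * (1 + (y / n) ^ 2 / (215 : ℝ) ^ 2) := by
  have hn' : (1 : ℝ) ≤ n := by exact_mod_cast hn
  have h1 : (215 * (n : ℝ)) ^ 2 * (1 + (y / n) ^ 2 / (215 : ℝ) ^ 2) = (215 * (n : ℝ)) ^ 2 + y ^ 2 := by
    field_simp
  rw [h1]
  nlinarith

lemma abs_aux (E F g Y s r : ℝ) (hE : 0 ≤ E) (hF : 0 ≤ F) (hY : 1 ≤ Y) (hs : 0 ≤ s)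
    (hA : E * (F * g ^ 120) ≤ r ^ 2 * Y) (hB : Y ≤ s ^ 2 * g) :
    E * F * Y ^ 40 ≤ r ^ 2 * s ^ 240 := by
  have hY0 : 0 < Y := by linarith
  have hB' : Y ^ 120 ≤ (s ^ 2 * g) ^ 120 := pow_le_pow_left₀ hY0.le hB _
  have hT : 0 ≤ E * F := mul_nonneg hE hF
  have h3 : E * F * Y ^ 120 ≤ s ^ 240 * (r ^ 2 * Y) := by
    calc E * F * Y ^ 120 ≤ E * F * (s ^ 2 * g) ^ 120 :=
          mul_le_mul_of_nonneg_left hB' hT
      _ = s ^ 240 * (E * (F * g ^ 120)) := by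
          have e1 : (s ^ 2 * g) ^ 120 = s ^ 240 * g ^ 120 := by rw [mul_pow, ← pow_mul]
          rw [e1]
          generalize s ^ 240 = S
          generalize g ^ 120 = G
          ring
      _ ≤ _ := mul_le_mul_of_nonneg_left hA (pow_nonneg hs _)
  have h4 : E * F * Y ^ 40 * Y ≤ r ^ 2 * s ^ 240 * Y := by
    calc E * F * Y ^ 40 * Y = E * F * Y ^ 41 := by ring
      _ ≤ E * F * Y ^ 120 := mul_le_mul_of_nonneg_left (pow_le_pow_right₀ hY (by norm_num)) hT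
      _ ≤ _ := h3
      _ = _ := by ring
  exact le_of_mul_le_mul_right h4 hY0

theorem G1_main : ∃ (C : ℝ) (K : ℕ), 0 < C ∧ ∀ N : ℕ, 1 ≤ N → ∀ n : ℕ, n = 24 * N + 1 → ∀ y : ℝ,
    ‖Rn n y‖ * ‖xz n y‖ ^ 15 * Real.exp (-(2 * Real.pi * |y|)) * (1 + y ^ 2) ^ 5 * FXp ((y / n) ^ 2) ^ N ≤
      C * (n : ℝ) ^ K * Real.exp (n * Phi0) := by
  obtain ⟨C, K, hC, h0⟩ := G1_zero
  refine ⟨12 ^ 15 * 215 ^ 120 * C, K + 135, by positivity, ?_⟩
  intro N hN n hnN y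
  have hn : 1 ≤ n := by omega
  have hn' : (1 : ℝ) ≤ n := by exact_mod_cast hn
  obtain ⟨g, hg⟩ : ∃ g : ℚ → ℝ, ∀ q : ℚ, g q = 1 + (y / n) ^ 2 / (q : ℝ) ^ 2 := ⟨_, fun _ => rfl⟩
  have hg0 : ∀ q, 0 ≤ g q := fun q => by rw [hg]; positivity
  have hR := G1_ratio hn y (200 * n + 30) (by omega)
  simp only [Finset.prod_pow] at hR
  change (‖Rn n y‖ * Real.exp (-(2 * Real.pi * |y|))) ^ 2 *
      (PF1 y 0 (2 * n) * PF1 y (2 * n) (3 * n - 1) ^ 4 * PF1 y (3 * n - 1) (9 * n) ^ 10 *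
       PF1 y (9 * n) (10 * n - 1) ^ 4 * PF1 y (10 * n - 1) (12 * n - 1) *
       PF1 y (12 * n - 1) (200 * n + 30) ^ 4) ≤ ‖Rn n 0‖ ^ 2 * (1 + y ^ 2) at hR
  have k1 := chain n hn y g hg _ _ _ (good1 hN hnN)
  have k2 := chain n hn y g hg _ _ _ (good2 hN hnN)
  have k3 := chain n hn y g hg _ _ _ (good3 hN hnN)
  have k4 := chain n hn y g hg _ _ _ (good4 hN hnN)
  have k5 := chain n hn y g hg _ _ _ (good5 hN hnN)
  have k6 := chain n hn y g hg _ _ _ (good6 hN hnN)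
  have n1 := cpr_nonneg g hg0 (ch1 n N)
  have n2 := cpr_nonneg g hg0 (ch2 n N)
  have n3 := cpr_nonneg g hg0 (ch3 n N)
  have n4 := cpr_nonneg g hg0 (ch4 n N)
  have n5 := cpr_nonneg g hg0 (ch5 n N)
  have n6 := cpr_nonneg g hg0 (ch6 n N)
  have p1 := n1.trans k1
  have p2 := n2.trans k2
  have p3 := n3.trans k3
  have p4 := n4.trans k4
  have p5 := n5.trans k5
  have p6 := n6.trans k6
  have hS : cpr g (ch1 n N) * cpr g (ch2 n N) ^ 4 * cpr g (ch3 n N) ^ 10 * cpr g (ch4 n N) ^ 4 *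
      cpr g (ch5 n N) * cpr g (ch6 n N) ^ 4 ≤
      PF1 y 0 (2 * n) * PF1 y (2 * n) (3 * n - 1) ^ 4 * PF1 y (3 * n - 1) (9 * n) ^ 10 *
       PF1 y (9 * n) (10 * n - 1) ^ 4 * PF1 y (10 * n - 1) (12 * n - 1) *
       PF1 y (12 * n - 1) (200 * n + 30) ^ 4 := by
    gcongr
  rw [key_prod] at hS
  have hF : FXp ((y / n) ^ 2) = (FX.map fun x => g x.1 ^ x.2).prod := by
    simp only [FXp, hg]
  rw [← hF] at hS
  have hF0 : 0 ≤ FXp ((y / n) ^ 2) := by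
    rw [hF]
    apply List.prod_nonneg
    intro z hz
    obtain ⟨w, _, rfl⟩ := List.mem_map.mp hz
    exact pow_nonneg (hg0 _) _
  have hg215 : 1 + y ^ 2 ≤ (215 * (n : ℝ)) ^ 2 * g 215 := by
    rw [hg]
    have := g215_ge hn y
    push_cast
    exact this
  have hx := xz_sq_le hn y
  have hE0 : 0 ≤ ‖Rn n y‖ * Real.exp (-(2 * Real.pi * |y|)) := by positivity
  have hR0 : 0 ≤ ‖Rn n 0‖ := norm_nonneg _
  have hx0 : 0 ≤ ‖xz n y‖ := norm_nonneg _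
  have h1' := h0 n hn
  -- main inequality, squared
  have hmain : (‖Rn n y‖ * Real.exp (-(2 * Real.pi * |y|))) ^ 2 * (FXp ((y / n) ^ 2) ^ N) ^ 2 * (1 + y ^ 2) ^ 40 ≤
      ‖Rn n 0‖ ^ 2 * (215 * (n : ℝ)) ^ 240 := by
    have hA : (‖Rn n y‖ * Real.exp (-(2 * Real.pi * |y|))) ^ 2 * ((FXp ((y / n) ^ 2) ^ N) ^ 2 * g 215 ^ 120) ≤
        ‖Rn n 0‖ ^ 2 * (1 + y ^ 2) :=
      (mul_le_mul_of_nonneg_left hS (sq_nonneg _)).trans hR
    exact abs_aux _ _ _ _ _ _ (by positivity) (by positivity) (le_add_of_nonneg_right (sq_nonneg y))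
      (by positivity) hA hg215
  have hsq : (‖Rn n y‖ * ‖xz n y‖ ^ 15 * Real.exp (-(2 * Real.pi * |y|)) * (1 + y ^ 2) ^ 5 *
      FXp ((y / n) ^ 2) ^ N) ^ 2 ≤ ((12 * (n : ℝ)) ^ 15 * (215 * (n : ℝ)) ^ 120 * ‖Rn n 0‖) ^ 2 := by
    have hx15 : (‖xz n y‖ ^ 2) ^ 15 ≤ (144 * (n : ℝ) ^ 2 * (1 + y ^ 2) ^ 2) ^ 15 :=
      pow_le_pow_left₀ (by positivity) hx _
    generalize FXp ((y / n) ^ 2) ^ N = F at hmain ⊢
    generalize Real.exp (-(2 * Real.pi * |y|)) = e at hmain ⊢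
    generalize 1 + y ^ 2 = Y at hmain hx15 ⊢
    generalize ‖Rn n y‖ = r at hmain ⊢
    generalize ‖Rn n 0‖ = r0 at hmain ⊢
    generalize ‖xz n y‖ = x at hx15 ⊢
    calc (r * x ^ 15 * e * Y ^ 5 * F) ^ 2 = ((r * e) ^ 2 * F ^ 2 * Y ^ 10) * (x ^ 2) ^ 15 := by ring
      _ ≤ ((r * e) ^ 2 * F ^ 2 * Y ^ 10) * (144 * (n : ℝ) ^ 2 * Y ^ 2) ^ 15 :=
          mul_le_mul_of_nonneg_left hx15 (by positivity)
      _ = (12 * (n : ℝ)) ^ 30 * ((r * e) ^ 2 * F ^ 2 * Y ^ 40) := by ring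
      _ ≤ (12 * (n : ℝ)) ^ 30 * (r0 ^ 2 * (215 * (n : ℝ)) ^ 240) :=
          mul_le_mul_of_nonneg_left hmain (by positivity)
      _ = _ := by ring
  have hfin := (le_abs_self _).trans (abs_le_of_sq_le_sq hsq (by positivity))
  calc ‖Rn n y‖ * ‖xz n y‖ ^ 15 * Real.exp (-(2 * Real.pi * |y|)) * (1 + y ^ 2) ^ 5 * FXp ((y / n) ^ 2) ^ N
      ≤ (12 * (n : ℝ)) ^ 15 * (215 * (n : ℝ)) ^ 120 * ‖Rn n 0‖ := hfin
    _ ≤ (12 * (n : ℝ)) ^ 15 * (215 * (n : ℝ)) ^ 120 * (C * (n : ℝ) ^ K * Real.exp (n * Phi0)) :=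
        mul_le_mul_of_nonneg_left h1' (by positivity)
    _ = 12 ^ 15 * 215 ^ 120 * C * (n : ℝ) ^ (K + 135) * Real.exp (n * Phi0) := by
        rw [mul_pow, mul_pow, pow_add]; ring

end

end Pool.Agent.H336R2.HD
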