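import Pool.Agent.H336R2.HD.Defs

set_option autoImplicit false

/-!
# G3: the numerical certificate
-/

namespace Pool.Agent.H336R2.HD

namespace G3

/-- `10^4 ((6-g1)^2+g2^2)` -/
def AN : ℕ → ℕ
  | 0 => 170
  | 1 => 3152
  | 2 => 16420
  | _ => 25537

/-- `10^4 ((6+g1)^2+g2^2)` -/
def BN : ℕ → ℕ
  | 0 => 1437770
  | 1 => 1433552
  | 2 => 1442020
  | _ => 1427137

/-- `10^4 g2^2` -/
def b2N : ℕ → ℕ
  | 0 => 169
  | 1 => 3136
  | 2 => 16384
  | _ => 25281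

/-- numerator of `(v+A)^2 - 4 b^2 v` at `v = n/d` -/
def Fn (A b n d : ℕ) : ℕ := (10 ^ 4 * n + A * d) ^ 2 - 4 * b * 10 ^ 4 * n * d

/-- bound for the left side on `[n0/d0, n1/d1]` -/
def LN (n0 d0 n1 d1 : ℕ) : ℕ → ℕ
  | 0 => 1
  | i + 1 => LN n0 d0 n1 d1 i * (max (Fn (AN i) (b2N i) n0 d0 * d1 ^ 2)
      (Fn (AN i) (b2N i) n1 d1 * d0 ^ 2) * Fn (BN i) (b2N i) n1 d1) ^ sg i

def SN : ℕ → ℕ
  | 0 => 0
  | i + 1 => SN i + sg i

def L1 : List (ℕ × ℕ × ℕ) :=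
  [(1, 24, 1), (3, 24, 1), (5, 24, 1), (7, 24, 1), (9, 24, 1), (11, 24, 1), (13, 24, 1),
   (15, 24, 1), (17, 24, 1), (19, 24, 1), (21, 24, 1), (23, 24, 1), (9, 8, 3), (11, 8, 3),
   (13, 8, 3), (15, 8, 3), (9, 4, 24), (11, 4, 24)]

def L6 : List (ℕ × ℕ × ℕ) :=
  [(7, 2, 120), (9, 2, 120), (11, 2, 120), (13, 2, 120), (15, 2, 120), (17, 2, 120)]

def L2 : List (ℕ × ℕ × ℕ) :=
  [(19, 2, 48), (21, 2, 12), (23, 2, 12), (13, 1, 96), (16, 1, 192), (22, 1, 384),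
   (38, 1, 1152), (75, 1, 2400), (150, 1, 4800)]

def FXN : List (ℕ × ℕ × ℕ) := L1 ++ L6 ++ L2

def P1 (L : List (ℕ × ℕ × ℕ)) (n d : ℕ) : ℕ :=
  (L.map fun y => (d * y.1 ^ 2 + n * y.2.1 ^ 2) ^ y.2.2).prod

def P2 (L : List (ℕ × ℕ × ℕ)) (d : ℕ) : ℕ := (L.map fun y => (d * y.1 ^ 2) ^ y.2.2).prod

def C6 (L : List (ℕ × ℕ × ℕ)) : ℕ := (L.map fun y => (y.1 ^ 2) ^ y.2.2).prod

def D6 (L : List (ℕ × ℕ × ℕ)) : ℕ := (L.map fun y => (y.2.1 ^ 2) ^ y.2.2).prod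

def chkI (b : ℕ) (p q : ℕ × ℕ) : Bool :=
  decide (0 < p.2) && decide (0 < q.2) &&
    decide (LN p.1 p.2 q.1 q.2 b * P2 FXN p.2 ≤
      2 ^ tb b * P1 FXN p.1 p.2 * (10 ^ 16 * p.2 ^ 2 * q.2 ^ 4) ^ SN b)

def chkL (b : ℕ) : List (ℕ × ℕ) → Bool
  | [] => true
  | p :: l => (match l with
    | [] => true
    | q :: _ => chkI b p q) && chkL b l

def chkT (b : ℕ) (p : ℕ × ℕ) : Bool :=
  decide (0 < p.2) && decide (160 * p.2 ≤ p.1) &&
    decide (206 ^ (2 * SN b) * P2 L1 p.2 * P2 L2 p.2 * C6 L6 * p.2 ^ (720 - 4 * SN b) ≤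
      100 ^ (2 * SN b) * 2 ^ tb b * p.1 ^ (720 - 4 * SN b) * P1 L1 p.1 p.2 * P1 L2 p.1 p.2 * D6 L6)

def br1 : List (ℕ × ℕ) :=
  [(0, 1), (17, 200), (37, 250), (19, 100), (11, 50), (61, 250), (53, 200), (283, 1000), (3, 10),
   (317, 1000), (167, 500), (44, 125), (93, 250), (79, 200), (423, 1000), (459, 1000), (509,
   1000), (293, 500), (29, 40), (1049, 1000), (587, 250), (33663, 1000), (4197, 25)]

def br2 : List (ℕ × ℕ) :=
  [(0, 1), (31, 250), (1, 2), (687, 1000), (4, 5), (439, 500), (187, 200), (49, 50), (127, 125),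
   (523, 500), (134, 125), (219, 200), (279, 250), (227, 200), (1153, 1000), (117, 100), (593,
   500), (601, 500), (1217, 1000), (154, 125), (1247, 1000), (1263, 1000), (1279, 1000), (162,
   125), (657, 500), (1333, 1000), (677, 500), (1377, 1000), (1403, 1000), (1433, 1000), (367,
   250), (1511, 1000), (391, 250), (204, 125), (431, 250), (1857, 1000), (413, 200), (609, 250),
   (651, 200), (3013, 500), (4463, 125), (169921, 1000)]

def br3 : List (ℕ × ℕ) :=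
  [(0, 1), (1, 25), (31, 500), (19, 250), (87, 1000), (12, 125), (53, 500), (117, 1000), (33,
   250), (39, 250), (26, 125), (209, 500), (511, 1000), (113, 200), (301, 500), (63, 100), (163,
   250), (671, 1000), (86, 125), (88, 125), (719, 1000), (367, 500), (3, 4), (767, 1000), (393,
   500), (101, 125), (167, 200), (87, 100), (23, 25), (999, 1000), (287, 250), (773, 500), (2131,
   1000), (487, 200), (2627, 1000), (1381, 500), (2863, 1000), (2943, 1000), (376, 125), (3063,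
   1000), (311, 100), (394, 125), (3189, 1000), (1611, 500), (3253, 1000), (1641, 500), (3309,
   1000), (1667, 500), (1679, 500), (1691, 500), (681, 200), (857, 250), (3451, 1000), (1737,
   500), (3497, 1000), (88, 25), (443, 125), (3569, 1000), (719, 200), (1811, 500), (3651, 1000),
   (1841, 500), (929, 250), (3753, 1000), (1897, 500), (3841, 1000), (1947, 500), (989, 250),
   (403, 100), (103, 25), (4233, 1000), (4379, 1000), (4577, 1000), (4861, 1000), (5301, 1000),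
   (3033, 500), (1533, 200), (1544, 125), (4203, 100), (176247, 1000)]

def br4 : List (ℕ × ℕ) :=
  [(0, 1), (19, 500), (29, 500), (71, 1000), (41, 500), (23, 250), (51, 500), (23, 200), (133,
   1000), (83, 500), (257, 1000), (453, 1000), (589, 1000), (367, 500), (481, 500), (8, 5), (2853,
   1000), (751, 200), (2143, 500), (2321, 500), (4901, 1000), (51, 10), (2629, 500), (5389, 1000),
   (5499, 1000), (2797, 500), (2839, 500), (5753, 1000), (291, 50), (2941, 500), (5939, 1000),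
   (749, 125), (3021, 500), (6089, 1000), (3067, 500), (3089, 500), (6221, 1000), (6263, 1000),
   (788, 125), (1269, 200), (3193, 500), (6427, 1000), (6469, 1000), (6511, 1000), (1311, 200),
   (33, 5), (6647, 1000), (837, 125), (1687, 250), (1701, 250), (858, 125), (6929, 1000), (7, 1),
   (7079, 1000), (7167, 1000), (7267, 1000), (3691, 500), (7517, 1000), (7679, 1000), (7877,
   1000), (65, 8), (1056, 125), (1777, 200), (1189, 125), (10481, 1000), (12153, 1000), (1948,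
   125), (12559, 500), (18523, 250), (208309, 1000)]

/-- value of a break point -/
noncomputable def vl (p : ℕ × ℕ) : ℝ := (p.1 : ℝ) / p.2

theorem Fn_cast (A b n d : ℕ) (h : b ≤ A) :
    ((Fn A b n d : ℕ) : ℝ) = (10 ^ 4 * n + A * d) ^ 2 - 4 * b * 10 ^ 4 * n * d := by
  unfold Fn
  have h1 : 4 * b * 10 ^ 4 * n * d ≤ (10 ^ 4 * n + A * d) ^ 2 := by
    calc 4 * b * 10 ^ 4 * n * d ≤ 4 * A * 10 ^ 4 * n * d := by gcongr
      _ = 4 * (10 ^ 4 * n) * (A * d) := by ring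
      _ ≤ (10 ^ 4 * n + A * d) ^ 2 := four_mul_le_pow_two_add _ _
  rw [Nat.cast_sub h1]
  push_cast
  ring

theorem bA (i : ℕ) : b2N i ≤ AN i := by
  match i with
  | 0 => decide
  | 1 => decide
  | 2 => decide
  | _ + 3 => exact (by decide : 25281 ≤ 25537)

theorem bB (i : ℕ) : 2 * b2N i ≤ BN i := by
  match i with
  | 0 => decide
  | 1 => decide
  | 2 => decide
  | _ + 3 => exact (by decide : 2 * 25281 ≤ 1427137)

theorem A_le (i : ℕ) : AN i ≤ 48000 := by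
  match i with
  | 0 => decide
  | 1 => decide
  | 2 => decide
  | _ + 3 => exact (by decide : 25537 ≤ 48000)

theorem B_le (i : ℕ) : BN i ≤ 1600000 := by
  match i with
  | 0 => decide
  | 1 => decide
  | 2 => decide
  | _ + 3 => exact (by decide : 1427137 ≤ 1600000)

noncomputable def Fr (i : ℕ) (v : ℝ) : ℝ := (v + AN i / 10 ^ 4) ^ 2 - 4 * (b2N i / 10 ^ 4) * v

noncomputable def Gr (i : ℕ) (v : ℝ) : ℝ := (v + BN i / 10 ^ 4) ^ 2 - 4 * (b2N i / 10 ^ 4) * v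

theorem Gb_eq (i : ℕ) (hi : i < 4) (v : ℝ) : Gb (g1 i) (g2 i) v = Fr i v * Gr i v := by
  interval_cases i <;>
    simp only [Gb, g1, g2, Fr, Gr, AN, BN, b2N] <;> push_cast <;> ring

theorem Fr_nonneg (i : ℕ) (v : ℝ) (hv : 0 ≤ v) : 0 ≤ Fr i v := by
  unfold Fr
  have h : ((b2N i : ℕ) : ℝ) ≤ AN i := by exact_mod_cast bA i
  have h0 : (0 : ℝ) ≤ b2N i := Nat.cast_nonneg _
  have h1 := four_mul_le_pow_two_add v ((AN i : ℝ) / 10 ^ 4)
  nlinarith [mul_nonneg hv (sub_nonneg.2 h)]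

theorem Gr_nonneg (i : ℕ) (v : ℝ) (hv : 0 ≤ v) : 0 ≤ Gr i v := by
  unfold Gr
  have h : 2 * ((b2N i : ℕ) : ℝ) ≤ BN i := by exact_mod_cast bB i
  have h0 : (0 : ℝ) ≤ b2N i := Nat.cast_nonneg _
  have h1 := four_mul_le_pow_two_add v ((BN i : ℝ) / 10 ^ 4)
  nlinarith [mul_nonneg hv (sub_nonneg.2 h), mul_nonneg hv h0]

theorem quad_max {A b v0 v1 v M : ℝ} (h0 : v0 ≤ v) (h1 : v ≤ v1)
    (hM0 : (v0 + A) ^ 2 - 4 * b * v0 ≤ M) (hM1 : (v1 + A) ^ 2 - 4 * b * v1 ≤ M) :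
    (v + A) ^ 2 - 4 * b * v ≤ M := by
  rcases eq_or_lt_of_le (h0.trans h1) with h | h
  · have : v = v0 := le_antisymm (by rw [h]; exact h1) h0
    rw [this]
    exact hM0
  · have key : (v1 - v0) * (M - ((v + A) ^ 2 - 4 * b * v)) =
        (v1 - v) * (M - ((v0 + A) ^ 2 - 4 * b * v0)) + (v - v0) * (M - ((v1 + A) ^ 2 - 4 * b * v1)) +
        (v1 - v0) * (v - v0) * (v1 - v) := by ring
    have hpos : 0 ≤ (v1 - v0) * (M - ((v + A) ^ 2 - 4 * b * v)) := by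
      rw [key]
      have e1 := mul_nonneg (sub_nonneg.2 h1) (sub_nonneg.2 hM0)
      have e2 := mul_nonneg (sub_nonneg.2 h0) (sub_nonneg.2 hM1)
      have e3 := mul_nonneg (mul_nonneg (sub_nonneg.2 h.le) (sub_nonneg.2 h0)) (sub_nonneg.2 h1)
      linarith
    have := nonneg_of_mul_nonneg_right hpos (sub_pos.2 h)
    linarith

theorem Gr_mono (i : ℕ) {v v1 : ℝ} (hv : 0 ≤ v) (h : v ≤ v1) : Gr i v ≤ Gr i v1 := by
  unfold Gr
  have hB : 2 * ((b2N i : ℕ) : ℝ) ≤ BN i := by exact_mod_cast bB i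
  have key : ((v1 + BN i / 10 ^ 4) ^ 2 - 4 * (b2N i / 10 ^ 4) * v1) -
      ((v + BN i / 10 ^ 4) ^ 2 - 4 * ((b2N i : ℝ) / 10 ^ 4) * v) =
      (v1 - v) * (v1 + v + 2 * (BN i - 2 * b2N i) / 10 ^ 4) := by ring
  have : 0 ≤ (v1 - v) * (v1 + v + 2 * ((BN i : ℝ) - 2 * b2N i) / 10 ^ 4) := by
    apply mul_nonneg (sub_nonneg.2 h)
    have : 0 ≤ 2 * ((BN i : ℝ) - 2 * b2N i) / 10 ^ 4 := by
      apply div_nonneg _ (by positivity)
      linarith
    linarith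
  linarith

theorem factor (i : ℕ) {n0 d0 n1 d1 : ℕ} (hd0 : 0 < d0) (hd1 : 0 < d1) {v : ℝ}
    (h0 : vl (n0, d0) ≤ v) (h1 : v ≤ vl (n1, d1)) :
    Fr i v * Gr i v * (10 ^ 16 * d0 ^ 2 * d1 ^ 4) ≤
      ((max (Fn (AN i) (b2N i) n0 d0 * d1 ^ 2) (Fn (AN i) (b2N i) n1 d1 * d0 ^ 2) *
        Fn (BN i) (b2N i) n1 d1 : ℕ) : ℝ) := by
  have hd0' : (0 : ℝ) < d0 := by exact_mod_cast hd0
  have hd1' : (0 : ℝ) < d1 := by exact_mod_cast hd1
  have hv : 0 ≤ v := le_trans (by unfold vl; positivity) h0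
  set M : ℝ := ((max (Fn (AN i) (b2N i) n0 d0 * d1 ^ 2) (Fn (AN i) (b2N i) n1 d1 * d0 ^ 2) : ℕ) : ℝ)
    with hM
  have e0 : Fr i (vl (n0, d0)) * (10 ^ 8 * d0 ^ 2 * d1 ^ 2) = (Fn (AN i) (b2N i) n0 d0 * d1 ^ 2 : ℕ) := by
    push_cast
    rw [Fn_cast _ _ _ _ (bA i)]
    unfold Fr vl
    field_simp
  have e1 : Fr i (vl (n1, d1)) * (10 ^ 8 * d0 ^ 2 * d1 ^ 2) = (Fn (AN i) (b2N i) n1 d1 * d0 ^ 2 : ℕ) := by
    push_cast
    rw [Fn_cast _ _ _ _ (bA i)]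
    unfold Fr vl
    field_simp
  have e2 : Gr i (vl (n1, d1)) * (10 ^ 8 * d1 ^ 2) = (Fn (BN i) (b2N i) n1 d1 : ℕ) := by
    rw [Fn_cast _ _ _ _ (by have := bB i; omega)]
    unfold Gr vl
    field_simp
  have hc : (0 : ℝ) < 10 ^ 8 * d0 ^ 2 * d1 ^ 2 := by positivity
  have m0 : Fr i (vl (n0, d0)) ≤ M / (10 ^ 8 * d0 ^ 2 * d1 ^ 2) := by
    rw [le_div_iff₀ hc, e0, hM]
    exact_mod_cast le_max_left _ _
  have m1 : Fr i (vl (n1, d1)) ≤ M / (10 ^ 8 * d0 ^ 2 * d1 ^ 2) := by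
    rw [le_div_iff₀ hc, e1, hM]
    exact_mod_cast le_max_right _ _
  have mF : Fr i v ≤ M / (10 ^ 8 * d0 ^ 2 * d1 ^ 2) := by
    unfold Fr at m0 m1 ⊢
    exact quad_max h0 h1 m0 m1
  have mG : Gr i v ≤ Gr i (vl (n1, d1)) := Gr_mono i hv h1
  have hFn := Fr_nonneg i v hv
  have hGn := Gr_nonneg i v hv
  rw [le_div_iff₀ hc] at mF
  have hM0 : 0 ≤ M := Nat.cast_nonneg _
  push_cast
  have hMe : max (((Fn (AN i) (b2N i) n0 d0 : ℕ) : ℝ) * (d1 : ℝ) ^ 2)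
      (((Fn (AN i) (b2N i) n1 d1 : ℕ) : ℝ) * (d0 : ℝ) ^ 2) = M := by
    rw [hM]; push_cast; rfl
  rw [hMe, ← e2]
  calc Fr i v * Gr i v * (10 ^ 16 * d0 ^ 2 * d1 ^ 4)
      = (Fr i v * (10 ^ 8 * d0 ^ 2 * d1 ^ 2)) * (Gr i v * (10 ^ 8 * d1 ^ 2)) := by ring
    _ ≤ M * (Gr i (vl (n1, d1)) * (10 ^ 8 * d1 ^ 2)) := by
        apply mul_le_mul mF _ (by positivity) hM0
        exact mul_le_mul_of_nonneg_right mG (by positivity)

theorem LN_sound {n0 d0 n1 d1 : ℕ} (hd0 : 0 < d0) (hd1 : 0 < d1) {v : ℝ}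
    (h0 : vl (n0, d0) ≤ v) (h1 : v ≤ vl (n1, d1)) : ∀ b : ℕ, b ≤ 4 →
    (∏ i ∈ Finset.range b, Gb (g1 i) (g2 i) v ^ sg i) * (10 ^ 16 * (d0 : ℝ) ^ 2 * (d1 : ℝ) ^ 4) ^ SN b ≤
      ((LN n0 d0 n1 d1 b : ℕ) : ℝ) := by
  have hv : 0 ≤ v := le_trans (by unfold vl; positivity) h0
  intro b
  induction b with
  | zero => intro _; simp [LN, SN]
  | succ b ih =>
    intro hb
    have ih' := ih (by omega)
    rw [Finset.prod_range_succ]
    have hS : SN (b + 1) = SN b + sg b := rfl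
    have hL : LN n0 d0 n1 d1 (b + 1) = LN n0 d0 n1 d1 b * (max (Fn (AN b) (b2N b) n0 d0 * d1 ^ 2)
      (Fn (AN b) (b2N b) n1 d1 * d0 ^ 2) * Fn (BN b) (b2N b) n1 d1) ^ sg b := rfl
    rw [hS, hL, pow_add, Nat.cast_mul, Nat.cast_pow, Gb_eq b (by omega)]
    have hf := factor b hd0 hd1 h0 h1
    have hnn : 0 ≤ Fr b v * Gr b v := mul_nonneg (Fr_nonneg b v hv) (Gr_nonneg b v hv)
    calc (∏ i ∈ Finset.range b, Gb (g1 i) (g2 i) v ^ sg i) * (Fr b v * Gr b v) ^ sg b *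
          ((10 ^ 16 * (d0 : ℝ) ^ 2 * (d1 : ℝ) ^ 4) ^ SN b * (10 ^ 16 * (d0 : ℝ) ^ 2 * (d1 : ℝ) ^ 4) ^ sg b)
        = ((∏ i ∈ Finset.range b, Gb (g1 i) (g2 i) v ^ sg i) *
          (10 ^ 16 * (d0 : ℝ) ^ 2 * (d1 : ℝ) ^ 4) ^ SN b) *
          (Fr b v * Gr b v * (10 ^ 16 * (d0 : ℝ) ^ 2 * (d1 : ℝ) ^ 4)) ^ sg b := by
          rw [mul_pow (Fr b v * Gr b v)]; ring
      _ ≤ _ := by
          apply mul_le_mul ih' _ (by positivity) (Nat.cast_nonneg _)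
          exact pow_le_pow_left₀ (by positivity) hf _

/-- product over a list -/
noncomputable def Q (L : List (ℕ × ℕ × ℕ)) (v : ℝ) : ℝ :=
  (L.map fun y => (1 + v / ((y.1 : ℝ) / y.2.1) ^ 2) ^ y.2.2).prod

theorem FXp_eq (v : ℝ) : FXp v = Q FXN v := by
  unfold FXp Q FX FXN L1 L6 L2
  simp

theorem Q_append (L L' : List (ℕ × ℕ × ℕ)) (v : ℝ) : Q (L ++ L') v = Q L v * Q L' v := by
  unfold Q
  rw [List.map_append, List.prod_append]

/-- entries positive -/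
def Pos (L : List (ℕ × ℕ × ℕ)) : Prop := ∀ y ∈ L, 0 < y.1 ∧ 0 < y.2.1

theorem Q_pos (L : List (ℕ × ℕ × ℕ)) (hL : Pos L) {v : ℝ} (hv : 0 ≤ v) : 0 < Q L v := by
  induction L with
  | nil => simp [Q]
  | cons y L ih =>
    have hy := hL y (by simp)
    have ih' := ih (fun z hz => hL z (by simp [hz]))
    unfold Q at ih' ⊢
    rw [List.map_cons, List.prod_cons]
    have h1 : (0 : ℝ) < y.1 := by exact_mod_cast hy.1
    have h2 : (0 : ℝ) < y.2.1 := by exact_mod_cast hy.2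
    positivity

theorem P2_pos (L : List (ℕ × ℕ × ℕ)) (hL : Pos L) {d : ℕ} (hd : 0 < d) : (0 : ℝ) < P2 L d := by
  induction L with
  | nil => simp [P2]
  | cons y L ih =>
    have hy := hL y (by simp)
    have ih' := ih (fun z hz => hL z (by simp [hz]))
    unfold P2 at ih' ⊢
    rw [List.map_cons, List.prod_cons]
    push_cast at ih' ⊢
    have h1 : (0 : ℝ) < y.1 := by exact_mod_cast hy.1
    have h2 : (0 : ℝ) < d := by exact_mod_cast hd
    positivity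

theorem C6_pos (L : List (ℕ × ℕ × ℕ)) (hL : Pos L) : (0 : ℝ) < C6 L := by
  induction L with
  | nil => simp [C6]
  | cons y L ih =>
    have hy := hL y (by simp)
    have ih' := ih (fun z hz => hL z (by simp [hz]))
    unfold C6 at ih' ⊢
    rw [List.map_cons, List.prod_cons]
    push_cast at ih' ⊢
    have h1 : (0 : ℝ) < y.1 := by exact_mod_cast hy.1
    positivity

theorem Q_low (L : List (ℕ × ℕ × ℕ)) (hL : Pos L) {n d : ℕ} (hd : 0 < d) {v : ℝ}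
    (h : vl (n, d) ≤ v) : (P1 L n d : ℝ) ≤ Q L v * P2 L d := by
  have hd' : (0 : ℝ) < d := by exact_mod_cast hd
  have hn : (n : ℝ) ≤ v * d := by
    have : (n : ℝ) / d ≤ v := h
    rwa [div_le_iff₀ hd'] at this
  have hv : 0 ≤ v := le_trans (by unfold vl; positivity) h
  induction L with
  | nil => simp [P1, Q, P2]
  | cons y L ih =>
    have hy := hL y (by simp)
    have hL' : Pos L := fun z hz => hL z (by simp [hz])
    have ih' := ih hL'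
    have hQ := Q_pos L hL' hv
    have hP := P2_pos L hL' hd
    have h1 : (0 : ℝ) < y.1 := by exact_mod_cast hy.1
    have h2 : (0 : ℝ) < y.2.1 := by exact_mod_cast hy.2
    have e1 : P1 (y :: L) n d = (d * y.1 ^ 2 + n * y.2.1 ^ 2) ^ y.2.2 * P1 L n d := by
      unfold P1; rw [List.map_cons, List.prod_cons]
    have e2 : P2 (y :: L) d = (d * y.1 ^ 2) ^ y.2.2 * P2 L d := by
      unfold P2; rw [List.map_cons, List.prod_cons]
    have e3 : Q (y :: L) v = (1 + v / ((y.1 : ℝ) / y.2.1) ^ 2) ^ y.2.2 * Q L v := by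
      unfold Q; rw [List.map_cons, List.prod_cons]
    rw [e1, e2, e3]
    push_cast
    have hstep : (d : ℝ) * y.1 ^ 2 + n * y.2.1 ^ 2 ≤ (1 + v / ((y.1 : ℝ) / y.2.1) ^ 2) * (d * y.1 ^ 2) := by
      have : (1 + v / ((y.1 : ℝ) / y.2.1) ^ 2) * (d * y.1 ^ 2) = d * y.1 ^ 2 + v * d * y.2.1 ^ 2 := by
        field_simp
      rw [this]
      nlinarith [mul_le_mul_of_nonneg_right hn (sq_nonneg (y.2.1 : ℝ))]
    calc ((d : ℝ) * y.1 ^ 2 + n * y.2.1 ^ 2) ^ y.2.2 * (P1 L n d : ℝ)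
        ≤ ((1 + v / ((y.1 : ℝ) / y.2.1) ^ 2) * (d * y.1 ^ 2)) ^ y.2.2 * (Q L v * P2 L d) := by
          apply mul_le_mul _ ih' (Nat.cast_nonneg _) (by positivity)
          exact pow_le_pow_left₀ (by positivity) hstep _
      _ = _ := by rw [mul_pow]; ring

theorem Q_six (L : List (ℕ × ℕ × ℕ)) (hL : Pos L) {v : ℝ} (hv : 0 ≤ v) :
    v ^ (L.map fun y => y.2.2).sum * (D6 L : ℝ) ≤ Q L v * C6 L := by
  induction L with
  | nil => simp [D6, Q, C6]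
  | cons y L ih =>
    have hy := hL y (by simp)
    have hL' : Pos L := fun z hz => hL z (by simp [hz])
    have ih' := ih hL'
    have hQ := Q_pos L hL' hv
    have hP := C6_pos L hL'
    have h1 : (0 : ℝ) < y.1 := by exact_mod_cast hy.1
    have h2 : (0 : ℝ) < y.2.1 := by exact_mod_cast hy.2
    have e1 : D6 (y :: L) = (y.2.1 ^ 2) ^ y.2.2 * D6 L := by
      unfold D6; rw [List.map_cons, List.prod_cons]
    have e2 : C6 (y :: L) = (y.1 ^ 2) ^ y.2.2 * C6 L := by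
      unfold C6; rw [List.map_cons, List.prod_cons]
    have e3 : Q (y :: L) v = (1 + v / ((y.1 : ℝ) / y.2.1) ^ 2) ^ y.2.2 * Q L v := by
      unfold Q; rw [List.map_cons, List.prod_cons]
    rw [e1, e2, e3, List.map_cons, List.sum_cons, pow_add]
    push_cast
    have hstep : v * (y.2.1 : ℝ) ^ 2 ≤ (1 + v / ((y.1 : ℝ) / y.2.1) ^ 2) * (y.1 : ℝ) ^ 2 := by
      have : (1 + v / ((y.1 : ℝ) / y.2.1) ^ 2) * (y.1 : ℝ) ^ 2 = y.1 ^ 2 + v * y.2.1 ^ 2 := by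
        field_simp
      rw [this]
      nlinarith [sq_nonneg (y.1 : ℝ)]
    calc v ^ y.2.2 * v ^ (L.map fun y => y.2.2).sum * (((y.2.1 : ℝ) ^ 2) ^ y.2.2 * (D6 L : ℝ))
        = (v * (y.2.1 : ℝ) ^ 2) ^ y.2.2 * (v ^ (L.map fun y => y.2.2).sum * (D6 L : ℝ)) := by
          rw [mul_pow v]; ring
      _ ≤ ((1 + v / ((y.1 : ℝ) / y.2.1) ^ 2) * (y.1 : ℝ) ^ 2) ^ y.2.2 * (Q L v * C6 L) := by
          apply mul_le_mul _ ih' (by positivity) (by positivity)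
          exact pow_le_pow_left₀ (by positivity) hstep _
      _ = _ := by rw [mul_pow]; ring

theorem posL1 : Pos L1 := by unfold Pos; decide
theorem posL6 : Pos L6 := by unfold Pos; decide
theorem posL2 : Pos L2 := by unfold Pos; decide
theorem posFXN : Pos FXN := by unfold Pos; decide

theorem real_interval {L D P2' LN' T P1' Q' : ℝ} (hL : L * D ≤ LN') (hQ : P1' ≤ Q' * P2')
    (hP2 : 0 < P2') (hD : 0 < D) (hT : 0 ≤ T) (hle : LN' * P2' ≤ T * P1' * D) : L ≤ T * Q' := by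
  have hc : 0 < D * P2' := mul_pos hD hP2
  refine le_of_mul_le_mul_right ?_ hc
  calc L * (D * P2') = L * D * P2' := by ring
    _ ≤ LN' * P2' := mul_le_mul_of_nonneg_right hL hP2.le
    _ ≤ T * P1' * D := hle
    _ ≤ T * (Q' * P2') * D := by
        apply mul_le_mul_of_nonneg_right _ hD.le
        exact mul_le_mul_of_nonneg_left hQ hT
    _ = T * Q' * (D * P2') := by ring

theorem nat_interval (LN' P2' T P1' d0 d1 S : ℕ)
    (h : LN' * P2' ≤ 2 ^ T * P1' * (10 ^ 16 * d0 ^ 2 * d1 ^ 4) ^ S) :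
    (LN' : ℝ) * (P2' : ℝ) ≤ 2 ^ T * (P1' : ℝ) * (10 ^ 16 * (d0 : ℝ) ^ 2 * (d1 : ℝ) ^ 4) ^ S := by
  exact_mod_cast h

theorem D_pos (d0 d1 S : ℕ) (h0 : 0 < d0) (h1 : 0 < d1) :
    (0 : ℝ) < (10 ^ 16 * (d0 : ℝ) ^ 2 * (d1 : ℝ) ^ 4) ^ S := by
  have h0' : (0 : ℝ) < d0 := by exact_mod_cast h0
  have h1' : (0 : ℝ) < d1 := by exact_mod_cast h1
  positivity

theorem T_pos (T : ℕ) : (0 : ℝ) ≤ 2 ^ T := by positivity

theorem chkI_spec {b : ℕ} {p q : ℕ × ℕ} (h : chkI b p q = true) :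
    0 < p.2 ∧ 0 < q.2 ∧ LN p.1 p.2 q.1 q.2 b * P2 FXN p.2 ≤
      2 ^ tb b * P1 FXN p.1 p.2 * (10 ^ 16 * p.2 ^ 2 * q.2 ^ 4) ^ SN b := by
  unfold chkI at h
  rw [Bool.and_eq_true, Bool.and_eq_true] at h
  exact ⟨of_decide_eq_true h.1.1, of_decide_eq_true h.1.2, of_decide_eq_true h.2⟩

theorem interval {b : ℕ} (hb : b ≤ 4) {p q : ℕ × ℕ} (h : chkI b p q = true) {v : ℝ}
    (h0 : vl p ≤ v) (h1 : v ≤ vl q) :
    ∏ i ∈ Finset.range b, Gb (g1 i) (g2 i) v ^ sg i ≤ 2 ^ tb b * FXp v := by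
  obtain ⟨n0, d0⟩ := p
  obtain ⟨n1, d1⟩ := q
  obtain ⟨hp, hq, hle⟩ := chkI_spec h
  rw [FXp_eq]
  exact real_interval (LN_sound hp hq h0 h1 b hb) (Q_low FXN posFXN hp h0)
    (P2_pos FXN posFXN hp) (D_pos _ _ _ hp hq) (T_pos _) (nat_interval _ _ _ _ _ _ _ hle)

theorem chain {b : ℕ} (hb : b ≤ 4) : ∀ (l : List (ℕ × ℕ)) (p : ℕ × ℕ), chkL b (p :: l) = true →
    ∀ v : ℝ, vl p ≤ v → v < vl ((p :: l).getLast (by simp)) →
    ∏ i ∈ Finset.range b, Gb (g1 i) (g2 i) v ^ sg i ≤ 2 ^ tb b * FXp v := by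
  intro l
  induction l with
  | nil =>
    intro p _ v h0 h1
    simp at h1
    linarith
  | cons q l ih =>
    intro p h v h0 h1
    have h' : chkI b p q = true ∧ chkL b (q :: l) = true := by
      have : chkL b (p :: q :: l) = (chkI b p q && chkL b (q :: l)) := rfl
      rw [this, Bool.and_eq_true] at h
      exact h
    rcases le_or_gt v (vl q) with h2 | h2
    · exact interval hb h'.1 h0 h2
    · apply ih q h'.2 v h2.le
      rw [List.getLast_cons (by simp)] at h1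
      exact h1

theorem Gb_tail (i : ℕ) (hi : i < 4) {v : ℝ} (hv : 160 ≤ v) :
    0 ≤ Gb (g1 i) (g2 i) v ∧ Gb (g1 i) (g2 i) v ≤ (206 / 100 * v ^ 2) ^ 2 := by
  rw [Gb_eq i hi]
  have hv0 : 0 ≤ v := by linarith
  have hF := Fr_nonneg i v hv0
  have hG := Gr_nonneg i v hv0
  refine ⟨mul_nonneg hF hG, ?_⟩
  have hA : ((AN i : ℕ) : ℝ) ≤ 48000 := by exact_mod_cast A_le i
  have hB : ((BN i : ℕ) : ℝ) ≤ 1600000 := by exact_mod_cast B_le i
  have hA0 : (0 : ℝ) ≤ AN i := Nat.cast_nonneg _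
  have hB0 : (0 : ℝ) ≤ BN i := Nat.cast_nonneg _
  have hb0 : (0 : ℝ) ≤ b2N i := Nat.cast_nonneg _
  have h1 : Fr i v ≤ (103 / 100 * v) ^ 2 := by
    unfold Fr
    have h3 : v + (AN i : ℝ) / 10 ^ 4 ≤ 103 / 100 * v := by
      have : (AN i : ℝ) / 10 ^ 4 ≤ 48 / 10 := by
        rw [div_le_iff₀ (by positivity)]; linarith
      linarith
    have h4 : (v + (AN i : ℝ) / 10 ^ 4) ^ 2 ≤ (103 / 100 * v) ^ 2 :=
      pow_le_pow_left₀ (by positivity) h3 2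
    have h5 : 0 ≤ 4 * ((b2N i : ℝ) / 10 ^ 4) * v := by positivity
    linarith
  have h2 : Gr i v ≤ (2 * v) ^ 2 := by
    unfold Gr
    have h3 : v + (BN i : ℝ) / 10 ^ 4 ≤ 2 * v := by
      have : (BN i : ℝ) / 10 ^ 4 ≤ 160 := by
        rw [div_le_iff₀ (by positivity)]; linarith
      linarith
    have h4 : (v + (BN i : ℝ) / 10 ^ 4) ^ 2 ≤ (2 * v) ^ 2 :=
      pow_le_pow_left₀ (by positivity) h3 2
    have h5 : 0 ≤ 4 * ((b2N i : ℝ) / 10 ^ 4) * v := by positivity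
    linarith
  calc Fr i v * Gr i v ≤ (103 / 100 * v) ^ 2 * (2 * v) ^ 2 := mul_le_mul h1 h2 hG (by positivity)
    _ = (206 / 100 * v ^ 2) ^ 2 := by ring

theorem prod_tail {v : ℝ} (hv : 160 ≤ v) : ∀ b : ℕ, b ≤ 4 →
    ∏ i ∈ Finset.range b, Gb (g1 i) (g2 i) v ^ sg i ≤ ((206 / 100 * v ^ 2) ^ 2) ^ SN b := by
  intro b
  induction b with
  | zero => intro _; simp [SN]
  | succ b ih =>
    intro hb
    rw [Finset.prod_range_succ]
    have hS : SN (b + 1) = SN b + sg b := rfl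
    rw [hS, pow_add]
    have hG := Gb_tail b (by omega) hv
    apply mul_le_mul (ih (by omega)) (pow_le_pow_left₀ hG.1 hG.2 _) (pow_nonneg hG.1 _)
    positivity

theorem real_tail {P v d n H1 H2 T q1 q2 q6 p1 p2 c6 r1 r2 d6 : ℝ} {S Z : ℕ}
    (hS : 4 * S + Z = 720)
    (hv0 : 0 ≤ v) (hd : 0 < d) (hn0 : 0 ≤ n) (hnv : n ≤ v * d) (hH2 : 0 < H2)
    (hP : P ≤ ((H1 / H2 * v ^ 2) ^ 2) ^ S)
    (h1 : r1 ≤ q1 * p1) (h2 : r2 ≤ q2 * p2) (h6 : v ^ 720 * d6 ≤ q6 * c6)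
    (hp1 : 0 < p1) (hp2 : 0 < p2) (hc6 : 0 < c6) (hr1 : 0 ≤ r1) (hr2 : 0 ≤ r2)
    (hq1 : 0 < q1) (hq2 : 0 < q2) (hd6 : 0 ≤ d6) (hT : 0 ≤ T)
    (hle : H1 ^ (2 * S) * p1 * p2 * c6 * d ^ Z ≤ H2 ^ (2 * S) * T * n ^ Z * r1 * r2 * d6) :
    P ≤ T * (q1 * q6 * q2) := by
  refine hP.trans ?_
  have hc : (0 : ℝ) < H2 ^ (2 * S) * p1 * p2 * c6 * d ^ Z := by positivity
  refine le_of_mul_le_mul_right ?_ hc
  have e1 : ((H1 / H2 * v ^ 2) ^ 2) ^ S * H2 ^ (2 * S) = H1 ^ (2 * S) * v ^ (4 * S) := by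
    rw [← pow_mul, mul_pow, div_pow, ← pow_mul]
    have : (2 : ℕ) * (2 * S) = 4 * S := by ring
    rw [this]
    have h100 : H2 ^ (2 * S) ≠ 0 := by positivity
    field_simp
  have hnZ : n ^ Z ≤ (v * d) ^ Z := pow_le_pow_left₀ hn0 hnv Z
  have hH2S : 0 ≤ H2 ^ (2 * S) := by positivity
  have hvS : 0 ≤ v ^ (4 * S) := by positivity
  have hdZ : 0 ≤ d ^ Z := by positivity
  have e3 : v ^ (4 * S) * (v * d) ^ Z = v ^ 720 * d ^ Z := by
    rw [← hS, pow_add, mul_pow]; ring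
  calc ((H1 / H2 * v ^ 2) ^ 2) ^ S * (H2 ^ (2 * S) * p1 * p2 * c6 * d ^ Z)
      = (((H1 / H2 * v ^ 2) ^ 2) ^ S * H2 ^ (2 * S)) * (p1 * p2 * c6 * d ^ Z) := by ring
    _ = v ^ (4 * S) * (H1 ^ (2 * S) * p1 * p2 * c6 * d ^ Z) := by
        rw [e1]; ring
    _ ≤ v ^ (4 * S) * (H2 ^ (2 * S) * T * n ^ Z * r1 * r2 * d6) :=
        mul_le_mul_of_nonneg_left hle hvS
    _ ≤ v ^ (4 * S) * (H2 ^ (2 * S) * T * (v * d) ^ Z * (q1 * p1) * (q2 * p2) * d6) := by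
        apply mul_le_mul_of_nonneg_left _ hvS
        apply mul_le_mul_of_nonneg_right _ hd6
        have hvd : 0 ≤ (v * d) ^ Z := pow_nonneg (by positivity) _
        apply mul_le_mul _ h2 hr2 (by positivity)
        apply mul_le_mul _ h1 hr1 (by positivity)
        apply mul_le_mul_of_nonneg_left hnZ (by positivity)
    _ = H2 ^ (2 * S) * T * (q1 * p1) * (q2 * p2) * d6 * (v ^ (4 * S) * (v * d) ^ Z) := by ring
    _ = H2 ^ (2 * S) * T * d ^ Z * (q1 * p1) * (q2 * p2) * (v ^ 720 * d6) := by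
        rw [e3]; ring
    _ ≤ H2 ^ (2 * S) * T * d ^ Z * (q1 * p1) * (q2 * p2) * (q6 * c6) := by
        apply mul_le_mul_of_nonneg_left h6
        positivity
    _ = _ := by ring

theorem nat_tail (S p1 p2 c6 d Z T n r1 r2 d6 : ℕ)
    (h : 206 ^ (2 * S) * p1 * p2 * c6 * d ^ Z ≤ 100 ^ (2 * S) * 2 ^ T * n ^ Z * r1 * r2 * d6) :
    (206 : ℝ) ^ (2 * S) * (p1 : ℝ) * (p2 : ℝ) * (c6 : ℝ) * (d : ℝ) ^ Z ≤
      100 ^ (2 * S) * 2 ^ T * (n : ℝ) ^ Z * (r1 : ℝ) * (r2 : ℝ) * (d6 : ℝ) := by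
  exact_mod_cast h

theorem chkT_spec {b : ℕ} {p : ℕ × ℕ} (h : chkT b p = true) :
    0 < p.2 ∧ 160 * p.2 ≤ p.1 ∧ 206 ^ (2 * SN b) * P2 L1 p.2 * P2 L2 p.2 * C6 L6 *
      p.2 ^ (720 - 4 * SN b) ≤
      100 ^ (2 * SN b) * 2 ^ tb b * p.1 ^ (720 - 4 * SN b) * P1 L1 p.1 p.2 * P1 L2 p.1 p.2 *
        D6 L6 := by
  unfold chkT at h
  rw [Bool.and_eq_true, Bool.and_eq_true] at h
  exact ⟨of_decide_eq_true h.1.1, of_decide_eq_true h.1.2, of_decide_eq_true h.2⟩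

theorem cast_nn (m : ℕ) : (0 : ℝ) ≤ (m : ℝ) := Nat.cast_nonneg m

theorem tail {b : ℕ} (hb : b ≤ 4) (hS : 4 * SN b ≤ 720) {p : ℕ × ℕ} (h : chkT b p = true) {v : ℝ}
    (h0 : vl p ≤ v) :
    ∏ i ∈ Finset.range b, Gb (g1 i) (g2 i) v ^ sg i ≤ 2 ^ tb b * FXp v := by
  obtain ⟨n, d⟩ := p
  obtain ⟨hp, hq, hle⟩ := chkT_spec h
  have hd : (0 : ℝ) < d := by exact_mod_cast hp
  have hnv : (n : ℝ) ≤ v * d := by
    have : (n : ℝ) / d ≤ v := h0
    rwa [div_le_iff₀ hd] at this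
  have hv : 160 ≤ v := by
    have h1 : (160 : ℝ) * d ≤ n := by exact_mod_cast hq
    have h2 : (160 : ℝ) * d ≤ v * d := h1.trans hnv
    exact le_of_mul_le_mul_right h2 hd
  have hv0 : 0 ≤ v := by linarith
  have q6 := Q_six L6 posL6 hv0
  have hsum : (L6.map fun y => y.2.2).sum = 720 := by decide
  rw [hsum] at q6
  have hFX : FXp v = Q L1 v * Q L6 v * Q L2 v := by
    rw [FXp_eq]
    unfold FXN
    rw [Q_append, Q_append]
  rw [hFX]
  have hZ' : 4 * SN b + (720 - 4 * SN b) = 720 := by omega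
  exact real_tail hZ' hv0 hd (cast_nn _) hnv (by norm_num) (prod_tail hv b hb)
    (Q_low L1 posL1 hp h0) (Q_low L2 posL2 hp h0) q6
    (P2_pos L1 posL1 hp) (P2_pos L2 posL2 hp) (C6_pos L6 posL6) (cast_nn _) (cast_nn _)
    (Q_pos L1 posL1 hv0) (Q_pos L2 posL2 hv0) (cast_nn _) (T_pos _)
    (nat_tail _ _ _ _ _ _ _ _ _ _ _ hle)

theorem c1 : chkL 1 br1 = true := by decide +kernel
theorem c2 : chkL 2 br2 = true := by decide +kernel
theorem c3 : chkL 3 br3 = true := by decide +kernel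
theorem c4 : chkL 4 br4 = true := by decide +kernel
theorem t1 : chkT 1 (br1.getLast (by decide)) = true := by decide +kernel
theorem t2 : chkT 2 (br2.getLast (by decide)) = true := by decide +kernel
theorem t3 : chkT 3 (br3.getLast (by decide)) = true := by decide +kernel
theorem t4 : chkT 4 (br4.getLast (by decide)) = true := by decide +kernel

theorem both {b : ℕ} (hb : b ≤ 4) (hS : 4 * SN b ≤ 720) (l : List (ℕ × ℕ)) (p : ℕ × ℕ)
    (hp : p.1 = 0) (h1 : chkL b (p :: l) = true)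
    (h2 : chkT b ((p :: l).getLast (by simp)) = true) {v : ℝ} (hv : 0 ≤ v) :
    ∏ i ∈ Finset.range b, Gb (g1 i) (g2 i) v ^ sg i ≤ 2 ^ tb b * FXp v := by
  rcases lt_or_ge v (vl ((p :: l).getLast (by simp))) with h | h
  · apply chain hb l p h1 v _ h
    unfold vl
    rw [hp]
    simpa using hv
  · exact tail hb hS h2 h

end G3

open G3

theorem G3_cert (b : ℕ) (hb : b ≤ 4) (v : ℝ) (hv : 0 ≤ v) :
    ∏ i ∈ Finset.range b, Gb (g1 i) (g2 i) v ^ sg i ≤ 2 ^ tb b * FXp v := by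
  interval_cases b
  · rw [FXp_eq]
    have h : (1 : ℝ) ≤ Q FXN v := by
      have := Q_low FXN posFXN (n := 0) (d := 1) one_pos (v := v) (by unfold vl; simpa using hv)
      have e : P1 FXN 0 1 = P2 FXN 1 := by
        unfold P1 P2
        simp
      rw [e] at this
      have hp := P2_pos FXN posFXN one_pos
      have h2 : 1 * (P2 FXN 1 : ℝ) ≤ Q FXN v * P2 FXN 1 := by rw [one_mul]; exact this
      exact le_of_mul_le_mul_right h2 hp
    simpa [tb] using h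
  · exact both (by norm_num) (by decide) _ _ rfl c1 t1 hv
  · exact both (by norm_num) (by decide) _ _ rfl c2 t2 hv
  · exact both (by norm_num) (by decide) _ _ rfl c3 t3 hv
  · exact both (by norm_num) (by decide) _ _ rfl c4 t4 hv

end Pool.Agent.H336R2.HD
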