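import Pool.Agent.H336R2.HD.Defs
import Pool.Agent.H336R2.HD.A1
import Pool.Agent.H336R2.HD.A3
import Pool.Agent.H336R2.HD.B2
import Pool.Agent.H336R2.HD.G1
import Pool.Agent.H336R2.HD.G2
import Pool.Agent.H336R2.HD.G3

open Polynomial Pool.Agent.H337R2 Filter Topology

namespace Pool.Agent.H336R2.HD

noncomputable section



namespace G4

/-- the linear polynomial `x + 36 n²` -/
def Lin (n : ℕ) : ℚ[X] := X + C (36 * (n : ℚ) ^ 2)

/-- the quadratic polynomials -/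
def QB (n b : ℕ) : ℚ[X] := qb n (g1 b) (g2 b)

lemma Lin_monic (n : ℕ) : (Lin n).Monic := monic_X_add_C _

lemma Lin_deg (n : ℕ) : (Lin n).natDegree = 1 := natDegree_X_add_C _

lemma QB_aux (p : ℚ[X]) (hp : p.Monic) (hd : p.natDegree = 1) (c d : ℚ) :
    (p ^ 2 - C c * p + C d).Monic ∧ (p ^ 2 - C c * p + C d).natDegree = 2 := by
  have h1 : (p ^ 2).Monic := hp.pow 2
  have h2 : (p ^ 2).natDegree = 2 := by rw [hp.natDegree_pow, hd]
  have h3 : (- C c * p + C d).natDegree < (p ^ 2).natDegree := by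
    rw [h2]
    have e1 : (- C c * p).natDegree ≤ 1 := by
      have e2 : - C c * p = C (-c) * p := by rw [C_neg]
      rw [e2]
      exact (natDegree_C_mul_le _ _).trans hd.le
    have e3 : (C d : ℚ[X]).natDegree ≤ 1 := by rw [natDegree_C]; omega
    have := natDegree_add_le_of_degree_le e1 e3
    omega
  have h4 : p ^ 2 - C c * p + C d = p ^ 2 + (- C c * p + C d) := by ring
  rw [h4]
  refine ⟨h1.add_of_left (degree_lt_degree h3), ?_⟩
  rw [natDegree_add_eq_left_of_natDegree_lt h3, h2]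

lemma QB_monic (n b : ℕ) : (QB n b).Monic := (QB_aux _ (Lin_monic n) (Lin_deg n) _ _).1

lemma QB_deg (n b : ℕ) : (QB n b).natDegree = 2 := (QB_aux _ (Lin_monic n) (Lin_deg n) _ _).2

/-- half the offsets -/
def ho (b : ℕ) : ℕ := ∑ i ∈ Finset.range b, sg i

/-- the monic polynomials -/
def PA (n N b j : ℕ) : ℚ[X] :=
  (∏ i ∈ Finset.range b, QB n i ^ (sg i * N)) * QB n b ^ (j / 2) * Lin n ^ (j % 2)

lemma PA_monic (n N b j : ℕ) : (PA n N b j).Monic :=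
  ((monic_prod_of_monic _ _ fun i _ => (QB_monic n i).pow _).mul ((QB_monic n b).pow _)).mul
    ((Lin_monic n).pow _)

lemma PA_deg (n N b j : ℕ) : (PA n N b j).natDegree = 2 * (ho b * N) + j := by
  unfold PA
  have h1 : (∏ i ∈ Finset.range b, QB n i ^ (sg i * N)).Monic :=
    monic_prod_of_monic _ _ fun i _ => (QB_monic n i).pow _
  have h2 : (QB n b ^ (j / 2)).Monic := (QB_monic n b).pow _
  have h3 : (Lin n ^ (j % 2)).Monic := (Lin_monic n).pow _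
  rw [(h1.mul h2).natDegree_mul h3, h1.natDegree_mul h2, (QB_monic n b).natDegree_pow,
    (Lin_monic n).natDegree_pow, QB_deg, Lin_deg,
    natDegree_prod_of_monic _ _ fun i _ => (QB_monic n i).pow _]
  have h4 : ∀ i ∈ Finset.range b, (QB n i ^ (sg i * N)).natDegree = sg i * (2 * N) := by
    intro i _
    rw [(QB_monic n i).natDegree_pow, QB_deg]; ring
  rw [Finset.sum_congr rfl h4, ← Finset.sum_mul]
  unfold ho
  have : j / 2 * 2 + j % 2 * 1 = j := by omega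
  rw [add_assoc, this]
  ring

/-- position of an index -/
def loc (N i : ℕ) : ℕ × ℕ :=
  if i < 20 * N then (0, i) else if i < 48 * N then (1, i - 20 * N) else
    if i < 88 * N then (2, i - 48 * N) else (3, i - 88 * N)

lemma ho0 : ho 0 = 0 := by decide
lemma ho1 : ho 1 = 10 := by decide
lemma ho2 : ho 2 = 24 := by decide
lemma ho3 : ho 3 = 44 := by decide
lemma ho4 : ho 4 = 72 := by decide

lemma loc_spec {N i : ℕ} (hi : i < 144 * N) :
    (loc N i).1 ≤ 3 ∧ 2 * (ho (loc N i).1 * N) + (loc N i).2 = i ∧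
      (loc N i).2 < 2 * (sg (loc N i).1 * N) := by
  unfold loc
  split_ifs with h1 h2 h3
  · refine ⟨by omega, ?_, ?_⟩
    · simp only [ho0]; omega
    · show i < 2 * (10 * N); omega
  · refine ⟨by omega, ?_, ?_⟩
    · simp only [ho1]; omega
    · show i - 20 * N < 2 * (14 * N); omega
  · refine ⟨by omega, ?_, ?_⟩
    · simp only [ho2]; omega
    · show i - 48 * N < 2 * (20 * N); omega
  · refine ⟨by omega, ?_, ?_⟩
    · simp only [ho3]; omega
    · show i - 88 * N < 2 * (28 * N); omega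

lemma sum_loc (N : ℕ) (f : ℕ → ℕ → ℝ) :
    ∑ i ∈ Finset.range (144 * N), f (loc N i).1 (loc N i).2 =
      ∑ b ∈ Finset.range 4, ∑ j ∈ Finset.range (2 * (sg b * N)), f b j := by
  have e : 144 * N = 20 * N + 28 * N + 40 * N + 56 * N := by ring
  rw [e, Finset.sum_range_add, Finset.sum_range_add, Finset.sum_range_add]
  have s0 : 2 * (sg 0 * N) = 20 * N := by show 2 * (10 * N) = 20 * N; ring
  have s1 : 2 * (sg 1 * N) = 28 * N := by show 2 * (14 * N) = 28 * N; ring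
  have s2 : 2 * (sg 2 * N) = 40 * N := by show 2 * (20 * N) = 40 * N; ring
  have s3 : 2 * (sg 3 * N) = 56 * N := by show 2 * (28 * N) = 56 * N; ring
  rw [Finset.sum_range_succ, Finset.sum_range_succ, Finset.sum_range_succ, Finset.sum_range_one,
    s0, s1, s2, s3]
  congr 1
  · congr 1
    · congr 1
      · apply Finset.sum_congr rfl
        intro i hi
        rw [Finset.mem_range] at hi
        unfold loc
        rw [if_pos hi]
      · apply Finset.sum_congr rfl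
        intro i hi
        rw [Finset.mem_range] at hi
        unfold loc
        rw [if_neg (by omega), if_pos (by omega), Nat.add_sub_cancel_left]
    · apply Finset.sum_congr rfl
      intro i hi
      rw [Finset.mem_range] at hi
      unfold loc
      rw [if_neg (by omega), if_neg (by omega), if_pos (by omega)]
      congr 1
      show 20 * N + 28 * N + i - 48 * N = i
      omega
  · apply Finset.sum_congr rfl
    intro i hi
    rw [Finset.mem_range] at hi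
    unfold loc
    rw [if_neg (by omega), if_neg (by omega), if_neg (by omega)]
    congr 1
    show 20 * N + 28 * N + 40 * N + i - 88 * N = i
    omega


/-- the weight -/
def WW (n : ℕ) (y : ℝ) : ℝ :=
  ‖Rn n y‖ * ‖xz n y‖ ^ 15 * Real.exp (-(2 * Real.pi * |y|)) * (1 + y ^ 2) ^ 5

lemma WW_nonneg (n : ℕ) (y : ℝ) : 0 ≤ WW n y := by unfold WW; positivity

lemma FXp_nonneg (v : ℝ) (hv : 0 ≤ v) : 0 ≤ FXp v := by
  unfold FXp
  apply List.prod_nonneg
  intro a ha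
  rw [List.mem_map] at ha
  obtain ⟨x, _, rfl⟩ := ha
  positivity

lemma ho_succ (b : ℕ) : ho (b + 1) = ho b + sg b := by
  unfold ho; rw [Finset.sum_range_succ]

/-- product of the full blocks -/
def FB (n N b : ℕ) (y : ℝ) : ℝ :=
  ∏ i ∈ Finset.range b, (‖aeval (xz n y) (QB n i)‖ ^ 2) ^ (sg i * N)

lemma FB_nonneg (n N b : ℕ) (y : ℝ) : 0 ≤ FB n N b y := by unfold FB; positivity

lemma FB_succ (n N b : ℕ) (y : ℝ) :
    FB n N (b + 1) y = FB n N b y * (‖aeval (xz n y) (QB n b)‖ ^ 2) ^ (sg b * N) := by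
  unfold FB; rw [Finset.prod_range_succ]

lemma FB_le {n : ℕ} (hn : 100 ≤ n) (N b : ℕ) (hb : b ≤ 4) (y : ℝ) :
    FB n N b y ≤ (n : ℝ) ^ (8 * (ho b * N)) * 2 ^ (tb b * N) * FXp ((y / n) ^ 2) ^ N := by
  have hv : 0 ≤ (y / n) ^ 2 := by positivity
  have h1 : FB n N b y ≤ ∏ i ∈ Finset.range b,
      ((n : ℝ) ^ 8 * Gb (g1 i) (g2 i) ((y / n) ^ 2)) ^ (sg i * N) := by
    unfold FB
    apply Finset.prod_le_prod
    · intro i _; positivity
    · intro i _
      exact pow_le_pow_left₀ (by positivity) (G2_qb hn y i) _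
  have h2 : ∏ i ∈ Finset.range b, ((n : ℝ) ^ 8 * Gb (g1 i) (g2 i) ((y / n) ^ 2)) ^ (sg i * N) =
      (n : ℝ) ^ (8 * (ho b * N)) *
        (∏ i ∈ Finset.range b, Gb (g1 i) (g2 i) ((y / n) ^ 2) ^ sg i) ^ N := by
    have : ∀ i ∈ Finset.range b, ((n : ℝ) ^ 8 * Gb (g1 i) (g2 i) ((y / n) ^ 2)) ^ (sg i * N) =
        ((n : ℝ) ^ (8 * N)) ^ sg i * (Gb (g1 i) (g2 i) ((y / n) ^ 2) ^ sg i) ^ N := by
      intro i _
      rw [mul_pow, ← pow_mul, ← pow_mul, ← pow_mul]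
      congr 2
      ring
    rw [Finset.prod_congr rfl this, Finset.prod_mul_distrib, Finset.prod_pow,
      Finset.prod_pow_eq_pow_sum, ← pow_mul]
    unfold ho
    congr 2
    ring
  have hG : 0 ≤ ∏ i ∈ Finset.range b, Gb (g1 i) (g2 i) ((y / n) ^ 2) ^ sg i := by
    apply Finset.prod_nonneg
    intro i _
    apply pow_nonneg
    have := G2_qb hn y i
    have hn' : (0 : ℝ) < (n : ℝ) ^ 8 := by
      have : (0 : ℝ) < n := by exact_mod_cast (by omega : 0 < n)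
      positivity
    by_contra hc
    push Not at hc
    have h3 : (n : ℝ) ^ 8 * Gb (g1 i) (g2 i) ((y / n) ^ 2) < 0 := mul_neg_of_pos_of_neg hn' hc
    have h4 : 0 ≤ ‖aeval (xz n y) (qb n (g1 i) (g2 i))‖ ^ 2 := by positivity
    linarith
  have h3 := G3_cert b hb ((y / n) ^ 2) hv
  have h4 := pow_le_pow_left₀ hG h3 N
  rw [mul_pow, ← pow_mul] at h4
  rw [h2] at h1
  calc FB n N b y ≤ _ := h1
    _ ≤ (n : ℝ) ^ (8 * (ho b * N)) * (2 ^ (tb b * N) * FXp ((y / n) ^ 2) ^ N) := by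
        apply mul_le_mul_of_nonneg_left h4 (by positivity)
    _ = _ := by ring

/-- logarithm of the corner bound -/
def la (C : ℝ) (K n N b : ℕ) : ℝ :=
  Real.log C + K * Real.log n + n * Phi0 + 8 * (ho b * N) * Real.log n + tb b * N * Real.log 2

lemma corner {C : ℝ} {K : ℕ} (hC : 0 < C) (h : ∀ N : ℕ, 1 ≤ N → ∀ n : ℕ, n = 24 * N + 1 → ∀ y : ℝ,
    ‖Rn n y‖ * ‖xz n y‖ ^ 15 * Real.exp (-(2 * Real.pi * |y|)) * (1 + y ^ 2) ^ 5 * FXp ((y / n) ^ 2) ^ N ≤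
      C * (n : ℝ) ^ K * Real.exp (n * Phi0)) {n N : ℕ} (hN : 1 ≤ N) (hn : n = 24 * N + 1) (hn' : 100 ≤ n)
    {b : ℕ} (hb : b ≤ 4) (y : ℝ) :
    WW n y * FB n N b y ≤ Real.exp (la C K n N b) := by
  have h0 : (0 : ℝ) < n := by exact_mod_cast (by omega : 0 < n)
  have h1 := h N hN n hn y
  have h2 := FB_le hn' N b hb y
  have e : Real.exp (la C K n N b) =
      (C * (n : ℝ) ^ K * Real.exp (n * Phi0)) * ((n : ℝ) ^ (8 * (ho b * N)) * 2 ^ (tb b * N)) := by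
    unfold la
    rw [Real.exp_add, Real.exp_add, Real.exp_add, Real.exp_add, Real.exp_log hC]
    have e1 : Real.exp (K * Real.log n) = (n : ℝ) ^ K := by
      rw [Real.exp_nat_mul, Real.exp_log h0]
    have e2 : Real.exp (8 * (ho b * N) * Real.log n) = (n : ℝ) ^ (8 * (ho b * N)) := by
      have : (8 * (ho b * N) * Real.log n : ℝ) = ((8 * (ho b * N) : ℕ) : ℝ) * Real.log n := by
        push_cast; ring
      rw [this, Real.exp_nat_mul, Real.exp_log h0]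
    have e3 : Real.exp (tb b * N * Real.log 2) = (2 : ℝ) ^ (tb b * N) := by
      have : (tb b * N * Real.log 2 : ℝ) = ((tb b * N : ℕ) : ℝ) * Real.log 2 := by
        push_cast; ring
      rw [this, Real.exp_nat_mul, Real.exp_log (by norm_num)]
    rw [e1, e2, e3]
    ring
  rw [e]
  calc WW n y * FB n N b y
      ≤ WW n y * ((n : ℝ) ^ (8 * (ho b * N)) * 2 ^ (tb b * N) * FXp ((y / n) ^ 2) ^ N) :=
        mul_le_mul_of_nonneg_left h2 (WW_nonneg n y)
    _ = (WW n y * FXp ((y / n) ^ 2) ^ N) * ((n : ℝ) ^ (8 * (ho b * N)) * 2 ^ (tb b * N)) := by ring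
    _ ≤ _ := mul_le_mul_of_nonneg_right h1 (by positivity)

lemma interp {a q a0 b0 : ℝ} (ha : 0 ≤ a) (hq : 0 ≤ q) {S k : ℕ} (hS : 0 < S) (hk : k ≤ S)
    (h1 : a ≤ Real.exp a0) (h2 : a * q ^ S ≤ Real.exp b0) :
    a * q ^ k ≤ Real.exp ((1 - (k : ℝ) / S) * a0 + (k : ℝ) / S * b0) := by
  have hS' : (S : ℝ) ≠ 0 := by exact_mod_cast hS.ne'
  apply le_of_pow_le_pow_left₀ hS.ne' (Real.exp_pos _).le
  have e1 : Real.exp ((1 - (k : ℝ) / S) * a0 + (k : ℝ) / S * b0) ^ S =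
      Real.exp a0 ^ (S - k) * Real.exp b0 ^ k := by
    rw [← Real.exp_nat_mul, ← Real.exp_nat_mul, ← Real.exp_nat_mul, ← Real.exp_add]
    congr 1
    rw [Nat.cast_sub hk]
    field_simp
  have e2 : (a * q ^ k) ^ S = a ^ (S - k) * (a * q ^ S) ^ k := by
    rw [mul_pow, mul_pow, ← pow_mul, ← pow_mul, ← mul_assoc, ← pow_add, Nat.sub_add_cancel hk,
      mul_comm k S]
  rw [e1, e2]
  have h3 : a ^ (S - k) ≤ Real.exp a0 ^ (S - k) := pow_le_pow_left₀ ha h1 _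
  have h4 : (a * q ^ S) ^ k ≤ Real.exp b0 ^ k := pow_le_pow_left₀ (by positivity) h2 _
  exact mul_le_mul h3 h4 (by positivity) (by positivity)

lemma Lin_norm (n : ℕ) (hn : 1 ≤ n) (y : ℝ) :
    ‖aeval (xz n y) (Lin n)‖ ≤ 36 * (n : ℝ) ^ 2 * (1 + y ^ 2) := by
  have hn' : (1 : ℝ) ≤ n := by exact_mod_cast hn
  have e : aeval (xz n y) (Lin n) = (zl y + ((6 * n : ℝ) : ℂ)) ^ 2 := by
    unfold Lin xz
    simp only [map_add, aeval_X, aeval_C, eq_ratCast]
    push_cast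
    ring
  rw [e, norm_pow]
  have e2 : zl y + ((6 * n : ℝ) : ℂ) = ((6 * n - 1 / 2 : ℝ) : ℂ) + (y : ℂ) * Complex.I := by
    unfold zl
    push_cast
    ring
  rw [e2, Complex.sq_norm, Complex.normSq_add_mul_I]
  have h1 : (1 : ℝ) ≤ (n : ℝ) ^ 2 := by nlinarith
  have h2 : y ^ 2 ≤ (n : ℝ) ^ 2 * y ^ 2 := by nlinarith [mul_nonneg (sub_nonneg.2 h1) (sq_nonneg y)]
  have h3 : 0 ≤ (n : ℝ) ^ 2 * y ^ 2 := by positivity
  nlinarith

/-- the exponent of the bound -/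
def al (C : ℝ) (K n N b j : ℕ) : ℝ :=
  2 * Real.log (36 * (n : ℝ) ^ 2) +
    ((1 - ((j / 2 : ℕ) : ℝ) / ((sg b * N : ℕ) : ℝ)) * la C K n N b +
      ((j / 2 : ℕ) : ℝ) / ((sg b * N : ℕ) : ℝ) * la C K n N (b + 1))

lemma PA_norm (n N b j : ℕ) (y : ℝ) :
    ‖aeval (xz n y) (PA n N b j)‖ ^ 2 =
      FB n N b y * (‖aeval (xz n y) (QB n b)‖ ^ 2) ^ (j / 2) *
        (‖aeval (xz n y) (Lin n)‖ ^ 2) ^ (j % 2) := by
  unfold PA FB
  rw [map_mul, map_mul, map_prod, norm_mul, norm_mul, norm_prod, mul_pow, mul_pow, ← Finset.prod_pow]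
  congr 1
  · congr 1
    · apply Finset.prod_congr rfl
      intro i _
      rw [map_pow, norm_pow, ← pow_mul, ← pow_mul, mul_comm]
    · rw [map_pow, norm_pow, ← pow_mul, ← pow_mul, mul_comm]
  · rw [map_pow, norm_pow, ← pow_mul, ← pow_mul, mul_comm]

lemma sg_pos (b : ℕ) : 0 < sg b := by
  unfold sg
  split <;> norm_num

lemma PA_bound {C : ℝ} {K : ℕ} (hC : 0 < C) (h : ∀ N : ℕ, 1 ≤ N → ∀ n : ℕ, n = 24 * N + 1 → ∀ y : ℝ,
    ‖Rn n y‖ * ‖xz n y‖ ^ 15 * Real.exp (-(2 * Real.pi * |y|)) * (1 + y ^ 2) ^ 5 * FXp ((y / n) ^ 2) ^ N ≤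
      C * (n : ℝ) ^ K * Real.exp (n * Phi0)) {n N : ℕ} (hN : 1 ≤ N) (hn : n = 24 * N + 1) (hn' : 100 ≤ n)
    {b j : ℕ} (hb : b ≤ 3) (hj : j < 2 * (sg b * N)) (y : ℝ) :
    ‖Rn n y‖ * ‖xz n y‖ ^ 15 * Real.exp (-(2 * Real.pi * |y|)) * (1 + y ^ 2) *
      ‖aeval (xz n y) (PA n N b j)‖ ^ 2 ≤ Real.exp (al C K n N b j) := by
  have h0 : (1 : ℝ) ≤ n := by exact_mod_cast (by omega : 1 ≤ n)
  have hk : j / 2 ≤ sg b * N := by omega
  have hS : 0 < sg b * N := Nat.mul_pos (sg_pos b) hN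
  have c1 := corner hC h hN hn hn' (b := b) (by omega) y
  have c2 := corner hC h hN hn hn' (b := b + 1) (by omega) y
  rw [FB_succ, ← mul_assoc] at c2
  have h3 := interp (mul_nonneg (WW_nonneg n y) (FB_nonneg n N b y))
    (sq_nonneg ‖aeval (xz n y) (QB n b)‖) hS hk c1 c2
  have h4 : (‖aeval (xz n y) (Lin n)‖ ^ 2) ^ (j % 2) ≤ (36 * (n : ℝ) ^ 2) ^ 2 * (1 + y ^ 2) ^ 2 := by
    have h5 := Lin_norm n (by omega) y
    have h6 : ‖aeval (xz n y) (Lin n)‖ ^ 2 ≤ (36 * (n : ℝ) ^ 2) ^ 2 * (1 + y ^ 2) ^ 2 := by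
      rw [← mul_pow]
      exact pow_le_pow_left₀ (norm_nonneg _) h5 2
    have h7 : (1 : ℝ) ≤ (36 * (n : ℝ) ^ 2) ^ 2 * (1 + y ^ 2) ^ 2 := by
      have h8 : (1 : ℝ) ≤ 36 * (n : ℝ) ^ 2 := by nlinarith
      have h9 : (1 : ℝ) ≤ 1 + y ^ 2 := by nlinarith [sq_nonneg y]
      exact one_le_mul_of_one_le_of_one_le (one_le_pow₀ h8) (one_le_pow₀ h9)
    rcases Nat.mod_two_eq_zero_or_one j with h10 | h10
    · rw [h10, pow_zero]; exact h7
    · rw [h10, pow_one]; exact h6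
  rw [PA_norm]
  have e1 : Real.exp (al C K n N b j) = (36 * (n : ℝ) ^ 2) ^ 2 *
      Real.exp ((1 - ((j / 2 : ℕ) : ℝ) / ((sg b * N : ℕ) : ℝ)) * la C K n N b +
      ((j / 2 : ℕ) : ℝ) / ((sg b * N : ℕ) : ℝ) * la C K n N (b + 1)) := by
    unfold al
    rw [Real.exp_add]
    congr 1
    rw [mul_comm (2 : ℝ), Real.exp_mul, Real.exp_log (by positivity)]
    norm_cast
  rw [e1]
  have h9 : (1 : ℝ) ≤ 1 + y ^ 2 := by nlinarith [sq_nonneg y]
  have h10 : (1 + y ^ 2) * (1 + y ^ 2) ^ 2 ≤ (1 + y ^ 2) ^ 5 := by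
    rw [← pow_succ']
    exact pow_le_pow_right₀ h9 (by norm_num)
  set T := ‖Rn n y‖ * ‖xz n y‖ ^ 15 * Real.exp (-(2 * Real.pi * |y|)) with hT
  have hT0 : 0 ≤ T := by rw [hT]; positivity
  have hWW : WW n y = T * (1 + y ^ 2) ^ 5 := rfl
  set F := FB n N b y with hF
  have hF0 : 0 ≤ F := FB_nonneg n N b y
  set G := (‖aeval (xz n y) (QB n b)‖ ^ 2) ^ (j / 2) with hG
  have hG0 : 0 ≤ G := by rw [hG]; positivity
  set Z := (‖aeval (xz n y) (Lin n)‖ ^ 2) ^ (j % 2) with hZ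
  calc T * (1 + y ^ 2) * (F * G * Z)
      ≤ T * (1 + y ^ 2) * (F * G * ((36 * (n : ℝ) ^ 2) ^ 2 * (1 + y ^ 2) ^ 2)) := by
        apply mul_le_mul_of_nonneg_left _ (by positivity)
        exact mul_le_mul_of_nonneg_left h4 (by positivity)
    _ = (36 * (n : ℝ) ^ 2) ^ 2 * (T * ((1 + y ^ 2) * (1 + y ^ 2) ^ 2) * F * G) := by ring
    _ ≤ (36 * (n : ℝ) ^ 2) ^ 2 * (T * (1 + y ^ 2) ^ 5 * F * G) := by
        apply mul_le_mul_of_nonneg_left _ (by positivity)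
        apply mul_le_mul_of_nonneg_right _ hG0
        apply mul_le_mul_of_nonneg_right _ hF0
        exact mul_le_mul_of_nonneg_left h10 hT0
    _ = (36 * (n : ℝ) ^ 2) ^ 2 * (WW n y * F * G) := by rw [hWW]
    _ ≤ _ := mul_le_mul_of_nonneg_left h3 (by positivity)


/-- sum of the interpolation exponents of one block -/
lemma sum_half (S : ℕ) (f : ℕ → ℝ) :
    ∑ j ∈ Finset.range (2 * S), f (j / 2) = 2 * ∑ k ∈ Finset.range S, f k := by
  induction S with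
  | zero => simp
  | succ S ih =>
    rw [show 2 * (S + 1) = 2 * S + 1 + 1 by ring, Finset.sum_range_succ, Finset.sum_range_succ, ih,
      Finset.sum_range_succ]
    have e1 : 2 * S / 2 = S := by omega
    have e2 : (2 * S + 1) / 2 = S := by omega
    rw [e1, e2]
    ring

lemma sum_k (S : ℕ) : 2 * ∑ k ∈ Finset.range S, (k : ℝ) = (S : ℝ) * (S - 1) := by
  induction S with
  | zero => simp
  | succ S ih =>
    rw [Finset.sum_range_succ, mul_add, ih]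
    push_cast
    ring

lemma tau_block (S : ℕ) (t t' : ℝ) (h : t ≤ t') :
    ∑ j ∈ Finset.range (2 * S), (t + ((j / 2 : ℕ) : ℝ) / (S : ℝ) * (t' - t)) ≤ S * (t + t') := by
  rcases Nat.eq_zero_or_pos S with rfl | hS
  · simp
  have hS' : (0 : ℝ) < S := by exact_mod_cast hS
  rw [sum_half S (fun k => t + (k : ℝ) / S * (t' - t)), Finset.sum_add_distrib, Finset.sum_const,
    Finset.card_range, nsmul_eq_mul, ← Finset.sum_mul, ← Finset.sum_div, mul_add]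
  have e : 2 * ((∑ k ∈ Finset.range S, (k : ℝ)) / S * (t' - t)) = (S - 1) * (t' - t) := by
    have := sum_k S
    have e1 : 2 * ((∑ k ∈ Finset.range S, (k : ℝ)) / S * (t' - t)) =
        (2 * ∑ k ∈ Finset.range S, (k : ℝ)) / S * (t' - t) := by ring
    rw [e1, this]
    field_simp
  rw [e]
  nlinarith

lemma tb_mono {b : ℕ} (hb : b ≤ 3) : (tb b : ℝ) ≤ tb (b + 1) := by
  have : tb b ≤ tb (b + 1) := by
    interval_cases b <;> decide
  exact_mod_cast this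

lemma al_eq {C : ℝ} {K n N b j : ℕ} (hN : 1 ≤ N) :
    al C K n N b j = 2 * Real.log (36 * (n : ℝ) ^ 2) + Real.log C + K * Real.log n + n * Phi0 +
      4 * ((2 * (ho b * N) : ℕ) + 2 * ((j / 2 : ℕ) : ℝ)) * Real.log n +
      N * Real.log 2 * ((tb b : ℝ) + ((j / 2 : ℕ) : ℝ) / ((sg b * N : ℕ) : ℝ) * ((tb (b + 1) : ℝ) - tb b)) := by
  have hS : 0 < sg b * N := Nat.mul_pos (sg_pos b) hN
  have hs : (sg b : ℝ) ≠ 0 := by exact_mod_cast (sg_pos b).ne'
  have hN' : (N : ℝ) ≠ 0 := by exact_mod_cast (by omega : N ≠ 0)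
  unfold al la
  rw [ho_succ]
  push_cast
  field_simp
  ring

lemma al_le {C : ℝ} {K n N b j i : ℕ} (hN : 1 ≤ N)
    (hi : 2 * (ho b * N) + j = i) :
    al C K n N b j ≤ 2 * Real.log (36 * (n : ℝ) ^ 2) + Real.log C + K * Real.log n + n * Phi0 +
      4 * (i : ℝ) * Real.log n +
      N * Real.log 2 * ((tb b : ℝ) + ((j / 2 : ℕ) : ℝ) / ((sg b * N : ℕ) : ℝ) * ((tb (b + 1) : ℝ) - tb b)) := by
  rw [al_eq hN]
  have hl : 0 ≤ Real.log n := Real.log_natCast_nonneg n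
  have h1 : ((2 * (ho b * N) : ℕ) : ℝ) + 2 * ((j / 2 : ℕ) : ℝ) ≤ i := by
    have : 2 * (ho b * N) + 2 * (j / 2) ≤ i := by omega
    exact_mod_cast this
  have h2 : 4 * (((2 * (ho b * N) : ℕ) : ℝ) + 2 * ((j / 2 : ℕ) : ℝ)) * Real.log n ≤ 4 * (i : ℝ) * Real.log n := by
    apply mul_le_mul_of_nonneg_right _ hl
    linarith
  linarith

lemma sum_al {C : ℝ} {K n N : ℕ} (hN : 1 ≤ N) :
    ∑ i ∈ Finset.range (144 * N), al C K n N (loc N i).1 (loc N i).2 ≤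
      (144 * N : ℕ) * (2 * Real.log (36 * (n : ℝ) ^ 2) + Real.log C + K * Real.log n + n * Phi0) +
      2 * ((144 * N : ℕ) : ℝ) ^ 2 * Real.log n + 61158 * (N : ℝ) ^ 2 * Real.log 2 := by
  have h1 : ∀ i ∈ Finset.range (144 * N), al C K n N (loc N i).1 (loc N i).2 ≤
      (2 * Real.log (36 * (n : ℝ) ^ 2) + Real.log C + K * Real.log n + n * Phi0) + 4 * (i : ℝ) * Real.log n +
      (fun b j => N * Real.log 2 * ((tb b : ℝ) + ((j / 2 : ℕ) : ℝ) / ((sg b * N : ℕ) : ℝ) *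
        ((tb (b + 1) : ℝ) - tb b))) (loc N i).1 (loc N i).2 := by
    intro i hi
    rw [Finset.mem_range] at hi
    obtain ⟨_, h2, _⟩ := loc_spec hi
    exact al_le hN h2
  have h2 := Finset.sum_le_sum h1
  rw [Finset.sum_add_distrib, Finset.sum_add_distrib, Finset.sum_const, Finset.card_range, nsmul_eq_mul,
    sum_loc N (fun b j => N * Real.log 2 * ((tb b : ℝ) + ((j / 2 : ℕ) : ℝ) / ((sg b * N : ℕ) : ℝ) *
        ((tb (b + 1) : ℝ) - tb b)))] at h2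
  have hl : 0 ≤ Real.log n := Real.log_natCast_nonneg n
  have hl2 : 0 ≤ Real.log 2 := Real.log_nonneg (by norm_num)
  have h3 : ∑ i ∈ Finset.range (144 * N), 4 * (i : ℝ) * Real.log n ≤
      2 * ((144 * N : ℕ) : ℝ) ^ 2 * Real.log n := by
    have e1 : ∑ i ∈ Finset.range (144 * N), 4 * (i : ℝ) * Real.log n =
        2 * (2 * ∑ i ∈ Finset.range (144 * N), (i : ℝ)) * Real.log n := by
      rw [← Finset.sum_mul, ← Finset.mul_sum]; ring
    rw [e1, sum_k]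
    apply mul_le_mul_of_nonneg_right _ hl
    have : (0 : ℝ) ≤ ((144 * N : ℕ) : ℝ) := by positivity
    nlinarith
  have h4 : ∑ b ∈ Finset.range 4, ∑ j ∈ Finset.range (2 * (sg b * N)),
      (N : ℝ) * Real.log 2 * ((tb b : ℝ) + ((j / 2 : ℕ) : ℝ) / ((sg b * N : ℕ) : ℝ) *
        ((tb (b + 1) : ℝ) - tb b)) ≤ 61158 * (N : ℝ) ^ 2 * Real.log 2 := by
    have h5 : ∀ b ∈ Finset.range 4, ∑ j ∈ Finset.range (2 * (sg b * N)),
      (N : ℝ) * Real.log 2 * ((tb b : ℝ) + ((j / 2 : ℕ) : ℝ) / ((sg b * N : ℕ) : ℝ) *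
        ((tb (b + 1) : ℝ) - tb b)) ≤ N * Real.log 2 * (((sg b * N : ℕ) : ℝ) * ((tb b : ℝ) + tb (b + 1))) := by
      intro b hb
      rw [Finset.mem_range] at hb
      rw [← Finset.mul_sum]
      apply mul_le_mul_of_nonneg_left _ (by positivity)
      exact tau_block _ _ _ (tb_mono (by omega))
    refine (Finset.sum_le_sum h5).trans (le_of_eq ?_)
    rw [Finset.sum_range_succ, Finset.sum_range_succ, Finset.sum_range_succ, Finset.sum_range_one]
    have s0 : sg 0 = 10 := rfl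
    have s1 : sg 1 = 14 := rfl
    have s2 : sg 2 = 20 := rfl
    have s3 : sg 3 = 28 := rfl
    have t0 : tb 0 = 0 := rfl
    have t1 : tb 1 = 66 := rfl
    have t2 : tb 2 = 233 := rfl
    have t3 : tb 3 = 505 := rfl
    have t4 : tb 4 = 979 := rfl
    norm_num [s0, s1, s2, s3, t0, t1, t2, t3, t4]
    ring
  linarith

lemma sq_le_entry {n N : ℕ} {C C2 : ℝ} {K : ℕ} (hC : 0 < C) (hC2 : 0 < C2)
    (h : ∀ N : ℕ, 1 ≤ N → ∀ n : ℕ, n = 24 * N + 1 → ∀ y : ℝ,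
    ‖Rn n y‖ * ‖xz n y‖ ^ 15 * Real.exp (-(2 * Real.pi * |y|)) * (1 + y ^ 2) ^ 5 * FXp ((y / n) ^ 2) ^ N ≤
      C * (n : ℝ) ^ K * Real.exp (n * Phi0))
    (h2 : ∀ n : ℕ, 2 ≤ n → ∀ u : ℕ → ℚ, zr 5 = (u 3 : ℝ) → zr 7 = (u 5 : ℝ) →
    ∀ Q : ℚ[X], Q.natDegree ≤ 12 * n - 14 → ∀ B : ℝ,
    (∀ y : ℝ, ‖Rn n y‖ * ‖xz n y‖ ^ 15 * ‖aeval (xz n y) Q‖ * Real.exp (-(2 * Real.pi * |y|)) ≤ B * (1 + y ^ 2)⁻¹) →
    |((NL n u Q : ℚ) : ℝ)| ≤ C2 * B)
    (hN : 1 ≤ N) (hn : n = 24 * N + 1) (hn' : 100 ≤ n) (u : ℕ → ℚ) (h3 : zr 5 = (u 3 : ℝ)) (h5 : zr 7 = (u 5 : ℝ))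
    {b j b' j' : ℕ} (hb : b ≤ 3) (hj : j < 2 * (sg b * N)) (hb' : b' ≤ 3) (hj' : j' < 2 * (sg b' * N))
    (hd : 2 * (ho b * N) + j < 144 * N) (hd' : 2 * (ho b' * N) + j' < 144 * N) :
    |((NL n u (PA n N b j * PA n N b' j') : ℚ) : ℝ)| ^ 2 ≤
      (C2 * Real.exp (al C K n N b j)) * (C2 * Real.exp (al C K n N b' j')) := by
  set B := Real.exp ((al C K n N b j + al C K n N b' j') / 2) with hB
  have key : |((NL n u (PA n N b j * PA n N b' j') : ℚ) : ℝ)| ≤ C2 * B := by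
    apply h2 n (by omega) u h3 h5
    · rw [(PA_monic n N b j).natDegree_mul (PA_monic n N b' j'), PA_deg, PA_deg]
      omega
    · intro y
      have hy : (0 : ℝ) < 1 + y ^ 2 := by positivity
      rw [← div_eq_mul_inv, le_div_iff₀ hy, map_mul, norm_mul]
      have p1 := PA_bound hC h hN hn hn' hb hj y
      have p2 := PA_bound hC h hN hn hn' hb' hj' y
      set T := ‖Rn n y‖ * ‖xz n y‖ ^ 15 * Real.exp (-(2 * Real.pi * |y|)) * (1 + y ^ 2) with hT
      have hT0 : 0 ≤ T := by rw [hT]; positivity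
      have e1 : ‖Rn n y‖ * ‖xz n y‖ ^ 15 * (‖aeval (xz n y) (PA n N b j)‖ * ‖aeval (xz n y) (PA n N b' j')‖) *
          Real.exp (-(2 * Real.pi * |y|)) * (1 + y ^ 2) =
          T * (‖aeval (xz n y) (PA n N b j)‖ * ‖aeval (xz n y) (PA n N b' j')‖) := by rw [hT]; ring
      rw [e1]
      apply le_of_pow_le_pow_left₀ two_ne_zero (Real.exp_pos _).le
      have e2 : B ^ 2 = Real.exp (al C K n N b j) * Real.exp (al C K n N b' j') := by
        rw [hB, ← Real.exp_nat_mul, ← Real.exp_add]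
        congr 1
        push_cast
        ring
      rw [e2]
      calc (T * (‖aeval (xz n y) (PA n N b j)‖ * ‖aeval (xz n y) (PA n N b' j')‖)) ^ 2
          = (T * ‖aeval (xz n y) (PA n N b j)‖ ^ 2) * (T * ‖aeval (xz n y) (PA n N b' j')‖ ^ 2) := by ring
        _ ≤ _ := mul_le_mul p1 p2 (by positivity) (by positivity)
  have e2 : B ^ 2 = Real.exp (al C K n N b j) * Real.exp (al C K n N b' j') := by
    rw [hB, ← Real.exp_nat_mul, ← Real.exp_add]
    congr 1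
    push_cast
    ring
  calc |((NL n u (PA n N b j * PA n N b' j') : ℚ) : ℝ)| ^ 2 ≤ (C2 * B) ^ 2 :=
        pow_le_pow_left₀ (abs_nonneg _) key 2
    _ = C2 * C2 * B ^ 2 := by ring
    _ = _ := by rw [e2]; ring


lemma log_det_le {n N : ℕ} {C C2 : ℝ} {K : ℕ} (hC : 0 < C) (hC2 : 0 < C2)
    (h : ∀ N : ℕ, 1 ≤ N → ∀ n : ℕ, n = 24 * N + 1 → ∀ y : ℝ,
    ‖Rn n y‖ * ‖xz n y‖ ^ 15 * Real.exp (-(2 * Real.pi * |y|)) * (1 + y ^ 2) ^ 5 * FXp ((y / n) ^ 2) ^ N ≤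
      C * (n : ℝ) ^ K * Real.exp (n * Phi0))
    (h2 : ∀ n : ℕ, 2 ≤ n → ∀ u : ℕ → ℚ, zr 5 = (u 3 : ℝ) → zr 7 = (u 5 : ℝ) →
    ∀ Q : ℚ[X], Q.natDegree ≤ 12 * n - 14 → ∀ B : ℝ,
    (∀ y : ℝ, ‖Rn n y‖ * ‖xz n y‖ ^ 15 * ‖aeval (xz n y) Q‖ * Real.exp (-(2 * Real.pi * |y|)) ≤ B * (1 + y ^ 2)⁻¹) →
    |((NL n u Q : ℚ) : ℝ)| ≤ C2 * B)
    (hN : 1 ≤ N) (hn : n = 24 * N + 1) (hn' : 100 ≤ n) (u : ℕ → ℚ) (h3 : zr 5 = (u 3 : ℝ)) (h5 : zr 7 = (u 5 : ℝ))
    (hD : DET n u (144 * N) ≠ 0) :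
    Real.log |((DET n u (144 * N) : ℚ) : ℝ)| ≤ (144 * N : ℕ) * Real.log (144 * N : ℕ) +
      (144 * N : ℕ) * Real.log C2 + ∑ i ∈ Finset.range (144 * N), al C K n N (loc N i).1 (loc N i).2 := by
  set P : ℕ → ℚ[X] := fun i => PA n N (loc N i).1 (loc N i).2 with hP
  have hA1 := A1_det_monic (NL n u) (144 * N) P (fun i hi => by
    obtain ⟨_, e2, _⟩ := loc_spec hi
    exact ⟨PA_monic _ _ _ _, by rw [hP]; simp only; rw [PA_deg]; exact e2⟩)
  have hdet : ((DET n u (144 * N) : ℚ) : ℝ) =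
      (Matrix.of fun i j : Fin (144 * N) => ((NL n u (P i * P j) : ℚ) : ℝ)).det := by
    unfold DET
    rw [← hA1]
    have := RingHom.map_det (Rat.castHom ℝ) (Matrix.of fun i j : Fin (144 * N) => NL n u (P i * P j))
    simp only [Rat.coe_castHom] at this
    rw [this]
    congr 1
  have hA4 := A4_abs_det (144 * N) (Matrix.of fun i j : Fin (144 * N) => ((NL n u (P i * P j) : ℚ) : ℝ))
    (fun i => C2 * Real.exp (al C K n N (loc N i).1 (loc N i).2)) (fun i => by positivity) (by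
      intro i j
      obtain ⟨a1, a2, a3⟩ := loc_spec i.2
      obtain ⟨b1, b2, b3⟩ := loc_spec j.2
      simp only [Matrix.of_apply]
      exact sq_le_entry hC hC2 h h2 hN hn hn' u h3 h5 a1 a3 b1 b3 (by rw [a2]; exact i.2) (by rw [b2]; exact j.2))
  rw [← hdet] at hA4
  have hpos : 0 < |((DET n u (144 * N) : ℚ) : ℝ)| := abs_pos.2 (by exact_mod_cast hD)
  have hlog := Real.log_le_log hpos hA4
  have hf : (0 : ℝ) < ((144 * N).factorial : ℝ) := by exact_mod_cast Nat.factorial_pos _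
  have hm : (0 : ℝ) < ((144 * N : ℕ) : ℝ) := by exact_mod_cast (by omega : 0 < 144 * N)
  rw [Finset.prod_mul_distrib, Finset.prod_const, Finset.card_range, ← Real.exp_sum,
    Real.log_mul hf.ne' (by positivity), Real.log_mul (by positivity) (by positivity), Real.log_pow,
    Real.log_exp] at hlog
  have hfac : Real.log ((144 * N).factorial : ℝ) ≤ (144 * N : ℕ) * Real.log (144 * N : ℕ) := by
    rw [← Real.log_pow]
    apply Real.log_le_log hf
    exact_mod_cast Nat.factorial_le_pow (144 * N)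
  linarith

lemma final_ev (c : ℝ) (K : ℕ) (ε : ℝ) (hε : 0 < ε) :
    ∀ᶠ n : ℕ in atTop, 6 * (n : ℝ) * (c + K * Real.log n) ≤ ε * (n : ℝ) ^ 2 := by
  have h1 : Tendsto (fun n : ℕ => Real.log (n : ℝ) / n) atTop (𝓝 0) := by
    have := Real.isLittleO_log_id_atTop.tendsto_div_nhds_zero
    exact this.comp tendsto_natCast_atTop_atTop
  have h2 : Tendsto (fun n : ℕ => c / (n : ℝ)) atTop (𝓝 0) := tendsto_const_div_atTop_nhds_zero_nat c
  have h3 : Tendsto (fun n : ℕ => 6 * (c / (n : ℝ) + K * (Real.log (n : ℝ) / n))) atTop (𝓝 0) := by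
    have := (h2.add (h1.const_mul (K : ℝ))).const_mul 6
    simpa using this
  have h4 := h3.eventually (gt_mem_nhds hε)
  filter_upwards [h4, eventually_gt_atTop 0] with n hn hn0
  have hn' : (0 : ℝ) < n := by exact_mod_cast hn0
  have e : 6 * (n : ℝ) * (c + K * Real.log n) = 6 * (c / (n : ℝ) + K * (Real.log (n : ℝ) / n)) * (n : ℝ) ^ 2 := by
    field_simp
  rw [e]
  exact mul_le_mul_of_nonneg_right hn.le (by positivity)

end G4

/-- total archimedean bound -/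
theorem G4_arch : ∀ ε : ℝ, 0 < ε → ∀ᶠ N : ℕ in atTop, ∀ n : ℕ, n = 24 * N + 1 → ∀ u : ℕ → ℚ,
    zr 5 = (u 3 : ℝ) → zr 7 = (u 5 : ℝ) → DET n u (6 * n - 6) ≠ 0 →
    Real.log |((DET n u (6 * n - 6) : ℚ) : ℝ)| ≤
      72 * (n : ℝ) ^ 2 * Real.log n + (6 * Phi0 + 61158 / 576 * Real.log 2 + ε) * (n : ℝ) ^ 2 := by
  intro ε hε
  obtain ⟨C, K, hC, h⟩ := G1_main
  obtain ⟨C2, hC2, h2⟩ := B2_NL_le
  set c : ℝ := |2 * Real.log 36 + Real.log C + Real.log C2 + Real.log 6| + |Phi0| with hc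
  have hev := G4.final_ev c (K + 5) ε hε
  have htd : Tendsto (fun N : ℕ => 24 * N + 1) atTop atTop := by
    apply tendsto_atTop_mono (fun N => _) tendsto_id
    intro N
    show N ≤ 24 * N + 1
    omega
  filter_upwards [htd.eventually hev, eventually_ge_atTop 5] with N hN hN5 n hn u h3 h5 hD
  have hm : 6 * n - 6 = 144 * N := by omega
  rw [hm] at hD ⊢
  rw [← hn] at hN
  have hlog := G4.log_det_le hC hC2 h h2 (by omega) hn (by omega) u h3 h5 hD
  have hsum := G4.sum_al (C := C) (K := K) (n := n) (N := N) (by omega)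
  have hn0 : (1 : ℝ) ≤ n := by exact_mod_cast (by omega : 1 ≤ n)
  have hl : 0 ≤ Real.log n := Real.log_natCast_nonneg n
  have hl2 : 0 ≤ Real.log 2 := Real.log_nonneg (by norm_num)
  have hmn : ((144 * N : ℕ) : ℝ) ≤ 6 * n := by
    have : 144 * N ≤ 6 * n := by omega
    exact_mod_cast this
  have hmn' : ((144 * N : ℕ) : ℝ) = 6 * n - 6 := by
    have : 144 * N + 6 = 6 * n := by omega
    have h' : ((144 * N + 6 : ℕ) : ℝ) = 6 * n := by exact_mod_cast this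
    push_cast at h' ⊢
    linarith
  have hm0 : (0 : ℝ) < ((144 * N : ℕ) : ℝ) := by exact_mod_cast (by omega : 0 < 144 * N)
  have hNn : 24 * (N : ℝ) ≤ n := by
    have : 24 * N ≤ n := by omega
    exact_mod_cast this
  -- the pieces
  have p1 : Real.log ((144 * N : ℕ) : ℝ) ≤ Real.log 6 + Real.log n := by
    rw [← Real.log_mul (by norm_num) (by positivity)]
    exact Real.log_le_log hm0 hmn
  have p2 : Real.log (36 * (n : ℝ) ^ 2) = Real.log 36 + 2 * Real.log n := by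
    rw [Real.log_mul (by norm_num) (by positivity), Real.log_pow]
    norm_num
  rw [p2] at hsum
  have p3 : 2 * ((144 * N : ℕ) : ℝ) ^ 2 * Real.log n ≤ 72 * (n : ℝ) ^ 2 * Real.log n := by
    apply mul_le_mul_of_nonneg_right _ hl
    nlinarith
  have p4 : 61158 * (N : ℝ) ^ 2 * Real.log 2 ≤ 61158 / 576 * Real.log 2 * (n : ℝ) ^ 2 := by
    have : (N : ℝ) ^ 2 ≤ (n : ℝ) ^ 2 / 576 := by
      have h0 : (0 : ℝ) ≤ N := by positivity
      nlinarith
    nlinarith [mul_le_mul_of_nonneg_right this hl2]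
  have p5 : ((144 * N : ℕ) : ℝ) * (n * Phi0) ≤ 6 * Phi0 * (n : ℝ) ^ 2 + 6 * n * |Phi0| := by
    rw [hmn']
    have := neg_abs_le Phi0
    nlinarith
  have p6 : ((144 * N : ℕ) : ℝ) * (2 * Real.log 36 + Real.log C + Real.log C2 + Real.log 6) ≤
      6 * n * |2 * Real.log 36 + Real.log C + Real.log C2 + Real.log 6| := by
    calc _ ≤ ((144 * N : ℕ) : ℝ) * |2 * Real.log 36 + Real.log C + Real.log C2 + Real.log 6| :=
          mul_le_mul_of_nonneg_left (le_abs_self _) hm0.le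
      _ ≤ _ := mul_le_mul_of_nonneg_right hmn (abs_nonneg _)
  have p7 : ((144 * N : ℕ) : ℝ) * (((K : ℝ) + 5) * Real.log n) ≤ 6 * n * (((K : ℝ) + 5) * Real.log n) :=
    mul_le_mul_of_nonneg_right hmn (by positivity)
  have p8 : ((144 * N : ℕ) : ℝ) * Real.log ((144 * N : ℕ) : ℝ) ≤
      ((144 * N : ℕ) : ℝ) * (Real.log 6 + Real.log n) := mul_le_mul_of_nonneg_left p1 hm0.le
  have hN' : 6 * (n : ℝ) * (c + ((K : ℝ) + 5) * Real.log n) ≤ ε * (n : ℝ) ^ 2 := by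
    have := hN
    push_cast at this
    exact this
  rw [hc] at hN'
  have e1 : ((144 * N : ℕ) : ℝ) * (2 * (Real.log 36 + 2 * Real.log n) + Real.log C + K * Real.log n + n * Phi0) =
      ((144 * N : ℕ) : ℝ) * (2 * Real.log 36 + Real.log C + Real.log C2 + Real.log 6) +
      ((144 * N : ℕ) : ℝ) * (((K : ℝ) + 5) * Real.log n) + ((144 * N : ℕ) : ℝ) * (n * Phi0) -
      ((144 * N : ℕ) : ℝ) * Real.log C2 - ((144 * N : ℕ) : ℝ) * (Real.log 6 + Real.log n) := by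
    ring
  have e2 : 6 * (n : ℝ) * (|2 * Real.log 36 + Real.log C + Real.log C2 + Real.log 6| + |Phi0| +
      ((K : ℝ) + 5) * Real.log n) =
      6 * n * |2 * Real.log 36 + Real.log C + Real.log C2 + Real.log 6| + 6 * n * |Phi0| +
      6 * n * (((K : ℝ) + 5) * Real.log n) := by ring
  have e3 : 72 * (n : ℝ) ^ 2 * Real.log n + (6 * Phi0 + 61158 / 576 * Real.log 2 + ε) * (n : ℝ) ^ 2 =
      72 * (n : ℝ) ^ 2 * Real.log n + 6 * Phi0 * (n : ℝ) ^ 2 + 61158 / 576 * Real.log 2 * (n : ℝ) ^ 2 +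
      ε * (n : ℝ) ^ 2 := by ring
  rw [e1] at hsum
  rw [e2] at hN'
  rw [e3]
  linarith only [hlog, hsum, p3, p4, p5, p6, p7, p8, hN']

end

end Pool.Agent.H336R2.HD
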