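import Pool.Agent.H336R2.HD.Defs

/-!
# The local Hankel determinant is nonzero (task H5)

The values `Fm 0, ..., Fm 22` are computed exactly; the determinant is nonzero modulo `7`.
-/

set_option autoImplicit false

open Polynomial Pool.Agent.H337R2

namespace Pool.Agent.H336R2.HD

namespace H5

/-- truncated product of lists of coefficients -/
def conv (l l' : List ℚ) : List ℚ :=
  (List.range 6).map fun d => ((List.range (d + 1)).map fun m => l.getD m 0 * l'.getD (d - m) 0).sum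

/-- coefficients of `(X + c)^3` -/
def lin3 (c : ℚ) : List ℚ := [c ^ 3, 3 * c ^ 2, 3 * c, 1, 0, 0]

/-- coefficients of `iv a ^ 6` -/
def iv6 (a : ℚ) : List ℚ :=
  [1 / a ^ 6, -6 / a ^ 7, 21 / a ^ 8, -56 / a ^ 9, 126 / a ^ 10, -252 / a ^ 11]

/-- `l` is the list of the first six coefficients of `f` -/
def Rep (f : PowerSeries ℚ) (l : List ℚ) : Prop :=
  ∀ d, d < 6 → PowerSeries.coeff d f = l.getD d 0

theorem sum_range_list (f : ℕ → ℚ) (n : ℕ) :
    ((List.range n).map f).sum = ∑ m ∈ Finset.range n, f m := by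
  induction n with
  | zero => simp
  | succ n ih => rw [List.range_succ, List.map_append, List.sum_append, ih, Finset.sum_range_succ]; simp

theorem Rep.mul {f g : PowerSeries ℚ} {l l' : List ℚ} (hf : Rep f l) (hg : Rep g l') :
    Rep (f * g) (conv l l') := by
  intro d hd
  have h1 : (conv l l').getD d 0 =
      ((List.range (d + 1)).map fun m => l.getD m 0 * l'.getD (d - m) 0).sum := by
    unfold conv
    rw [List.getD_eq_getElem?_getD, List.getElem?_map, List.getElem?_range hd]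
    rfl
  rw [h1, sum_range_list, PowerSeries.coeff_mul,
    Finset.Nat.sum_antidiagonal_eq_sum_range_succ
      (fun i j => PowerSeries.coeff i f * PowerSeries.coeff j g) d]
  apply Finset.sum_congr rfl
  intro m hm
  rw [Finset.mem_range] at hm
  rw [hf m (by omega), hg (d - m) (by omega)]

theorem coeff_lin_pow (c : ℚ) (n d : ℕ) :
    PowerSeries.coeff d ((PowerSeries.X + PowerSeries.C c) ^ n : PowerSeries ℚ) =
      c ^ (n - d) * (n.choose d : ℚ) := by
  have h : ((PowerSeries.X + PowerSeries.C c) ^ n : PowerSeries ℚ) =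
      (((X + C c : ℚ[X]) ^ n : ℚ[X]) : PowerSeries ℚ) := by
    rw [Polynomial.coe_pow, Polynomial.coe_add, Polynomial.coe_X, Polynomial.coe_C]
  rw [h, Polynomial.coeff_coe, Polynomial.coeff_X_add_C_pow]

theorem rep_lin (c : ℚ) : Rep ((PowerSeries.X + PowerSeries.C c) ^ 3) (lin3 c) := by
  intro d hd
  rw [coeff_lin_pow]
  interval_cases d <;> simp [lin3, Nat.choose] <;> ring

theorem rep_iv (a : ℚ) (ha : a ≠ 0) : Rep (iv a ^ 6) (iv6 a) := by
  intro d hd
  rw [show (6 : ℕ) = 5 + 1 from rfl, coeff_iv_pow ha]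
  interval_cases d <;> simp [iv6, Nat.choose] <;> ring

/-- the factor of the series at `j = 3` -/
def B3 : List ℚ := [343 / 27000000, -23471 / 120000000, 201387851 / 129600000000, -132221792089 / 15552000000000, 16826121072139 / 466560000000000, -2362222341451099 / 18662400000000000]

theorem conv_3 : conv (conv (conv (conv (lin3 (-3)) (lin3 (-2))) (lin3 (7))) (lin3 (8))) (conv (conv (conv (conv (iv6 (1)) (iv6 (2))) (iv6 (3))) (iv6 (4))) (iv6 (5))) = B3 := by
  decide +kernel

/-- the factor of the series at `j = 4` -/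
def B4 : List ℚ := [343 / 512, -10045 / 2048, 46291 / 2048, -34556519 / 442368, 796074499 / 3538944, -23944229279 / 42467328]

theorem conv_4 : conv (conv (conv (conv (lin3 (-4)) (lin3 (-3))) (lin3 (6))) (lin3 (7))) (conv (conv (conv (conv (iv6 (-1)) (iv6 (1))) (iv6 (2))) (iv6 (3))) (iv6 (4))) = B4 := by
  decide +kernel

/-- the factor of the series at `j = 5` -/
def B5 : List ℚ := [15625 / 216, -15625 / 96, 7581875 / 10368, -171304375 / 124416, 2827083575 / 746496, -9453817025 / 1492992]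

theorem conv_5 : conv (conv (conv (conv (lin3 (-5)) (lin3 (-4))) (lin3 (5))) (lin3 (6))) (conv (conv (conv (conv (iv6 (-2)) (iv6 (-1))) (iv6 (1))) (iv6 (2))) (iv6 (3))) = B5 := by
  decide +kernel

/-- the factor of the series at `j = 6` -/
def B6 : List ℚ := [15625 / 216, 15625 / 96, 7581875 / 10368, 171304375 / 124416, 2827083575 / 746496, 9453817025 / 1492992]

theorem conv_6 : conv (conv (conv (conv (lin3 (-6)) (lin3 (-5))) (lin3 (4))) (lin3 (5))) (conv (conv (conv (conv (iv6 (-3)) (iv6 (-2))) (iv6 (-1))) (iv6 (1))) (iv6 (2))) = B6 := by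
  decide +kernel

/-- the factor of the series at `j = 7` -/
def B7 : List ℚ := [343 / 512, 10045 / 2048, 46291 / 2048, 34556519 / 442368, 796074499 / 3538944, 23944229279 / 42467328]

theorem conv_7 : conv (conv (conv (conv (lin3 (-7)) (lin3 (-6))) (lin3 (3))) (lin3 (4))) (conv (conv (conv (conv (iv6 (-4)) (iv6 (-3))) (iv6 (-2))) (iv6 (-1))) (iv6 (1))) = B7 := by
  decide +kernel

/-- the factor of the series at `j = 8` -/
def B8 : List ℚ := [343 / 27000000, 23471 / 120000000, 201387851 / 129600000000, 132221792089 / 15552000000000, 16826121072139 / 466560000000000, 2362222341451099 / 18662400000000000]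

theorem conv_8 : conv (conv (conv (conv (lin3 (-8)) (lin3 (-7))) (lin3 (2))) (lin3 (3))) (conv (conv (conv (conv (iv6 (-5)) (iv6 (-4))) (iv6 (-3))) (iv6 (-2))) (iv6 (-1))) = B8 := by
  decide +kernel


/-- the numerator of the base series -/
theorem rep_num (c : ℚ) : Rep (((PowerSeries.X + PowerSeries.C (-c)) *
    (PowerSeries.X + PowerSeries.C (1 - c)) * (PowerSeries.X + PowerSeries.C (10 - c)) *
    (PowerSeries.X + PowerSeries.C (11 - c))) ^ 3)
    (conv (conv (conv (lin3 (-c)) (lin3 (1 - c))) (lin3 (10 - c))) (lin3 (11 - c))) := by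
  rw [mul_pow, mul_pow, mul_pow]
  exact (((rep_lin _).mul (rep_lin _)).mul (rep_lin _)).mul (rep_lin _)

/-- the base series -/
noncomputable def bser (j : ℕ) : PowerSeries ℚ :=
  ((PowerSeries.X + PowerSeries.C (-(j : ℚ))) * (PowerSeries.X + PowerSeries.C (1 - (j : ℚ))) *
    (PowerSeries.X + PowerSeries.C (10 - (j : ℚ))) * (PowerSeries.X + PowerSeries.C (11 - (j : ℚ)))) ^ 3 *
  (∏ b ∈ (Finset.Icc 3 8).erase j, iv ((b : ℚ) - j) ^ 6)

theorem ser_eq (j e : ℕ) : ser j e =
    bser j * (PowerSeries.X + PowerSeries.C (-(j : ℚ))) ^ e := rfl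

theorem rep_bser_3 : Rep (bser 3) B3 := by
  have h1 : (Finset.Icc 3 8 : Finset ℕ).erase 3 = {4, 5, 6, 7, 8} := by decide
  have h2 : (∏ b ∈ (Finset.Icc 3 8 : Finset ℕ).erase 3, iv ((b : ℚ) - (3 : ℕ)) ^ 6) =
      iv (1) ^ 6 * iv (2) ^ 6 * iv (3) ^ 6 * iv (4) ^ 6 * iv (5) ^ 6 := by
    rw [h1]
    rw [Finset.prod_insert (by decide), Finset.prod_insert (by decide),
      Finset.prod_insert (by decide), Finset.prod_insert (by decide), Finset.prod_singleton]
    norm_num [mul_assoc]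
  have h3 := (((rep_iv (1) (by norm_num)).mul (rep_iv (2) (by norm_num))).mul
    (rep_iv (3) (by norm_num))).mul (rep_iv (4) (by norm_num)) |>.mul (rep_iv (5) (by norm_num))
  have h4 := (rep_num (3 : ℕ)).mul h3
  rw [← h2] at h4
  have h5 : conv (conv (conv (conv (lin3 (-((3 : ℕ) : ℚ))) (lin3 (1 - ((3 : ℕ) : ℚ))))
      (lin3 (10 - ((3 : ℕ) : ℚ)))) (lin3 (11 - ((3 : ℕ) : ℚ)))) (conv (conv (conv (conv (iv6 (1)) (iv6 (2))) (iv6 (3))) (iv6 (4))) (iv6 (5))) = B3 := by
    rw [← conv_3]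
    norm_num
  rw [h5] at h4
  exact h4

theorem rep_bser_4 : Rep (bser 4) B4 := by
  have h1 : (Finset.Icc 3 8 : Finset ℕ).erase 4 = {3, 5, 6, 7, 8} := by decide
  have h2 : (∏ b ∈ (Finset.Icc 3 8 : Finset ℕ).erase 4, iv ((b : ℚ) - (4 : ℕ)) ^ 6) =
      iv (-1) ^ 6 * iv (1) ^ 6 * iv (2) ^ 6 * iv (3) ^ 6 * iv (4) ^ 6 := by
    rw [h1]
    rw [Finset.prod_insert (by decide), Finset.prod_insert (by decide),
      Finset.prod_insert (by decide), Finset.prod_insert (by decide), Finset.prod_singleton]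
    norm_num [mul_assoc]
  have h3 := (((rep_iv (-1) (by norm_num)).mul (rep_iv (1) (by norm_num))).mul
    (rep_iv (2) (by norm_num))).mul (rep_iv (3) (by norm_num)) |>.mul (rep_iv (4) (by norm_num))
  have h4 := (rep_num (4 : ℕ)).mul h3
  rw [← h2] at h4
  have h5 : conv (conv (conv (conv (lin3 (-((4 : ℕ) : ℚ))) (lin3 (1 - ((4 : ℕ) : ℚ))))
      (lin3 (10 - ((4 : ℕ) : ℚ)))) (lin3 (11 - ((4 : ℕ) : ℚ)))) (conv (conv (conv (conv (iv6 (-1)) (iv6 (1))) (iv6 (2))) (iv6 (3))) (iv6 (4))) = B4 := by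
    rw [← conv_4]
    norm_num
  rw [h5] at h4
  exact h4

theorem rep_bser_5 : Rep (bser 5) B5 := by
  have h1 : (Finset.Icc 3 8 : Finset ℕ).erase 5 = {3, 4, 6, 7, 8} := by decide
  have h2 : (∏ b ∈ (Finset.Icc 3 8 : Finset ℕ).erase 5, iv ((b : ℚ) - (5 : ℕ)) ^ 6) =
      iv (-2) ^ 6 * iv (-1) ^ 6 * iv (1) ^ 6 * iv (2) ^ 6 * iv (3) ^ 6 := by
    rw [h1]
    rw [Finset.prod_insert (by decide), Finset.prod_insert (by decide),
      Finset.prod_insert (by decide), Finset.prod_insert (by decide), Finset.prod_singleton]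
    norm_num [mul_assoc]
  have h3 := (((rep_iv (-2) (by norm_num)).mul (rep_iv (-1) (by norm_num))).mul
    (rep_iv (1) (by norm_num))).mul (rep_iv (2) (by norm_num)) |>.mul (rep_iv (3) (by norm_num))
  have h4 := (rep_num (5 : ℕ)).mul h3
  rw [← h2] at h4
  have h5 : conv (conv (conv (conv (lin3 (-((5 : ℕ) : ℚ))) (lin3 (1 - ((5 : ℕ) : ℚ))))
      (lin3 (10 - ((5 : ℕ) : ℚ)))) (lin3 (11 - ((5 : ℕ) : ℚ)))) (conv (conv (conv (conv (iv6 (-2)) (iv6 (-1))) (iv6 (1))) (iv6 (2))) (iv6 (3))) = B5 := by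
    rw [← conv_5]
    norm_num
  rw [h5] at h4
  exact h4

theorem rep_bser_6 : Rep (bser 6) B6 := by
  have h1 : (Finset.Icc 3 8 : Finset ℕ).erase 6 = {3, 4, 5, 7, 8} := by decide
  have h2 : (∏ b ∈ (Finset.Icc 3 8 : Finset ℕ).erase 6, iv ((b : ℚ) - (6 : ℕ)) ^ 6) =
      iv (-3) ^ 6 * iv (-2) ^ 6 * iv (-1) ^ 6 * iv (1) ^ 6 * iv (2) ^ 6 := by
    rw [h1]
    rw [Finset.prod_insert (by decide), Finset.prod_insert (by decide),
      Finset.prod_insert (by decide), Finset.prod_insert (by decide), Finset.prod_singleton]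
    norm_num [mul_assoc]
  have h3 := (((rep_iv (-3) (by norm_num)).mul (rep_iv (-2) (by norm_num))).mul
    (rep_iv (-1) (by norm_num))).mul (rep_iv (1) (by norm_num)) |>.mul (rep_iv (2) (by norm_num))
  have h4 := (rep_num (6 : ℕ)).mul h3
  rw [← h2] at h4
  have h5 : conv (conv (conv (conv (lin3 (-((6 : ℕ) : ℚ))) (lin3 (1 - ((6 : ℕ) : ℚ))))
      (lin3 (10 - ((6 : ℕ) : ℚ)))) (lin3 (11 - ((6 : ℕ) : ℚ)))) (conv (conv (conv (conv (iv6 (-3)) (iv6 (-2))) (iv6 (-1))) (iv6 (1))) (iv6 (2))) = B6 := by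
    rw [← conv_6]
    norm_num
  rw [h5] at h4
  exact h4

theorem rep_bser_7 : Rep (bser 7) B7 := by
  have h1 : (Finset.Icc 3 8 : Finset ℕ).erase 7 = {3, 4, 5, 6, 8} := by decide
  have h2 : (∏ b ∈ (Finset.Icc 3 8 : Finset ℕ).erase 7, iv ((b : ℚ) - (7 : ℕ)) ^ 6) =
      iv (-4) ^ 6 * iv (-3) ^ 6 * iv (-2) ^ 6 * iv (-1) ^ 6 * iv (1) ^ 6 := by
    rw [h1]
    rw [Finset.prod_insert (by decide), Finset.prod_insert (by decide),
      Finset.prod_insert (by decide), Finset.prod_insert (by decide), Finset.prod_singleton]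
    norm_num [mul_assoc]
  have h3 := (((rep_iv (-4) (by norm_num)).mul (rep_iv (-3) (by norm_num))).mul
    (rep_iv (-2) (by norm_num))).mul (rep_iv (-1) (by norm_num)) |>.mul (rep_iv (1) (by norm_num))
  have h4 := (rep_num (7 : ℕ)).mul h3
  rw [← h2] at h4
  have h5 : conv (conv (conv (conv (lin3 (-((7 : ℕ) : ℚ))) (lin3 (1 - ((7 : ℕ) : ℚ))))
      (lin3 (10 - ((7 : ℕ) : ℚ)))) (lin3 (11 - ((7 : ℕ) : ℚ)))) (conv (conv (conv (conv (iv6 (-4)) (iv6 (-3))) (iv6 (-2))) (iv6 (-1))) (iv6 (1))) = B7 := by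
    rw [← conv_7]
    norm_num
  rw [h5] at h4
  exact h4

theorem rep_bser_8 : Rep (bser 8) B8 := by
  have h1 : (Finset.Icc 3 8 : Finset ℕ).erase 8 = {3, 4, 5, 6, 7} := by decide
  have h2 : (∏ b ∈ (Finset.Icc 3 8 : Finset ℕ).erase 8, iv ((b : ℚ) - (8 : ℕ)) ^ 6) =
      iv (-5) ^ 6 * iv (-4) ^ 6 * iv (-3) ^ 6 * iv (-2) ^ 6 * iv (-1) ^ 6 := by
    rw [h1]
    rw [Finset.prod_insert (by decide), Finset.prod_insert (by decide),
      Finset.prod_insert (by decide), Finset.prod_insert (by decide), Finset.prod_singleton]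
    norm_num [mul_assoc]
  have h3 := (((rep_iv (-5) (by norm_num)).mul (rep_iv (-4) (by norm_num))).mul
    (rep_iv (-3) (by norm_num))).mul (rep_iv (-2) (by norm_num)) |>.mul (rep_iv (-1) (by norm_num))
  have h4 := (rep_num (8 : ℕ)).mul h3
  rw [← h2] at h4
  have h5 : conv (conv (conv (conv (lin3 (-((8 : ℕ) : ℚ))) (lin3 (1 - ((8 : ℕ) : ℚ))))
      (lin3 (10 - ((8 : ℕ) : ℚ)))) (lin3 (11 - ((8 : ℕ) : ℚ)))) (conv (conv (conv (conv (iv6 (-5)) (iv6 (-4))) (iv6 (-3))) (iv6 (-2))) (iv6 (-1))) = B8 := by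
    rw [← conv_8]
    norm_num
  rw [h5] at h4
  exact h4

/-- the coefficients of the local functional -/
def cc : ℕ → List ℚ
  | 3 => [-177402758781752864273 / 447897600000000000000, 449988832274486549 / 4478976000000000000, -43117078759608263 / 2015539200000000000, 6730379791289 / 1866240000000000, -100659038263 / 233280000000000, 18030481 / 648000000000]
  | 4 => [-17434405663624874399 / 7166361600000000, 39402982683526357 / 47775744000000, -579472104345917 / 2388787200000, 8069147040577 / 132710400000, -12573402499 / 1105920000, 171192329 / 110592000]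
  | 5 => [-190393853123725 / 5159780352, 2888816587775 / 143327232, -564711491875 / 107495424, 23398643125 / 8957952, -15828125 / 41472, 63171875 / 373248]
  | 6 => [190393853123725 / 5159780352, 2888816587775 / 143327232, 564711491875 / 107495424, 23398643125 / 8957952, 15828125 / 41472, 63171875 / 373248]
  | 7 => [17434405663624874399 / 7166361600000000, 39402982683526357 / 47775744000000, 579472104345917 / 2388787200000, 8069147040577 / 132710400000, 12573402499 / 1105920000, 171192329 / 110592000]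
  | 8 => [177402758781752864273 / 447897600000000000000, 449988832274486549 / 4478976000000000000, 43117078759608263 / 2015539200000000000, 6730379791289 / 1866240000000000, 100659038263 / 233280000000000, 18030481 / 648000000000]
  | _ => []

theorem inner_3 (e : ℕ) : ∑ i ∈ Finset.Icc 1 6, ((Nat.choose (i + 1) 2 : ℕ) : ℚ) *
    PowerSeries.coeff (6 - i) (ser 3 e) * (hs (i + 2) (3 - 2) + (-1) ^ (i + 1) * hs (i + 2) (9 - 3)) =
    ∑ m ∈ Finset.range 6, (-(3 : ℚ)) ^ (e - m) * (e.choose m : ℚ) * (cc 3).getD m 0 := by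
  have hc : ∀ d < 6, PowerSeries.coeff d (ser 3 e) = ∑ m ∈ Finset.range (d + 1),
      (-(3 : ℚ)) ^ (e - m) * (e.choose m : ℚ) * B3.getD (d - m) 0 := by
    intro d hd
    rw [ser_eq, mul_comm, PowerSeries.coeff_mul,
      Finset.Nat.sum_antidiagonal_eq_sum_range_succ
        (fun i j => PowerSeries.coeff i ((PowerSeries.X + PowerSeries.C (-((3 : ℕ) : ℚ))) ^ e) *
          PowerSeries.coeff j (bser 3)) d]
    apply Finset.sum_congr rfl
    intro m hm
    rw [Finset.mem_range] at hm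
    rw [coeff_lin_pow, rep_bser_3 (d - m) (by omega)]
    norm_num
  have hI : Finset.Icc 1 6 = {1, 2, 3, 4, 5, 6} := by decide
  rw [hI]
  rw [Finset.sum_insert (by decide), Finset.sum_insert (by decide), Finset.sum_insert (by decide),
    Finset.sum_insert (by decide), Finset.sum_insert (by decide), Finset.sum_singleton]
  rw [hc (6 - 1) (by norm_num), hc (6 - 2) (by norm_num), hc (6 - 3) (by norm_num),
    hc (6 - 4) (by norm_num), hc (6 - 5) (by norm_num), hc (6 - 6) (by norm_num)]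
  norm_num [Finset.sum_range_succ, hs, B3, cc, Nat.choose]
  ring

theorem inner_4 (e : ℕ) : ∑ i ∈ Finset.Icc 1 6, ((Nat.choose (i + 1) 2 : ℕ) : ℚ) *
    PowerSeries.coeff (6 - i) (ser 4 e) * (hs (i + 2) (4 - 2) + (-1) ^ (i + 1) * hs (i + 2) (9 - 4)) =
    ∑ m ∈ Finset.range 6, (-(4 : ℚ)) ^ (e - m) * (e.choose m : ℚ) * (cc 4).getD m 0 := by
  have hc : ∀ d < 6, PowerSeries.coeff d (ser 4 e) = ∑ m ∈ Finset.range (d + 1),
      (-(4 : ℚ)) ^ (e - m) * (e.choose m : ℚ) * B4.getD (d - m) 0 := by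
    intro d hd
    rw [ser_eq, mul_comm, PowerSeries.coeff_mul,
      Finset.Nat.sum_antidiagonal_eq_sum_range_succ
        (fun i j => PowerSeries.coeff i ((PowerSeries.X + PowerSeries.C (-((4 : ℕ) : ℚ))) ^ e) *
          PowerSeries.coeff j (bser 4)) d]
    apply Finset.sum_congr rfl
    intro m hm
    rw [Finset.mem_range] at hm
    rw [coeff_lin_pow, rep_bser_4 (d - m) (by omega)]
    norm_num
  have hI : Finset.Icc 1 6 = {1, 2, 3, 4, 5, 6} := by decide
  rw [hI]
  rw [Finset.sum_insert (by decide), Finset.sum_insert (by decide), Finset.sum_insert (by decide),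
    Finset.sum_insert (by decide), Finset.sum_insert (by decide), Finset.sum_singleton]
  rw [hc (6 - 1) (by norm_num), hc (6 - 2) (by norm_num), hc (6 - 3) (by norm_num),
    hc (6 - 4) (by norm_num), hc (6 - 5) (by norm_num), hc (6 - 6) (by norm_num)]
  norm_num [Finset.sum_range_succ, hs, B4, cc, Nat.choose]
  ring

theorem inner_5 (e : ℕ) : ∑ i ∈ Finset.Icc 1 6, ((Nat.choose (i + 1) 2 : ℕ) : ℚ) *
    PowerSeries.coeff (6 - i) (ser 5 e) * (hs (i + 2) (5 - 2) + (-1) ^ (i + 1) * hs (i + 2) (9 - 5)) =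
    ∑ m ∈ Finset.range 6, (-(5 : ℚ)) ^ (e - m) * (e.choose m : ℚ) * (cc 5).getD m 0 := by
  have hc : ∀ d < 6, PowerSeries.coeff d (ser 5 e) = ∑ m ∈ Finset.range (d + 1),
      (-(5 : ℚ)) ^ (e - m) * (e.choose m : ℚ) * B5.getD (d - m) 0 := by
    intro d hd
    rw [ser_eq, mul_comm, PowerSeries.coeff_mul,
      Finset.Nat.sum_antidiagonal_eq_sum_range_succ
        (fun i j => PowerSeries.coeff i ((PowerSeries.X + PowerSeries.C (-((5 : ℕ) : ℚ))) ^ e) *
          PowerSeries.coeff j (bser 5)) d]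
    apply Finset.sum_congr rfl
    intro m hm
    rw [Finset.mem_range] at hm
    rw [coeff_lin_pow, rep_bser_5 (d - m) (by omega)]
    norm_num
  have hI : Finset.Icc 1 6 = {1, 2, 3, 4, 5, 6} := by decide
  rw [hI]
  rw [Finset.sum_insert (by decide), Finset.sum_insert (by decide), Finset.sum_insert (by decide),
    Finset.sum_insert (by decide), Finset.sum_insert (by decide), Finset.sum_singleton]
  rw [hc (6 - 1) (by norm_num), hc (6 - 2) (by norm_num), hc (6 - 3) (by norm_num),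
    hc (6 - 4) (by norm_num), hc (6 - 5) (by norm_num), hc (6 - 6) (by norm_num)]
  norm_num [Finset.sum_range_succ, hs, B5, cc, Nat.choose]
  ring

theorem inner_6 (e : ℕ) : ∑ i ∈ Finset.Icc 1 6, ((Nat.choose (i + 1) 2 : ℕ) : ℚ) *
    PowerSeries.coeff (6 - i) (ser 6 e) * (hs (i + 2) (6 - 2) + (-1) ^ (i + 1) * hs (i + 2) (9 - 6)) =
    ∑ m ∈ Finset.range 6, (-(6 : ℚ)) ^ (e - m) * (e.choose m : ℚ) * (cc 6).getD m 0 := by
  have hc : ∀ d < 6, PowerSeries.coeff d (ser 6 e) = ∑ m ∈ Finset.range (d + 1),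
      (-(6 : ℚ)) ^ (e - m) * (e.choose m : ℚ) * B6.getD (d - m) 0 := by
    intro d hd
    rw [ser_eq, mul_comm, PowerSeries.coeff_mul,
      Finset.Nat.sum_antidiagonal_eq_sum_range_succ
        (fun i j => PowerSeries.coeff i ((PowerSeries.X + PowerSeries.C (-((6 : ℕ) : ℚ))) ^ e) *
          PowerSeries.coeff j (bser 6)) d]
    apply Finset.sum_congr rfl
    intro m hm
    rw [Finset.mem_range] at hm
    rw [coeff_lin_pow, rep_bser_6 (d - m) (by omega)]
    norm_num
  have hI : Finset.Icc 1 6 = {1, 2, 3, 4, 5, 6} := by decide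
  rw [hI]
  rw [Finset.sum_insert (by decide), Finset.sum_insert (by decide), Finset.sum_insert (by decide),
    Finset.sum_insert (by decide), Finset.sum_insert (by decide), Finset.sum_singleton]
  rw [hc (6 - 1) (by norm_num), hc (6 - 2) (by norm_num), hc (6 - 3) (by norm_num),
    hc (6 - 4) (by norm_num), hc (6 - 5) (by norm_num), hc (6 - 6) (by norm_num)]
  norm_num [Finset.sum_range_succ, hs, B6, cc, Nat.choose]
  ring

theorem inner_7 (e : ℕ) : ∑ i ∈ Finset.Icc 1 6, ((Nat.choose (i + 1) 2 : ℕ) : ℚ) *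
    PowerSeries.coeff (6 - i) (ser 7 e) * (hs (i + 2) (7 - 2) + (-1) ^ (i + 1) * hs (i + 2) (9 - 7)) =
    ∑ m ∈ Finset.range 6, (-(7 : ℚ)) ^ (e - m) * (e.choose m : ℚ) * (cc 7).getD m 0 := by
  have hc : ∀ d < 6, PowerSeries.coeff d (ser 7 e) = ∑ m ∈ Finset.range (d + 1),
      (-(7 : ℚ)) ^ (e - m) * (e.choose m : ℚ) * B7.getD (d - m) 0 := by
    intro d hd
    rw [ser_eq, mul_comm, PowerSeries.coeff_mul,
      Finset.Nat.sum_antidiagonal_eq_sum_range_succ
        (fun i j => PowerSeries.coeff i ((PowerSeries.X + PowerSeries.C (-((7 : ℕ) : ℚ))) ^ e) *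
          PowerSeries.coeff j (bser 7)) d]
    apply Finset.sum_congr rfl
    intro m hm
    rw [Finset.mem_range] at hm
    rw [coeff_lin_pow, rep_bser_7 (d - m) (by omega)]
    norm_num
  have hI : Finset.Icc 1 6 = {1, 2, 3, 4, 5, 6} := by decide
  rw [hI]
  rw [Finset.sum_insert (by decide), Finset.sum_insert (by decide), Finset.sum_insert (by decide),
    Finset.sum_insert (by decide), Finset.sum_insert (by decide), Finset.sum_singleton]
  rw [hc (6 - 1) (by norm_num), hc (6 - 2) (by norm_num), hc (6 - 3) (by norm_num),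
    hc (6 - 4) (by norm_num), hc (6 - 5) (by norm_num), hc (6 - 6) (by norm_num)]
  norm_num [Finset.sum_range_succ, hs, B7, cc, Nat.choose]
  ring

theorem inner_8 (e : ℕ) : ∑ i ∈ Finset.Icc 1 6, ((Nat.choose (i + 1) 2 : ℕ) : ℚ) *
    PowerSeries.coeff (6 - i) (ser 8 e) * (hs (i + 2) (8 - 2) + (-1) ^ (i + 1) * hs (i + 2) (9 - 8)) =
    ∑ m ∈ Finset.range 6, (-(8 : ℚ)) ^ (e - m) * (e.choose m : ℚ) * (cc 8).getD m 0 := by
  have hc : ∀ d < 6, PowerSeries.coeff d (ser 8 e) = ∑ m ∈ Finset.range (d + 1),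
      (-(8 : ℚ)) ^ (e - m) * (e.choose m : ℚ) * B8.getD (d - m) 0 := by
    intro d hd
    rw [ser_eq, mul_comm, PowerSeries.coeff_mul,
      Finset.Nat.sum_antidiagonal_eq_sum_range_succ
        (fun i j => PowerSeries.coeff i ((PowerSeries.X + PowerSeries.C (-((8 : ℕ) : ℚ))) ^ e) *
          PowerSeries.coeff j (bser 8)) d]
    apply Finset.sum_congr rfl
    intro m hm
    rw [Finset.mem_range] at hm
    rw [coeff_lin_pow, rep_bser_8 (d - m) (by omega)]
    norm_num
  have hI : Finset.Icc 1 6 = {1, 2, 3, 4, 5, 6} := by decide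
  rw [hI]
  rw [Finset.sum_insert (by decide), Finset.sum_insert (by decide), Finset.sum_insert (by decide),
    Finset.sum_insert (by decide), Finset.sum_insert (by decide), Finset.sum_singleton]
  rw [hc (6 - 1) (by norm_num), hc (6 - 2) (by norm_num), hc (6 - 3) (by norm_num),
    hc (6 - 4) (by norm_num), hc (6 - 5) (by norm_num), hc (6 - 6) (by norm_num)]
  norm_num [Finset.sum_range_succ, hs, B8, cc, Nat.choose]
  ring

/-- the sum of all local terms -/
def FC (e : ℕ) : ℚ :=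
  -(((List.range 6).map fun j => ((List.range 6).map fun m =>
    (-((j + 3 : ℕ) : ℚ)) ^ (e - m) * (e.choose m : ℚ) * (cc (j + 3)).getD m 0).sum).sum)

theorem Fm_eq (e : ℕ) : Fm e = FC e := by
  unfold Fm FC
  have hI : (Finset.Icc 3 8 : Finset ℕ) = {3, 4, 5, 6, 7, 8} := by decide
  rw [hI]
  rw [Finset.sum_insert (by decide), Finset.sum_insert (by decide), Finset.sum_insert (by decide),
    Finset.sum_insert (by decide), Finset.sum_insert (by decide), Finset.sum_singleton]
  rw [inner_3, inner_4, inner_5, inner_6, inner_7, inner_8]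
  simp only [sum_range_list]
  norm_num [Finset.sum_range_succ]
  ring

/-- the numerators of the values, common denominator `806215680000000000000` -/
def NN : List ℤ := [0, 1805548812867078771533317, -19861036941537866486866487, 161342738057288885749618249, -1146354767334273641580756551, 7501748284168004614715204585, -46178097189454327324529012711, 269643030756533859512096462281, -1494522510113004363284073659527, 7808535804705545095161375504553, -37742429551072650178502475792935, 161100641348604461436057506021513, -524157199781501651687722821013703, 273178834655385267270390140482921, 16379385056512256208409883712313241, -208004324337804129102754331804291255, 1897317531504731922832753583694710521, -15111642063587681093953603457154673111, 111339837519503080471859359614944976217, -777694290396568576027101284973551263223, 5212373124377512126348089814146928642745, -33724950302553029284593808958325487576343, 211137994902901993564614929930884010266393]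

theorem FC_val : ∀ e < 23, FC e * 806215680000000000000 = ((NN.getD e 0 : ℤ) : ℚ) := by
  decide +kernel

/-- the integer matrix -/
def Nm : Matrix (Fin 12) (Fin 12) ℤ := Matrix.of fun l l' => NN.getD (l.1 + l'.1) 0

/-- the inverse modulo `7` -/
def Bm : Matrix (Fin 12) (Fin 12) (ZMod 7) := !![5, 4, 2, 1, 1, 0, 3, 5, 2, 2, 5, 4;
  4, 4, 4, 2, 0, 3, 2, 5, 1, 6, 4, 0;
  2, 4, 5, 6, 4, 2, 0, 0, 3, 4, 5, 4;
  1, 2, 6, 1, 0, 0, 4, 4, 1, 0, 1, 6;
  1, 0, 4, 0, 4, 4, 0, 2, 5, 5, 5, 2;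
  0, 3, 2, 0, 4, 0, 0, 0, 2, 1, 2, 0;
  3, 2, 0, 4, 0, 0, 0, 2, 1, 2, 0, 0;
  5, 5, 0, 4, 2, 0, 2, 3, 4, 6, 3, 1;
  2, 1, 3, 1, 5, 2, 1, 4, 1, 0, 5, 6;
  2, 6, 4, 0, 5, 1, 2, 6, 0, 3, 0, 5;
  5, 4, 5, 1, 5, 2, 0, 3, 5, 0, 4, 2;
  4, 0, 4, 6, 2, 0, 0, 1, 6, 5, 2, 0]

theorem mul_Bm : Nm.map (Int.cast : ℤ → ZMod 7) * Bm = 1 := by
  decide +kernel

theorem det_Nm : Nm.det ≠ 0 := by
  intro h
  have h1 : (Nm.map (Int.cast : ℤ → ZMod 7)).det = 0 := by
    have h2 := (Int.castRingHom (ZMod 7)).map_det Nm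
    rw [h, map_zero] at h2
    exact h2.symm
  have h3 := congrArg Matrix.det mul_Bm
  rw [Matrix.det_mul, h1, zero_mul, Matrix.det_one] at h3
  exact absurd h3 (by decide)

end H5

open H5 in
theorem H5_local : (Matrix.of fun l l' : Fin 12 => Fm (l.1 + l'.1)).det ≠ 0 := by
  intro h
  apply det_Nm
  have h1 : Nm.map (Int.cast : ℤ → ℚ) =
      (806215680000000000000 : ℚ) • (Matrix.of fun l l' : Fin 12 => Fm (l.1 + l'.1)) := by
    ext l l'
    have h2 := FC_val (l.1 + l'.1) (by omega)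
    rw [← Fm_eq] at h2
    show ((NN.getD (l.1 + l'.1) 0 : ℤ) : ℚ) = 806215680000000000000 * Fm (l.1 + l'.1)
    rw [← h2, mul_comm]
  have h3 : (Nm.map (Int.cast : ℤ → ℚ)).det = 0 := by
    rw [h1, Matrix.det_smul, h, mul_zero]
  have h4 := (Int.castRingHom ℚ).map_det Nm
  have h5 : ((Nm.det : ℤ) : ℚ) = 0 := by
    rw [← h3]
    exact h4
  exact_mod_cast h5

end Pool.Agent.H336R2.HD
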